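import Pool.Agent.NOD.Defs
import Pool.Agent.NOD.S5.QUA

/-!
# Project NOD, section S5: bridges to the interface and the final assembly
-/

set_option autoImplicit false

namespace Pool.Agent.NOD

open MvPolynomial

lemma rank_smul_ne {c : ℂ} (hc : c ≠ 0) (M : Matrix (Fin 5) (Fin 5) ℂ) : (c • M).rank = M.rank := by
  have h1 : c • M = (c • (1 : Matrix (Fin 5) (Fin 5) ℂ)) * M := by simp
  rw [h1, Matrix.rank_mul_eq_right_of_isUnit_det]
  rw [Matrix.det_smul, Matrix.det_one, mul_one]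
  exact (IsUnit.mk0 c hc).pow _

lemma hess_smul {F : A} {d : ℕ} (hF : F.IsHomogeneous d) (c : ℂ) (v : Fin 5 → ℂ) :
    (Matrix.of fun i j : Fin 5 => eval (c • v) (pderiv i (pderiv j F))) =
      c ^ (d - 1 - 1) • (Matrix.of fun i j : Fin 5 => eval v (pderiv i (pderiv j F))) := by
  ext i j
  simp only [Matrix.of_apply, Matrix.smul_apply, smul_eq_mul]
  exact S5.qua_smul hF.pderiv.pderiv c v

lemma hess_rank {F : A} {d : ℕ} (hF : F.IsHomogeneous d) {c : ℂ} (hc : c ≠ 0) (v : Fin 5 → ℂ) :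
    (Matrix.of fun i j : Fin 5 => eval (c • v) (pderiv i (pderiv j F))).rank =
      (Matrix.of fun i j : Fin 5 => eval v (pderiv i (pderiv j F))).rank := by
  rw [hess_smul hF, rank_smul_ne (pow_ne_zero _ hc)]

lemma nodal_of_sing {F : A} {d : ℕ} {zs : Finset (Fin 5 → ℂ)} (hF : F.IsHomogeneous d)
    (hs : Sing F zs) : S5.Nodal F := by
  intro p _ h2
  obtain ⟨z, hz, c, hc⟩ := hs.cover p.rep p.rep_nonzero h2
  have hc0 : c ≠ 0 := by
    rintro rfl
    rw [zero_smul] at hc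
    exact p.rep_nonzero hc
  rw [hc, hess_rank hF hc0]
  exact hs.node z hz

lemma card_sing {F : A} {zs : Finset (Fin 5 → ℂ)} (hs : Sing F zs) :
    (S5.Sing F).encard ≤ zs.card := by
  classical
  have h : ∀ p : Projectivization ℂ (Fin 5 → ℂ), p ∈ S5.Sing F → ∃ z ∈ zs, ∃ c : ℂ, p.rep = c • z :=
    fun p hp => hs.cover p.rep p.rep_nonzero hp.2
  choose! z hz c hc using h
  rw [← Set.encard_coe_eq_coe_finsetCard]
  refine Set.encard_le_encard_of_injOn (f := z) (fun p hp => by exact_mod_cast hz p hp) ?_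
  intro p hp p' hp' he
  have hc0 : c p ≠ 0 := by
    intro h0
    have := hc p hp
    rw [h0, zero_smul] at this
    exact p.rep_nonzero this
  have hc1 : c p' ≠ 0 := by
    intro h0
    have := hc p' hp'
    rw [h0, zero_smul] at this
    exact p'.rep_nonzero this
  rw [← p.mk_rep, ← p'.mk_rep, Projectivization.mk_eq_mk_iff']
  refine ⟨c p * (c p')⁻¹, ?_⟩
  rw [hc p' hp', hc p hp, smul_smul, mul_assoc, inv_mul_cancel₀ hc1, mul_one]
  exact congrArg _ he.symm

theorem t_IRR (hI : S5.S_IRR) : S_IRR := fun d F _ hd hF hs =>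
  (hI d F (by omega) hF (nodal_of_sing hF hs)).prime

theorem t_GR (hR : S5.S_RED) : S_GR := by
  intro d F hd hF hp hall P hP hFP hht
  by_contra hcon
  push Not at hcon
  obtain ⟨Q, hQ, hQh, hFQ, hQ2, hQG⟩ := hR 5 F P hp.irreducible ⟨d, hF⟩ hP hFP hht hcon
  obtain ⟨e, G, -, hG⟩ := hall Q hQ hQh hFQ hQ2
  exact hQG G hG

theorem t_C (hQ : S5.S_QUA) : S_C := by
  intro e F zs he hF hs hq
  have h1 := hQ (e + 2) F (by omega) hF (nodal_of_sing hF hs) hq
  have h2 := h1.trans (card_sing hs)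
  have h3 : 2 * (e + 2 - 2) * (e + 2 - 1) ≤ zs.card := by exact_mod_cast h2
  exact h3

theorem t_AH (hIRR : S_IRR) (hCHART : S_CHART) (hSYS : S_SYS) (hLEF : S_LEF) : S_AH := by
  intro d F zs P hd hF hs hrel hP hPh hFP hht
  obtain ⟨C⟩ := hCHART d F zs P hd hF hs hP hPh hFP hht
  obtain ⟨a, ha, hab⟩ := hSYS d F zs P C hd hF hs hP hPh hFP hht hrel
  exact hLEF d F zs P C a hd hF (hIRR d F zs hd hF hs) hP hPh hFP hht ha hab

/-- representatives of the singular points -/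
lemma sing_of_finite {F : A} {d : ℕ} (hd : 0 < d) (hF : F.IsHomogeneous d) (hN : S5.Nodal F)
    (hfin : (S5.Sing F).Finite) :
    ∃ zs : Finset (Fin 5 → ℂ), Sing F zs ∧ zs.card = (S5.Sing F).ncard := by
  classical
  have hinj : Function.Injective (Projectivization.rep : Projectivization ℂ (Fin 5 → ℂ) → _) := by
    intro p p' h
    rw [← p.mk_rep, ← p'.mk_rep]
    simp only [h]
  have heul : ∀ v : Fin 5 → ℂ, (∀ i, eval v (pderiv i F) = 0) → eval v F = 0 := by
    intro v hv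
    have h1 := hF.sum_X_mul_pderiv
    have h2 := congrArg (eval v) h1
    rw [map_sum] at h2
    simp only [map_mul, eval_X, hv, mul_zero, Finset.sum_const_zero, nsmul_eq_mul, map_natCast]
      at h2
    have h3 : (d : ℂ) ≠ 0 := by exact_mod_cast hd.ne'
    rcases mul_eq_zero.1 h2.symm with h | h
    · exact absurd h h3
    · exact h
  refine ⟨hfin.toFinset.image Projectivization.rep, ⟨?_, ?_, ?_, ?_, ?_⟩, ?_⟩
  · intro z hz
    obtain ⟨p, -, rfl⟩ := Finset.mem_image.1 hz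
    exact p.rep_nonzero
  · intro z hz w hw hne c hc
    obtain ⟨p, -, rfl⟩ := Finset.mem_image.1 hz
    obtain ⟨p', -, rfl⟩ := Finset.mem_image.1 hw
    apply hne
    have h1 : p' = p := by
      rw [← p.mk_rep, ← p'.mk_rep, Projectivization.mk_eq_mk_iff']
      exact ⟨c, hc.symm⟩
    rw [h1]
  · intro z hz i
    obtain ⟨p, hp, rfl⟩ := Finset.mem_image.1 hz
    exact ((Set.Finite.mem_toFinset _).1 hp).2 i
  · intro v hv h0
    obtain ⟨c, hc⟩ := Projectivization.exists_smul_eq_mk_rep ℂ v hv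
    obtain ⟨p, hp⟩ : ∃ p, p = Projectivization.mk ℂ v hv := ⟨_, rfl⟩
    rw [← hp] at hc
    have hg : ∀ i, eval p.rep (pderiv i F) = 0 := by
      intro i
      rw [← hc]
      change eval ((c : ℂ) • v) (pderiv i F) = 0
      rw [S5.qua_smul hF.pderiv, h0 i, mul_zero]
    refine ⟨p.rep, Finset.mem_image.2 ⟨p, (Set.Finite.mem_toFinset _).2 ⟨heul _ hg, hg⟩, rfl⟩,
      ((c⁻¹ : ℂˣ) : ℂ), ?_⟩
    rw [← hc]
    change v = ((c⁻¹ : ℂˣ) : ℂ) • ((c : ℂ) • v)
    rw [smul_smul, ← Units.val_mul, inv_mul_cancel, Units.val_one, one_smul]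
  · intro z hz
    obtain ⟨p, hp, rfl⟩ := Finset.mem_image.1 hz
    have := (Set.Finite.mem_toFinset _).1 hp
    exact hN p this.1 this.2
  · rw [Finset.card_image_of_injective _ hinj, Set.ncard_eq_toFinset_card _ hfin]

/-- **Final assembly** from the interface statements. -/
theorem final (hAH : S_AH) (hGR : S_GR) (hIRR : S_IRR) (hB : S_B) (hC : S_C) :
    ∀ (d : ℕ) (F : MvPolynomial (Fin 5) ℂ),
      (d = 4 ∨ d = 5 ∨ d = 6) →
      F.IsHomogeneous d →
      (∀ p : Projectivization ℂ (Fin 5 → ℂ),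
          MvPolynomial.eval p.rep F = 0 →
          (∀ i : Fin 5, MvPolynomial.eval p.rep (MvPolynomial.pderiv i F) = 0) →
          (Matrix.of (fun i j : Fin 5 =>
              MvPolynomial.eval p.rep
                (MvPolynomial.pderiv i (MvPolynomial.pderiv j F)))).rank = 4) →
      {p : Projectivization ℂ (Fin 5 → ℂ) |
          MvPolynomial.eval p.rep F = 0 ∧
          ∀ i : Fin 5, MvPolynomial.eval p.rep (MvPolynomial.pderiv i F) = 0}.encard
        ≤ ((2 * (d - 2) * (d - 1) : ℕ) : ℕ∞) →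
      (∃ P : Ideal (MvPolynomial (Fin 5) ℂ),
          P.IsPrime ∧ F ∈ P ∧ P.height = 2 ∧
          ∀ G : MvPolynomial (Fin 5) ℂ, P ≠ Ideal.span {F, G}) →
      ((∃ L : (Fin 3 → ℂ) →ₗ[ℂ] (Fin 5 → ℂ),
          Function.Injective L ∧ ∀ v, MvPolynomial.eval (L v) F = 0) ∨
        (∃ (L : (Fin 4 → ℂ) →ₗ[ℂ] (Fin 5 → ℂ)) (q : MvPolynomial (Fin 4) ℂ),
          Function.Injective L ∧ q.IsHomogeneous 2 ∧ Irreducible q ∧
          ∀ v, MvPolynomial.eval v q = 0 → MvPolynomial.eval (L v) F = 0)) ∧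
      ((∃ (L : (Fin 4 → ℂ) →ₗ[ℂ] (Fin 5 → ℂ)) (q : MvPolynomial (Fin 4) ℂ),
          Function.Injective L ∧ q.IsHomogeneous 2 ∧ Irreducible q ∧
          ∀ v, MvPolynomial.eval v q = 0 → MvPolynomial.eval (L v) F = 0) →
        {p : Projectivization ℂ (Fin 5 → ℂ) |
          MvPolynomial.eval p.rep F = 0 ∧
          ∀ i : Fin 5, MvPolynomial.eval p.rep (MvPolynomial.pderiv i F) = 0}.encard
          = ((2 * (d - 2) * (d - 1) : ℕ) : ℕ∞)) := by
  intro d F hd hF hN hcard hP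
  change (S5.Sing F).encard ≤ _ at hcard
  have hN' : S5.Nodal F := hN
  have hfin : (S5.Sing F).Finite := by
    rw [← Set.encard_lt_top_iff]
    exact lt_of_le_of_lt hcard (ENat.natCast_lt_top _)
  have hd4 : 4 ≤ d := by omega
  obtain ⟨zs, hs, hzs⟩ := sing_of_finite (by omega) hF hN' hfin
  have hen : (S5.Sing F).encard = (zs.card : ℕ∞) := by
    rw [hzs, hfin.cast_ncard_eq]
  rw [hen] at hcard
  have hcard' : zs.card ≤ 2 * (d - 2) * (d - 1) := by exact_mod_cast hcard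
  obtain ⟨e, rfl⟩ : ∃ e, d = e + 2 := ⟨d - 2, by omega⟩
  have he : 2 ≤ e ∧ e ≤ 4 := by omega
  have hcard2 : zs.card ≤ 2 * e * (e + 1) := hcard'
  refine ⟨?_, ?_⟩
  · by_cases hrel : Rel zs (2 * e - 1)
    · exact hB e F zs he.1 he.2 hF hs hcard2 hrel
    · exfalso
      obtain ⟨P, hP1, hP2, hP3, hP4⟩ := hP
      have h1 : 2 * e - 1 = 2 * (e + 2) - 5 := by omega
      rw [h1] at hrel
      obtain ⟨G, hG⟩ := hGR (e + 2) F (by omega) hF (hIRR (e + 2) F zs (by omega) hF hs)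
        (fun Q hQ hQh hFQ hQ2 => hAH (e + 2) F zs Q (by omega) hF hs hrel hQ hQh hFQ hQ2)
        P hP1 hP2 hP3
      exact hP4 G hG
  · intro hq
    change (S5.Sing F).encard = _
    rw [hen]
    have h1 := hC e F zs he.1 hF hs hq
    have h2 : zs.card = 2 * (e + 2 - 2) * (e + 2 - 1) := le_antisymm hcard' h1
    rw [h2]

end Pool.Agent.NOD
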