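import Pool.Agent.NOD.StmF

set_option autoImplicit false

namespace Pool.Agent.NOD

open MvPolynomial

theorem t_B1 (T : Tools) (h2 : S_FB2) (h3 : S_FB3) (h4 : S_FB4) : S_B1 := by
  intro e Λ he1 he2 hD hne hb hH hs
  have h0 : H Λ 0 = 1 := T.mon.2.1 (2 * e) Λ hD hne
  interval_cases e
  · have := h2 T Λ hD hne hb (by simpa [Finset.sum_range_succ] using hs)
    rcases this with h | ⟨h, h'⟩
    · exact Or.inl h
    · refine Or.inr ⟨h, ?_, by omega⟩
      intro i hi
      interval_cases i
      · exact h0
      · exact h
  · have := h3 T Λ hD hne hb (by simpa [Finset.sum_range_succ] using hs)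
    rcases this with h | ⟨h, h', h''⟩
    · exact Or.inl h
    · refine Or.inr ⟨h, ?_, by omega⟩
      intro i hi
      interval_cases i
      · exact h0
      · exact h
      · exact h'
  · have := h4 T Λ hD hne hb hH (by simpa [Finset.sum_range_succ] using hs)
    rcases this with h | ⟨h, h', h'', h'''⟩
    · exact Or.inl h
    · refine Or.inr ⟨h, ?_, by omega⟩
      intro i hi
      interval_cases i
      · exact h0
      · exact h
      · exact h'
      · exact h''

end Pool.Agent.NOD
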