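import Mathlib

/-!
# PROJECT NOD (MP_c2352a_ag, S00427): definitions and interface statements.
The complete paper proof is in the team store: nod_proof.md (sections S0 - S5).
-/

set_option autoImplicit false

namespace Pool.Agent.NOD

open MvPolynomial

/-- The polynomial ring in five variables. -/
abbrev A := MvPolynomial (Fin 5) ℂ

/-- `zs` is a set of representatives of the singular points of the cone `F = 0`, all are nodes. -/
structure Sing (F : A) (zs : Finset (Fin 5 → ℂ)) : Prop where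
  ne : ∀ z ∈ zs, z ≠ 0
  indep : ∀ z ∈ zs, ∀ w ∈ zs, z ≠ w → ∀ c : ℂ, w ≠ c • z
  zero : ∀ z ∈ zs, ∀ i, eval z (pderiv i F) = 0
  cover : ∀ v : Fin 5 → ℂ, v ≠ 0 → (∀ i, eval v (pderiv i F) = 0) → ∃ z ∈ zs, ∃ c : ℂ, v = c • z
  node : ∀ z ∈ zs, (Matrix.of fun i j : Fin 5 => eval z (pderiv i (pderiv j F))).rank = 4

/-- The points of `zs` are dependent with respect to forms of degree `n`. -/
def Rel (zs : Finset (Fin 5 → ℂ)) (n : ℕ) : Prop :=
  ∃ c : (Fin 5 → ℂ) → ℂ, (∃ z ∈ zs, c z ≠ 0) ∧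
    ∀ g : A, g.IsHomogeneous n → ∑ z ∈ zs, c z * eval z g = 0

/-- Homogeneous ideal. -/
def HomId (I : Ideal A) : Prop := ∀ f ∈ I, ∀ n, homogeneousComponent n f ∈ I

/-- `f` is a nonzerodivisor modulo `I`. -/
def NZD (I : Ideal A) (f : A) : Prop := ∀ g, f * g ∈ I → g ∈ I

/-- Every subset is followed by every other member as a nonzerodivisor
(a regular sequence in every order, also for subsequences). -/
def PReg {n : ℕ} (f : Fin n → A) : Prop :=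
  ∀ (S : Finset (Fin n)) (i : Fin n), i ∉ S → NZD (Ideal.span (f '' (S : Set (Fin n)))) (f i)

/-- A chart: three open sets on which `P` is generated by `F` and one more form. -/
structure Chart (F : A) (zs : Finset (Fin 5 → ℂ)) (P : Ideal A) where
  u : Fin 3 → A
  g : Fin 3 → A
  del : Fin 3 → ℕ
  gam : Fin 3 → ℕ
  v : A
  del_pos : ∀ i, 0 < del i
  u_hom : ∀ i, (u i).IsHomogeneous (del i)
  g_hom : ∀ i, (g i).IsHomogeneous (gam i)
  g_mem : ∀ i, g i ∈ P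
  u_not : ∀ i, u i ∉ P
  loc : ∀ i, ∀ p ∈ P, u i * p ∈ Ideal.span {F, g i}
  v_hom : v.IsHomogeneous 1
  v_ne : ∀ z ∈ zs, eval z v ≠ 0
  reg : PReg ![F, u 0, u 1, u 2, v]
  reg2 : PReg ![F, g 0, u 1, u 2]

/-- The fraction field. -/
abbrev K := FractionRing A

/-- The localization of `A` at `s`, inside `K`. -/
def Loc (s : A) : Set K :=
  {x | ∃ (n : ℕ) (p : A), algebraMap A K s ^ n * x = algebraMap A K p}

/-- `f * Loc s`. -/
def FLoc (f s : A) : Set K := {x | ∃ y ∈ Loc s, x = algebraMap A K f * y}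

/-- Homogeneous element of the fraction field, of integral degree `t`. -/
def HomK (t : ℤ) (x : K) : Prop :=
  ∃ (n m : ℕ) (p q : A), p.IsHomogeneous n ∧ q.IsHomogeneous m ∧ q ≠ 0 ∧ (n : ℤ) - m = t ∧
    x * algebraMap A K q = algebraMap A K p

/-- A system of transition functions modulo `F^k`. -/
structure Sys (F : A) {zs : Finset (Fin 5 → ℂ)} {P : Ideal A} (C : Chart F zs P) (k : ℕ)
    (a : Fin 3 → Fin 3 → K) : Prop where
  mem : ∀ i j, a i j ∈ Loc (C.u i * C.u j)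
  hom : ∀ i j, HomK ((C.gam j : ℤ) - C.gam i) (a i j)
  diag : ∀ i, a i i = 1
  gen : ∀ i j, algebraMap A K (C.g i) * a i j - algebraMap A K (C.g j) ∈ FLoc F (C.u i * C.u j)
  coc : ∀ i j l, a i j * a j l - a i l ∈ FLoc (F ^ k) (C.u i * C.u j * C.u l)

/-! ## Interface statements -/

/-- S1: irreducibility of `F`. -/
def S_IRR : Prop := ∀ (d : ℕ) (F : A) (zs : Finset (Fin 5 → ℂ)), 3 ≤ d → F.IsHomogeneous d →
  Sing F zs → Prime F

/-- S1: existence of charts. -/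
def S_CHART : Prop := ∀ (d : ℕ) (F : A) (zs : Finset (Fin 5 → ℂ)) (P : Ideal A),
  3 ≤ d → F.IsHomogeneous d → Sing F zs → P.IsPrime → HomId P → F ∈ P → P.height = 2 →
  Nonempty (Chart F zs P)

/-- S1: powers. -/
def S_POW : Prop := ∀ (n : ℕ) (f : Fin n → A) (a : Fin n → ℕ), PReg f → PReg (fun i => f i ^ a i)

/-- S1: the socle of a complete intersection of five forms is in degree `∑ (b j - 1)`. -/
def S_SOC : Prop := ∀ (f : Fin 5 → A) (b : Fin 5 → ℕ) (i : ℕ) (g : A), (∀ j, 0 < b j) →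
  (∀ j, (f j).IsHomogeneous (b j)) → PReg f → g.IsHomogeneous i →
  (∀ l : Fin 5, X l * g ∈ Ideal.span (Set.range f)) → g ∉ Ideal.span (Set.range f) →
  i = ∑ j, (b j - 1)

/-- S1: a form vanishing at the nodes is, up to powers of `v`, in the Jacobian ideal. -/
def S_JSAT : Prop := ∀ (d : ℕ) (F : A) (zs : Finset (Fin 5 → ℂ)) (v f : A) (n : ℕ), 3 ≤ d →
  F.IsHomogeneous d → Sing F zs → v.IsHomogeneous 1 → (∀ z ∈ zs, eval z v ≠ 0) →
  f.IsHomogeneous n → (∀ z ∈ zs, eval z f = 0) →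
  ∃ r : ℕ, v ^ r * f ∈ Ideal.span (Set.range fun i : Fin 5 => pderiv i F)

/-- S1: Noether forms. If `F` and `w` are coprime there are three linear forms such that
all five form a regular sequence; `y 0` can be taken outside a given prime of height two. -/
def S_NF : Prop := ∀ (d k : ℕ) (F w : A) (P : Ideal A), 0 < d → 0 < k → F.IsHomogeneous d →
  w.IsHomogeneous k → PReg ![F, w] → P.IsPrime → P.height = 2 →
  ∃ y : Fin 3 → A, (∀ i, (y i).IsHomogeneous 1) ∧ y 0 ∉ P ∧ PReg ![F, w, y 0, y 1, y 2]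

/-- S2: compatible systems of transition functions of all levels. -/
def S_SYS : Prop := ∀ (d : ℕ) (F : A) (zs : Finset (Fin 5 → ℂ)) (P : Ideal A) (C : Chart F zs P),
  3 ≤ d → F.IsHomogeneous d → Sing F zs → P.IsPrime → HomId P → F ∈ P → P.height = 2 →
  ¬ Rel zs (2 * d - 5) →
  ∃ a : ℕ → Fin 3 → Fin 3 → K, (∀ k, 1 ≤ k → Sys F C k (a k)) ∧
    ∀ k, 1 ≤ k → ∀ i j, a (k + 1) i j - a k i j ∈ FLoc (F ^ k) (C.u i * C.u j)

/-- S3: Grothendieck-Lefschetz. -/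
def S_LEF : Prop := ∀ (d : ℕ) (F : A) (zs : Finset (Fin 5 → ℂ)) (P : Ideal A) (C : Chart F zs P)
  (a : ℕ → Fin 3 → Fin 3 → K), 3 ≤ d → F.IsHomogeneous d → Prime F → P.IsPrime → HomId P →
  F ∈ P → P.height = 2 → (∀ k, 1 ≤ k → Sys F C k (a k)) →
  (∀ k, 1 ≤ k → ∀ i j, a (k + 1) i j - a k i j ∈ FLoc (F ^ k) (C.u i * C.u j)) →
  ∃ (e : ℕ) (G : A), G.IsHomogeneous e ∧ P = Ideal.span {F, G}

/-- S1 + S2 + S3: independent nodes imply graded factoriality. -/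
def S_AH : Prop := ∀ (d : ℕ) (F : A) (zs : Finset (Fin 5 → ℂ)) (P : Ideal A), 3 ≤ d →
  F.IsHomogeneous d → Sing F zs → ¬ Rel zs (2 * d - 5) → P.IsPrime → HomId P → F ∈ P →
  P.height = 2 → ∃ (e : ℕ) (G : A), G.IsHomogeneous e ∧ P = Ideal.span {F, G}

/-- S5: graded factorial implies factorial. -/
def S_GR : Prop := ∀ (d : ℕ) (F : A), 0 < d → F.IsHomogeneous d → Prime F →
  (∀ P : Ideal A, P.IsPrime → HomId P → F ∈ P → P.height = 2 →
    ∃ (e : ℕ) (G : A), G.IsHomogeneous e ∧ P = Ideal.span {F, G}) →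
  ∀ P : Ideal A, P.IsPrime → F ∈ P → P.height = 2 → ∃ G : A, P = Ideal.span {F, G}

/-- The two kinds of surfaces. -/
def HasPlane (F : A) : Prop := ∃ L : (Fin 3 → ℂ) →ₗ[ℂ] (Fin 5 → ℂ),
  Function.Injective L ∧ ∀ v, eval (L v) F = 0

def HasQuadric (F : A) : Prop := ∃ (L : (Fin 4 → ℂ) →ₗ[ℂ] (Fin 5 → ℂ)) (q : MvPolynomial (Fin 4) ℂ),
  Function.Injective L ∧ q.IsHomogeneous 2 ∧ Irreducible q ∧
    ∀ v, eval v q = 0 → eval (L v) F = 0

/-- S0 + S4: dependent nodes imply a plane or a quadric. -/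
def S_B : Prop := ∀ (e : ℕ) (F : A) (zs : Finset (Fin 5 → ℂ)), 2 ≤ e → e ≤ 4 →
  F.IsHomogeneous (e + 2) → Sing F zs → zs.card ≤ 2 * e * (e + 1) → Rel zs (2 * e - 1) →
  HasPlane F ∨ HasQuadric F

/-- S5: Bezout lower bound. -/
def S_C : Prop := ∀ (e : ℕ) (F : A) (zs : Finset (Fin 5 → ℂ)), 2 ≤ e →
  F.IsHomogeneous (e + 2) → Sing F zs → HasQuadric F → 2 * e * (e + 1) ≤ zs.card

/-! ## Functionals (sections S0 and S4) -/

/-- The contraction of a functional by a polynomial. -/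
noncomputable def ctr (f : A) (Λ : A →ₗ[ℂ] ℂ) : A →ₗ[ℂ] ℂ := Λ ∘ₗ LinearMap.mulLeft ℂ f

/-- A functional living on forms of degree `n`. -/
def Deg (n : ℕ) (Λ : A →ₗ[ℂ] ℂ) : Prop := ∀ g, Λ g = Λ (homogeneousComponent n g)

/-- Contraction as a linear map. -/
noncomputable def ctrL (Λ : A →ₗ[ℂ] ℂ) : A →ₗ[ℂ] (A →ₗ[ℂ] ℂ) where
  toFun f := ctr f Λ
  map_add' a b := by
    refine LinearMap.ext fun g => ?_
    change Λ ((a + b) * g) = Λ (a * g) + Λ (b * g)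
    rw [add_mul, map_add]
  map_smul' a b := by
    refine LinearMap.ext fun g => ?_
    change Λ ((a • b) * g) = a • Λ (b * g)
    rw [smul_mul_assoc, map_smul]

/-- The space of all contractions of `Λ` by forms of degree `i`. -/
noncomputable def W (Λ : A →ₗ[ℂ] ℂ) (i : ℕ) : Submodule ℂ (A →ₗ[ℂ] ℂ) :=
  (homogeneousSubmodule (Fin 5) ℂ i).map (ctrL Λ)

/-- The Hilbert function of the Gorenstein algebra `A / Ann Λ`. -/
noncomputable def H (Λ : A →ₗ[ℂ] ℂ) (i : ℕ) : ℕ := Module.finrank ℂ (W Λ i)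

/-- The degree `m` part of the annihilator has no base points. -/
def Bpf (m : ℕ) (Λ : A →ₗ[ℂ] ℂ) : Prop :=
  ∀ v : Fin 5 → ℂ, v ≠ 0 → ∃ f : A, f.IsHomogeneous m ∧ ctr f Λ = 0 ∧ eval v f ≠ 0

/-- S0, Lemma C. -/
def S_LC : Prop := ∀ (m j : ℕ) (Λ : A →ₗ[ℂ] ℂ), 1 ≤ m → Deg (m + j) Λ → Λ ≠ 0 → Bpf m Λ →
  ∀ i ≤ m + j, min (i + 1) (min (j + 2) (m + j - i + 1)) ≤ H Λ i

/-- S0, symmetry. -/
def S_SYM : Prop := ∀ (n : ℕ) (Λ : A →ₗ[ℂ] ℂ), Deg n Λ → ∀ i ≤ n, H Λ i = H Λ (n - i)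

/-- S0, Theorem B1. -/
def S_B1 : Prop := ∀ (e : ℕ) (Λ : A →ₗ[ℂ] ℂ), 2 ≤ e → e ≤ 4 → Deg (2 * e) Λ → Λ ≠ 0 →
  Bpf (e + 1) Λ → H Λ 1 ≤ 4 → ∑ i ∈ Finset.range (2 * e + 1), H Λ i ≤ 2 * e * (e + 1) →
  H Λ 1 = 2 ∨ (H Λ 1 = 3 ∧ (∀ i < e, H Λ i = 2 * i + 1) ∧ H Λ e = 2 * e)

end Pool.Agent.NOD
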