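import Pool.Agent.NOD.StmF

/-!
# PROJECT NOD, piece FB2: the numerical case `e = 2`.
-/

set_option autoImplicit false

namespace Pool.Agent.NOD

open MvPolynomial

namespace FB2

/-- `Bpf` is inherited by contractions. -/
theorem bpf_ctr (T : Tools) {m : ℕ} {Λ : A →ₗ[ℂ] ℂ} (h : Bpf m Λ) (l : A) : Bpf m (ctr l Λ) := by
  intro v hv
  obtain ⟨f, hf, hk, he⟩ := h v hv
  refine ⟨f, hf, ?_, he⟩
  obtain ⟨-, hmul, -⟩ := T.bas
  rw [← hmul, mul_comm, hmul, hk]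
  refine LinearMap.ext fun g => ?_
  simp [ctr]

end FB2

theorem t_FB2 : S_FB2 := by
  intro T Λ hD h0 hB hsum
  obtain ⟨-, -, -, hdeg, -, -, -⟩ := T.bas
  obtain ⟨hm1, hm2, -, -⟩ := T.mon
  have hH0 : H Λ 0 = 1 := hm2 4 Λ hD h0
  have hH4 : H Λ 0 = H Λ 4 := T.sym 4 Λ hD 0 (by norm_num)
  have hH3 : H Λ 1 = H Λ 3 := T.sym 4 Λ hD 1 (by norm_num)
  have hH1 : 2 ≤ H Λ 1 := T.eb 4 3 Λ (by norm_num) (by norm_num) hD h0 hB
  by_cases h3 : 3 ≤ H Λ 1
  · have h24 : 4 ≤ H Λ 2 := by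
      by_cases hall : ∀ l : A, l.IsHomogeneous 1 → ctr l Λ ≠ 0 → H (ctr l Λ) 1 = H Λ 1
      · have := T.plh 1 Λ (by omega) hH1 hall
        change H Λ 1 < H Λ 2 at this
        omega
      · push Not at hall
        obtain ⟨l, hl, hl0, hne⟩ := hall
        have hDl : Deg 3 (ctr l Λ) := hdeg 4 1 l Λ hD hl (by norm_num)
        have hBl : Bpf 3 (ctr l Λ) := FB2.bpf_ctr T hB l
        have hr : 2 ≤ H (ctr l Λ) 1 := T.eb 3 3 _ (by norm_num) (by norm_num) hDl hl0 hBl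
        have hrs : H (ctr l Λ) 1 = H (ctr l Λ) 2 := T.sym 3 _ hDl 1 (by norm_num)
        have hle : H (ctr l Λ) 1 ≤ H Λ 1 := (hm1 1 l Λ hl).1
        obtain ⟨ν, hν0, hνD, -, hνB, hνH⟩ := T.q 3 l Λ (by norm_num) hl (by
          change H (ctr l Λ) 2 < H Λ 3
          omega)
        have hBν : Bpf 3 ν := by
          intro v hv
          obtain ⟨f, hf, hk, he⟩ := hB v hv
          exact ⟨f, hf, hνB 3 f hf hk, he⟩
        have hν1 : 2 ≤ H ν 1 := T.eb 3 3 _ (by norm_num) (by norm_num) hνD hν0 hBν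
        have hν2 : H ν 1 = H ν 2 := T.sym 3 _ hνD 1 (by norm_num)
        have := hνH 2 (by norm_num) (by norm_num)
        change H ν 2 + H (ctr l Λ) 1 ≤ H Λ 2 at this
        omega
    right
    omega
  · left
    omega

end Pool.Agent.NOD
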