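import Pool.Agent.NOD.StmF

/-!
Piece FB3 of project NOD: the possible Hilbert functions for `e = 3`.
-/

set_option autoImplicit false

namespace Pool.Agent.NOD

open MvPolynomial

namespace FB3

lemma ctr_zero (f : A) : ctr f (0 : A →ₗ[ℂ] ℂ) = 0 := by
  refine LinearMap.ext fun g => ?_
  rfl

lemma bpf_ctr (hb : S_FBAS) {m : ℕ} {Λ : A →ₗ[ℂ] ℂ} (h : Bpf m Λ) (l : A) :
    Bpf m (ctr l Λ) := by
  intro v hv
  obtain ⟨f, hf, h0, hne⟩ := h v hv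
  refine ⟨f, hf, ?_, hne⟩
  rw [← hb.2.1, mul_comm, hb.2.1, h0, ctr_zero]

lemma bpf_kill {m : ℕ} {Λ ν : A →ₗ[ℂ] ℂ} (h : Bpf m Λ)
    (hk : ∀ (k : ℕ) (f : A), f.IsHomogeneous k → ctr f Λ = 0 → ctr f ν = 0) : Bpf m ν := by
  intro v hv
  obtain ⟨f, hf, h0, hne⟩ := h v hv
  exact ⟨f, hf, hk m f hf h0, hne⟩

lemma deg_ctr (hb : S_FBAS) {n : ℕ} {Λ : A →ₗ[ℂ] ℂ} (h : Deg (n + 1) Λ) {l : A}
    (hl : l.IsHomogeneous 1) : Deg n (ctr l Λ) := by
  have := hb.2.2.2.1 (n + 1) 1 l Λ h hl (by omega)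
  simpa using this

end FB3

open FB3

theorem t_FB3 : S_FB3 := by
  intro T Λ hD h0 hB hsum
  have hb := T.bas
  have hlc4 : ∀ (j : ℕ) (Λ' : A →ₗ[ℂ] ℂ), Deg (4 + j) Λ' → Λ' ≠ 0 → Bpf 4 Λ' →
      ∀ i ≤ 4 + j, min (i + 1) (min (j + 2) (4 + j - i + 1)) ≤ H Λ' i :=
    fun j Λ' h1 h2 h3 => T.lc 4 j Λ' (by norm_num) h1 h2 h3
  have hH0 := T.mon.2.1 6 Λ hD h0
  have s4 := T.sym 6 Λ hD 4 (by norm_num)
  have s5 := T.sym 6 Λ hD 5 (by norm_num)
  have s6 := T.sym 6 Λ hD 6 (by norm_num)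
  simp only [show 6 - 4 = 2 from rfl, show 6 - 5 = 1 from rfl, show 6 - 6 = 0 from rfl] at s4 s5 s6
  have hge2 := T.eb 6 4 Λ (by norm_num) (by norm_num) hD h0 hB
  by_cases h12 : H Λ 1 = 2
  · exact Or.inl h12
  right
  have h13 : 3 ≤ H Λ 1 := by omega
  -- facts on the contractions
  have key : ∀ l : A, l.IsHomogeneous 1 → ctr l Λ ≠ 0 →
      Deg 5 (ctr l Λ) ∧ Bpf 4 (ctr l Λ) ∧ 2 ≤ H (ctr l Λ) 1 ∧ 3 ≤ H (ctr l Λ) 2 ∧
      H (ctr l Λ) 4 = H (ctr l Λ) 1 ∧ H (ctr l Λ) 3 = H (ctr l Λ) 2 ∧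
      H (ctr l Λ) 1 ≤ H Λ 1 ∧ H (ctr l Λ) 2 ≤ H Λ 2 ∧ H (ctr l Λ) 2 ≤ H Λ 3 := by
    intro l hl hne
    have hd : Deg 5 (ctr l Λ) := deg_ctr hb hD hl
    have hbp := bpf_ctr hb hB l
    have a1 := hlc4 1 _ hd hne hbp 1 (by norm_num)
    have a2 := hlc4 1 _ hd hne hbp 2 (by norm_num)
    have a4 := T.sym 5 _ hd 4 (by norm_num)
    have a3 := T.sym 5 _ hd 3 (by norm_num)
    have m1 := (T.mon.1 1 l Λ hl).1
    have m2 := T.mon.1 2 l Λ hl
    norm_num at a1 a2 a3 a4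
    exact ⟨hd, hbp, a1, a2, a4, a3, m1, m2.1, m2.2⟩
  by_cases hi : ∃ l : A, l.IsHomogeneous 1 ∧ ctr l Λ ≠ 0 ∧ H (ctr l Λ) 1 < H Λ 1
  · obtain ⟨l, hl, hne, hlt⟩ := hi
    obtain ⟨hd, hbp, a1, a2, a4, a3, -⟩ := key l hl hne
    obtain ⟨ν, hν0, hνd, -, hνk, hνi⟩ := T.q 5 l Λ (by norm_num) hl (by
      simp only [show 5 - 1 = 4 from rfl]
      omega)
    have hνb := bpf_kill hB hνk
    have c2 := hlc4 1 ν hνd hν0 hνb 2 (by norm_num)
    have c3 := hlc4 1 ν hνd hν0 hνb 3 (by norm_num)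
    have d2 := hνi 2 (by norm_num) (by norm_num)
    have d3 := hνi 3 (by norm_num) (by norm_num)
    norm_num at c2 c3 d2 d3
    omega
  · have hall : ∀ l : A, l.IsHomogeneous 1 → ctr l Λ ≠ 0 → H (ctr l Λ) 1 = H Λ 1 := by
      intro l hl hne
      have := (key l hl hne).2.2.2.2.2.2.1
      by_contra hcon
      exact hi ⟨l, hl, hne, by omega⟩
    have hp1 := T.plh 1 Λ (by omega) hge2 hall
    norm_num at hp1
    by_cases hii : ∃ l : A, l.IsHomogeneous 1 ∧ ctr l Λ ≠ 0 ∧ H (ctr l Λ) 2 < H Λ 2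
    · obtain ⟨l, hl, hne, hlt⟩ := hii
      obtain ⟨hd, hbp, a1, a2, a4, a3, -⟩ := key l hl hne
      have hr := hall l hl hne
      obtain ⟨ν, hν0, hνd, -, hνk, hνi⟩ := T.q 4 l Λ (by norm_num) hl (by
        simp only [show 4 - 1 = 3 from rfl]
        omega)
      have hνb := bpf_kill hB hνk
      have c2 := hlc4 0 ν hνd hν0 hνb 2 (by norm_num)
      have c3 := hlc4 0 ν hνd hν0 hνb 3 (by norm_num)
      have d2 := hνi 2 (by norm_num) (by norm_num)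
      have d3 := hνi 3 (by norm_num) (by norm_num)
      norm_num at c2 c3 d2 d3
      have e1 : H Λ 1 = 3 := by omega
      have e2 := T.rs 4 1 (ctr l Λ) (by norm_num) (by norm_num) hd hne hbp (by omega)
      omega
    · have hall2 : ∀ l : A, l.IsHomogeneous 1 → ctr l Λ ≠ 0 → H (ctr l Λ) 2 = H Λ 2 := by
        intro l hl hne
        have := (key l hl hne).2.2.2.2.2.2.2.1
        by_contra hcon
        exact hii ⟨l, hl, hne, by omega⟩
      have hp2 := T.plh 2 Λ (by omega) hge2 hall2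
      norm_num at hp2
      by_cases h24 : H Λ 2 = 4
      · exfalso
        refine T.pt 6 2 Λ hD (by norm_num) (by norm_num) h13 ?_
        intro l hl hne
        have r1 := hall l hl hne
        have r2 := hall2 l hl hne
        have o := T.one 2 l Λ (by norm_num) hl (by
          simp only [show 2 - 1 = 1 from rfl]
          omega)
        norm_num at o ⊢
        omega
      · omega

end Pool.Agent.NOD
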