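import Pool.Agent.NOD.Fb3

/-!
Piece FB4 of project NOD: the possible Hilbert functions for `e = 4`.
-/

set_option autoImplicit false

namespace Pool.Agent.NOD

open MvPolynomial FB3

theorem t_FB4 : S_FB4 := by
  intro T Λ hD h0 hB h14 hsum
  have hb := T.bas
  have hlc5 : ∀ (j : ℕ) (Λ' : A →ₗ[ℂ] ℂ), Deg (5 + j) Λ' → Λ' ≠ 0 → Bpf 5 Λ' →
      ∀ i ≤ 5 + j, min (i + 1) (min (j + 2) (5 + j - i + 1)) ≤ H Λ' i :=
    fun j Λ' h1 h2 h3 => T.lc 5 j Λ' (by norm_num) h1 h2 h3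
  have hH0 := T.mon.2.1 8 Λ hD h0
  have s5 := T.sym 8 Λ hD 5 (by norm_num)
  have s6 := T.sym 8 Λ hD 6 (by norm_num)
  have s7 := T.sym 8 Λ hD 7 (by norm_num)
  have s8 := T.sym 8 Λ hD 8 (by norm_num)
  simp only [show 8 - 5 = 3 from rfl, show 8 - 6 = 2 from rfl, show 8 - 7 = 1 from rfl,
    show 8 - 8 = 0 from rfl] at s5 s6 s7 s8
  have hge2 := T.eb 8 5 Λ (by norm_num) (by norm_num) hD h0 hB
  by_cases h12 : H Λ 1 = 2
  · exact Or.inl h12
  right
  have h13 : 3 ≤ H Λ 1 := by omega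
  -- facts on the contractions
  have key : ∀ l : A, l.IsHomogeneous 1 → ctr l Λ ≠ 0 →
      Deg 7 (ctr l Λ) ∧ Bpf 5 (ctr l Λ) ∧ 2 ≤ H (ctr l Λ) 1 ∧ 3 ≤ H (ctr l Λ) 2 ∧
      4 ≤ H (ctr l Λ) 3 ∧
      H (ctr l Λ) 6 = H (ctr l Λ) 1 ∧ H (ctr l Λ) 5 = H (ctr l Λ) 2 ∧
      H (ctr l Λ) 4 = H (ctr l Λ) 3 ∧
      H (ctr l Λ) 1 ≤ H Λ 1 ∧ H (ctr l Λ) 2 ≤ H Λ 2 ∧ H (ctr l Λ) 3 ≤ H Λ 3 ∧
      H (ctr l Λ) 3 ≤ H Λ 4 := by
    intro l hl hne
    have hd : Deg 7 (ctr l Λ) := deg_ctr hb hD hl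
    have hbp := bpf_ctr hb hB l
    have a1 := hlc5 2 _ hd hne hbp 1 (by norm_num)
    have a2 := hlc5 2 _ hd hne hbp 2 (by norm_num)
    have a3 := hlc5 2 _ hd hne hbp 3 (by norm_num)
    have a6 := T.sym 7 _ hd 6 (by norm_num)
    have a5 := T.sym 7 _ hd 5 (by norm_num)
    have a4 := T.sym 7 _ hd 4 (by norm_num)
    have m1 := (T.mon.1 1 l Λ hl).1
    have m2 := (T.mon.1 2 l Λ hl).1
    have m3 := T.mon.1 3 l Λ hl
    norm_num at a1 a2 a3 a4 a5 a6
    exact ⟨hd, hbp, a1, a2, a3, a6, a5, a4, m1, m2, m3.1, m3.2⟩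
  by_cases hi : ∃ l : A, l.IsHomogeneous 1 ∧ ctr l Λ ≠ 0 ∧ H (ctr l Λ) 1 < H Λ 1
  · obtain ⟨l, hl, hne, hlt⟩ := hi
    obtain ⟨hd, hbp, a1, a2, a3, a6, a5, a4, -⟩ := key l hl hne
    obtain ⟨ν, hν0, hνd, -, hνk, hνi⟩ := T.q 7 l Λ (by norm_num) hl (by
      simp only [show 7 - 1 = 6 from rfl]
      omega)
    have hνb := bpf_kill hB hνk
    have c2 := hlc5 2 ν hνd hν0 hνb 2 (by norm_num)
    have c3 := hlc5 2 ν hνd hν0 hνb 3 (by norm_num)
    have c4 := hlc5 2 ν hνd hν0 hνb 4 (by norm_num)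
    have d2 := hνi 2 (by norm_num) (by norm_num)
    have d3 := hνi 3 (by norm_num) (by norm_num)
    have d4 := hνi 4 (by norm_num) (by norm_num)
    norm_num at c2 c3 c4 d2 d3 d4
    omega
  · have hall : ∀ l : A, l.IsHomogeneous 1 → ctr l Λ ≠ 0 → H (ctr l Λ) 1 = H Λ 1 := by
      intro l hl hne
      have := (key l hl hne).2.2.2.2.2.2.2.2.1
      by_contra hcon
      exact hi ⟨l, hl, hne, by omega⟩
    have hp1 := T.plh 1 Λ (by omega) hge2 hall
    norm_num at hp1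
    by_cases hii : ∃ l : A, l.IsHomogeneous 1 ∧ ctr l Λ ≠ 0 ∧ H (ctr l Λ) 2 < H Λ 2
    · obtain ⟨l, hl, hne, hlt⟩ := hii
      obtain ⟨hd, hbp, a1, a2, a3, a6, a5, a4, -⟩ := key l hl hne
      have hr := hall l hl hne
      obtain ⟨ν, hν0, hνd, -, hνk, hνi⟩ := T.q 6 l Λ (by norm_num) hl (by
        simp only [show 6 - 1 = 5 from rfl]
        omega)
      have hνb := bpf_kill hB hνk
      have c2 := hlc5 1 ν hνd hν0 hνb 2 (by norm_num)
      have c3 := hlc5 1 ν hνd hν0 hνb 3 (by norm_num)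
      have c4 := hlc5 1 ν hνd hν0 hνb 4 (by norm_num)
      have d2 := hνi 2 (by norm_num) (by norm_num)
      have d3 := hνi 3 (by norm_num) (by norm_num)
      have d4 := hνi 4 (by norm_num) (by norm_num)
      norm_num at c2 c3 c4 d2 d3 d4
      have e1 : H Λ 1 = 3 := by omega
      have e2 := T.rs 5 2 (ctr l Λ) (by norm_num) (by norm_num) hd hne hbp (by omega)
      omega
    · have hall2 : ∀ l : A, l.IsHomogeneous 1 → ctr l Λ ≠ 0 → H (ctr l Λ) 2 = H Λ 2 := by
        intro l hl hne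
        have := (key l hl hne).2.2.2.2.2.2.2.2.2.1
        by_contra hcon
        exact hii ⟨l, hl, hne, by omega⟩
      have hp2 := T.plh 2 Λ (by omega) hge2 hall2
      norm_num at hp2
      by_cases hiii : ∃ l : A, l.IsHomogeneous 1 ∧ ctr l Λ ≠ 0 ∧ H (ctr l Λ) 3 < H Λ 3
      · obtain ⟨l, hl, hne, hlt⟩ := hiii
        obtain ⟨hd, hbp, a1, a2, a3, a6, a5, a4, -⟩ := key l hl hne
        have hr := hall l hl hne
        have hs := hall2 l hl hne
        obtain ⟨ν, hν0, hνd, -, hνk, hνi⟩ := T.q 5 l Λ (by norm_num) hl (by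
          simp only [show 5 - 1 = 4 from rfl]
          omega)
        have hνb := bpf_kill hB hνk
        have c2 := hlc5 0 ν hνd hν0 hνb 2 (by norm_num)
        have c3 := hlc5 0 ν hνd hν0 hνb 3 (by norm_num)
        have c4 := hlc5 0 ν hνd hν0 hνb 4 (by norm_num)
        have d2 := hνi 2 (by norm_num) (by norm_num)
        have d3 := hνi 3 (by norm_num) (by norm_num)
        have d4 := hνi 4 (by norm_num) (by norm_num)
        norm_num at c2 c3 c4 d2 d3 d4
        have e1 : H Λ 1 = 3 := by omega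
        have e2 : H Λ 2 = 5 := by omega
        have e3 := T.rt (ctr l Λ) hd hne hbp (by omega) (by omega)
        omega
      · have hall3 : ∀ l : A, l.IsHomogeneous 1 → ctr l Λ ≠ 0 → H (ctr l Λ) 3 = H Λ 3 := by
          intro l hl hne
          have := (key l hl hne).2.2.2.2.2.2.2.2.2.2.1
          by_contra hcon
          exact hiii ⟨l, hl, hne, by omega⟩
        have hp3 := T.plh 3 Λ (by omega) hge2 hall3
        norm_num at hp3
        have hA : H Λ 2 ≠ H Λ 1 + 1 := by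
          intro h21
          refine T.pt 8 2 Λ hD (by norm_num) (by norm_num) h13 ?_
          intro l hl hne
          have r1 := hall l hl hne
          have r2 := hall2 l hl hne
          have o := T.one 2 l Λ (by norm_num) hl (by
            simp only [show 2 - 1 = 1 from rfl]
            omega)
          norm_num at o ⊢
          omega
        by_cases hC : H Λ 2 = 5 ∧ H Λ 3 = 6
        · exfalso
          refine T.pt 8 3 Λ hD (by norm_num) (by norm_num) h13 ?_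
          intro l hl hne
          have r1 := hall l hl hne
          have r2 := hall2 l hl hne
          have r3 := hall3 l hl hne
          have o := T.one 3 l Λ (by norm_num) hl (by
            simp only [show 3 - 1 = 2 from rfl]
            omega)
          norm_num at o ⊢
          omega
        · omega

end Pool.Agent.NOD
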