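import Pool.Agent.NOD.StmF

/-!
# Piece FBAS of project NOD
-/

set_option autoImplicit false

namespace Pool.Agent.NOD

open MvPolynomial

namespace Fbas

theorem hc_of {g : A} {k m : ℕ} (h : g.IsHomogeneous k) :
    homogeneousComponent m g = if m = k then g else 0 :=
  homogeneousComponent_of_mem h

/-- components of a product with a form -/
theorem hc_mul (g B : A) (b k : ℕ) (hB : B.IsHomogeneous b) :
    homogeneousComponent (k + b) (g * B) = homogeneousComponent k g * B := by
  have h1 : ∀ i, homogeneousComponent (k + b) (homogeneousComponent i g * B) =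
      if k = i then homogeneousComponent k g * B else 0 := by
    intro i
    rw [hc_of ((homogeneousComponent_isHomogeneous i g).mul hB)]
    by_cases h : k = i
    · subst h
      simp
    · rw [if_neg h, if_neg (by omega)]
  conv_lhs => rw [← sum_homogeneousComponent g, Finset.sum_mul, map_sum]
  rw [Finset.sum_congr rfl fun i _ => h1 i, Finset.sum_ite_eq]
  split_ifs with h
  · rfl
  · rw [Finset.mem_range] at h
    rw [homogeneousComponent_eq_zero k g (by omega), zero_mul]

theorem hc_mul_lt (g B : A) (b m : ℕ) (hB : B.IsHomogeneous b)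
    (hm : m < b) : homogeneousComponent m (g * B) = 0 := by
  have h1 : ∀ i, homogeneousComponent m (homogeneousComponent i g * B) = 0 := by
    intro i
    rw [hc_of ((homogeneousComponent_isHomogeneous i g).mul hB), if_neg (by omega)]
  conv_lhs => rw [← sum_homogeneousComponent g, Finset.sum_mul, map_sum]
  exact Finset.sum_eq_zero fun i _ => h1 i

theorem ctr_apply (f g : A) (Λ : A →ₗ[ℂ] ℂ) : ctr f Λ g = Λ (f * g) := rfl

theorem hom_succ (i : ℕ) : homogeneousSubmodule (Fin 5) ℂ (i + 1) =
    ⨆ j : Fin 5, (homogeneousSubmodule (Fin 5) ℂ i).map (LinearMap.mulLeft ℂ (X j : A)) := by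
  apply le_antisymm
  · intro f hf
    have hf' : IsHomogeneous f (i + 1) := hf
    rw [← support_sum_monomial_coeff f]
    refine Submodule.sum_mem _ fun d hd => ?_
    have hdeg : d.degree = i + 1 := by
      by_contra h
      exact (mem_support_iff.1 hd) (hf'.coeff_eq_zero h)
    have hj : ∃ j, d j ≠ 0 := by
      by_contra h
      push Not at h
      have h0 : d = 0 := Finsupp.ext h
      rw [h0, map_zero] at hdeg
      omega
    obtain ⟨j, hj⟩ := hj
    have hle : Finsupp.single j 1 ≤ d := by
      rw [Finsupp.single_le_iff]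
      omega
    have hd2 : d = Finsupp.single j 1 + (d - Finsupp.single j 1) :=
      (add_tsub_cancel_of_le hle).symm
    have hdeg2 : (d - Finsupp.single j 1).degree = i := by
      have h1 := congrArg Finsupp.degree hd2
      rw [map_add, Finsupp.degree_single, hdeg] at h1
      omega
    refine Submodule.mem_iSup_of_mem j (Submodule.mem_map.2
      ⟨monomial (d - Finsupp.single j 1) (coeff d f), ?_, ?_⟩)
    · exact isHomogeneous_monomial _ hdeg2
    · rw [LinearMap.mulLeft_apply]
      have h2 : monomial (Finsupp.single j 1 + (d - Finsupp.single j 1)) (coeff d f) =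
          X j ^ 1 * monomial (d - Finsupp.single j 1) (coeff d f) := monomial_single_add
      rw [pow_one] at h2
      rw [← h2, ← hd2]
  · refine iSup_le fun j => ?_
    rintro _ ⟨g, hg, rfl⟩
    have h1 := (isHomogeneous_X ℂ j).mul (show IsHomogeneous g i from hg)
    rw [add_comm 1 i] at h1
    exact h1

theorem W_ctr (i : ℕ) (l : A) (Λ : A →ₗ[ℂ] ℂ) : W (ctr l Λ) i =
    (W Λ i).map (LinearMap.lcomp ℂ ℂ (LinearMap.mulLeft ℂ l)) := by
  unfold W
  rw [← Submodule.map_comp]
  congr 1
  refine LinearMap.ext fun f => LinearMap.ext fun g => ?_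
  change Λ (l * (f * g)) = Λ (f * (l * g))
  congr 1
  ring

end Fbas

theorem t_FBAS : S_FBAS := by
  refine ⟨fun n => Module.Finite.iff_fg.2 (homogeneousSubmodule_fg _ _ n), ?_, ?_, ?_, ?_,
    Fbas.W_ctr, ?_⟩
  · intro f g Λ
    refine LinearMap.ext fun h => ?_
    change Λ (f * g * h) = Λ (g * (f * h))
    congr 1
    ring
  · intro f g Λ
    refine LinearMap.ext fun h => ?_
    change Λ ((f + g) * h) = Λ (f * h) + Λ (g * h)
    rw [add_mul, map_add]
  · intro n k f Λ hΛ hf hk g
    change Λ (f * g) = Λ (f * homogeneousComponent (n - k) g)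
    rw [hΛ (f * g)]
    congr 1
    have h1 := Fbas.hc_mul g f k (n - k) hf
    rw [Nat.sub_add_cancel hk] at h1
    rw [mul_comm f g, h1, mul_comm]
  · intro n k f Λ hΛ hf hk
    refine LinearMap.ext fun g => ?_
    change Λ (f * g) = 0
    rw [hΛ (f * g), mul_comm, Fbas.hc_mul_lt g f k n hf hk, map_zero]
  · intro i Λ
    unfold W
    rw [Fbas.hom_succ i, Submodule.map_iSup]
    refine iSup_congr fun j => ?_
    rw [← Submodule.map_comp, ← Submodule.map_comp]
    congr 1
    refine LinearMap.ext fun f => LinearMap.ext fun g => ?_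
    change Λ (X j * f * g) = Λ (f * (X j * g))
    congr 1
    ring

end Pool.Agent.NOD
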