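import Pool.Agent.NOD.Fev

set_option autoImplicit false

namespace Pool.Agent.NOD

open MvPolynomial

/-- without base points the first Hilbert function is at least two -/
theorem t_FEB : S_FEB := by
  intro n m Λ hn hmn hΛ hne hB
  by_contra hcon
  obtain ⟨p, c, hp, hc, hval⟩ := t_FEV n Λ hn hΛ hne (by omega)
  obtain ⟨f, hf, hfΛ, hfp⟩ := hB p hp
  obtain ⟨i₀, hi₀⟩ := Function.ne_iff.1 hp
  rw [Pi.zero_apply] at hi₀
  have h1 : (f * X i₀ ^ (n - m)).IsHomogeneous n := by
    have := hf.mul ((isHomogeneous_X ℂ i₀).pow (n - m))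
    rwa [one_mul, show m + (n - m) = n by omega] at this
  have h2 : Λ (f * X i₀ ^ (n - m)) = 0 := LinearMap.congr_fun hfΛ (X i₀ ^ (n - m))
  rw [hval _ h1, map_mul, map_pow, eval_X] at h2
  exact (mul_ne_zero hc (mul_ne_zero hfp (pow_ne_zero _ hi₀))) h2

end Pool.Agent.NOD
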