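import Pool.Agent.NOD.StmF

set_option autoImplicit false

namespace Pool.Agent.NOD

open MvPolynomial

namespace Fev

instance wfin (Λ : A →ₗ[ℂ] ℂ) (i : ℕ) : Module.Finite ℂ (W Λ i) :=
  Module.Finite.iff_fg.2 (Submodule.FG.map _ (homogeneousSubmodule_fg (Fin 5) ℂ i))

theorem mon_zero (Λ : A →ₗ[ℂ] ℂ) (h : ∀ i : Fin 5, ctr (X i) Λ = 0) (e : Fin 5 →₀ ℕ) (a : ℂ) :
    (monomial e a : A).IsHomogeneous 0 ∨ ∀ g, Λ (monomial e a * g) = 0 := by
  refine induction_on_monomial (motive := fun q : A => q.IsHomogeneous 0 ∨ ∀ g, Λ (q * g) = 0)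
    ?_ ?_ e a
  · intro c
    exact Or.inl (isHomogeneous_C _ c)
  · intro q i _
    right
    intro g
    have h1 : Λ (X i * (q * g)) = 0 := LinearMap.congr_fun (h i) (q * g)
    rw [← h1]
    congr 1
    ring

theorem mon_eval (Λ : A →ₗ[ℂ] ℂ) (p : Fin 5 → ℂ) (i₀ : Fin 5)
    (h : ∀ i : Fin 5, ctr (X i) Λ = p i • ctr (X i₀) Λ) (e : Fin 5 →₀ ℕ) (a : ℂ) :
    ∃ k, (monomial e a : A).IsHomogeneous k ∧
      ∀ g, Λ (monomial e a * g) = eval p (monomial e a) * Λ (X i₀ ^ k * g) := by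
  refine induction_on_monomial (motive := fun q : A => ∃ k, q.IsHomogeneous k ∧
    ∀ g, Λ (q * g) = eval p q * Λ (X i₀ ^ k * g)) ?_ ?_ e a
  · intro c
    refine ⟨0, isHomogeneous_C _ c, fun g => ?_⟩
    rw [eval_C, pow_zero, one_mul, C_mul', map_smul, smul_eq_mul]
  · rintro q i ⟨k, hk, hq⟩
    refine ⟨k + 1, hk.mul (isHomogeneous_X ℂ i), fun g => ?_⟩
    have h1 : Λ (X i * (X i₀ ^ k * g)) = p i * Λ (X i₀ * (X i₀ ^ k * g)) :=
      LinearMap.congr_fun (h i) (X i₀ ^ k * g)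
    have h2 : eval p (q * X i) = eval p q * p i := by rw [map_mul, eval_X]
    rw [mul_assoc, hq, show (X i₀ : A) ^ k * (X i * g) = X i * (X i₀ ^ k * g) by ring, h1,
      h2, show (X i₀ : A) * (X i₀ ^ k * g) = X i₀ ^ (k + 1) * g by ring]
    ring

theorem deg_of_mon {n : ℕ} {g : A} (hg : g.IsHomogeneous n) {e : Fin 5 →₀ ℕ}
    (he : e ∈ g.support) {k : ℕ} (hk : (monomial e (coeff e g) : A).IsHomogeneous k) : k = n := by
  have h0 : coeff e g ≠ 0 := mem_support_iff.1 he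
  have h1 := hg h0
  have h2 : coeff e (monomial e (coeff e g)) ≠ 0 := by
    rwa [coeff_monomial, if_pos rfl]
  have h3 := hk h2
  rw [← h3, ← h1]

end Fev

/-- a functional with first Hilbert function at most one is an evaluation -/
theorem t_FEV : S_FEV := by
  intro n Λ hn hΛ hne hH
  classical
  -- a variable which does not kill
  have hex : ∃ i₀ : Fin 5, ctr (X i₀) Λ ≠ 0 := by
    by_contra hcon
    push Not at hcon
    apply hne
    refine LinearMap.ext fun g => ?_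
    rw [hΛ, LinearMap.zero_apply]
    have hg : (homogeneousComponent n g).IsHomogeneous n := homogeneousComponent_isHomogeneous n g
    rw [(homogeneousComponent n g).as_sum, map_sum]
    refine Finset.sum_eq_zero fun e he => ?_
    rcases Fev.mon_zero Λ hcon e (coeff e (homogeneousComponent n g)) with h1 | h1
    · have := Fev.deg_of_mon hg he h1
      omega
    · have := h1 1
      rwa [mul_one] at this
  obtain ⟨i₀, hi₀⟩ := hex
  have hmem : ∀ i : Fin 5, ctr (X i) Λ ∈ W Λ 1 := fun i =>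
    ⟨X i, (mem_homogeneousSubmodule _ _).2 (isHomogeneous_X ℂ i), rfl⟩
  obtain ⟨v, hv⟩ := finrank_le_one_iff.1 hH
  have hv' : ∀ i : Fin 5, ∃ c : ℂ, c • (v : A →ₗ[ℂ] ℂ) = ctr (X i) Λ := by
    intro i
    obtain ⟨c, hc⟩ := hv ⟨_, hmem i⟩
    exact ⟨c, congrArg Subtype.val hc⟩
  choose c hc using hv'
  have hc0 : c i₀ ≠ 0 := by
    intro h0
    apply hi₀
    rw [← hc i₀, h0, zero_smul]
  let p : Fin 5 → ℂ := fun i => c i / c i₀
  have hp : ∀ i : Fin 5, ctr (X i) Λ = p i • ctr (X i₀) Λ := by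
    intro i
    rw [← hc i, ← hc i₀, smul_smul]
    congr 1
    simp only [p]
    field_simp
  have hval : ∀ g : A, g.IsHomogeneous n → Λ g = Λ (X i₀ ^ n) * eval p g := by
    intro g hg
    rw [mul_comm]
    conv_lhs => rw [g.as_sum]
    conv_rhs => rw [g.as_sum]
    rw [map_sum, map_sum, Finset.sum_mul]
    refine Finset.sum_congr rfl fun e he => ?_
    obtain ⟨k, hk, hk'⟩ := Fev.mon_eval Λ p i₀ hp e (coeff e g)
    have hkn := Fev.deg_of_mon hg he hk
    have := hk' 1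
    rw [mul_one, mul_one, hkn] at this
    exact this
  refine ⟨p, Λ (X i₀ ^ n), ?_, ?_, hval⟩
  · intro h0
    have h1 : p i₀ = 0 := by rw [h0]; rfl
    simp only [p] at h1
    rw [div_self hc0] at h1
    exact one_ne_zero h1
  · intro h0
    apply hne
    refine LinearMap.ext fun g => ?_
    rw [hΛ, hval _ (homogeneousComponent_isHomogeneous n g), h0, zero_mul, LinearMap.zero_apply]

end Pool.Agent.NOD
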