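import Pool.Agent.NOD.Fbas

/-!
# Piece FMON of project NOD
-/

set_option autoImplicit false

namespace Pool.Agent.NOD

open MvPolynomial

namespace Fmon

instance finHom (n : ℕ) : Module.Finite ℂ (homogeneousSubmodule (Fin 5) ℂ n) := t_FBAS.1 n

instance finW (Λ : A →ₗ[ℂ] ℂ) (i : ℕ) : Module.Finite ℂ (W Λ i) := by
  unfold W
  infer_instance

theorem mem_W {Λ : A →ₗ[ℂ] ℂ} {i : ℕ} {φ : A →ₗ[ℂ] ℂ} :
    φ ∈ W Λ i ↔ ∃ f : A, f.IsHomogeneous i ∧ ctr f Λ = φ := by
  unfold W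
  rw [Submodule.mem_map]
  rfl

theorem W_ne_bot {n i : ℕ} {Λ : A →ₗ[ℂ] ℂ} (hΛ : Deg n Λ) (h0 : Λ ≠ 0) (hi : i ≤ n) :
    W Λ i ≠ ⊥ := by
  intro hW
  have h1 : ∀ j, W Λ (i + j) = ⊥ := by
    intro j
    induction j with
    | zero => exact hW
    | succ j ih =>
      rw [← add_assoc, t_FBAS.2.2.2.2.2.2 (i + j) Λ, ih]
      simp
  have h2 := h1 (n - i)
  rw [Nat.add_sub_cancel' hi] at h2
  apply h0
  refine LinearMap.ext fun g => ?_
  rw [hΛ g]
  have h3 : ctr (homogeneousComponent n g) Λ ∈ W Λ n :=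
    mem_W.2 ⟨_, homogeneousComponent_isHomogeneous n g, rfl⟩
  rw [h2, Submodule.mem_bot] at h3
  have h4 := LinearMap.congr_fun h3 1
  change Λ (homogeneousComponent n g * 1) = 0 at h4
  rw [mul_one] at h4
  rw [h4]
  rfl

end Fmon

open Fmon

theorem t_FMON : S_FMON := by
  refine ⟨fun i l Λ hl => ⟨?_, ?_⟩, fun n Λ hΛ h0 => ?_, fun n i Λ hΛ hi => ?_,
    fun n i Λ hΛ h0 hi => ?_⟩
  · unfold H
    rw [Fbas.W_ctr i l Λ]
    exact Submodule.finrank_map_le _ _
  · unfold H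
    refine Submodule.finrank_mono ?_
    intro φ hφ
    obtain ⟨f, hf, rfl⟩ := mem_W.1 hφ
    refine mem_W.2 ⟨f * l, hf.mul hl, ?_⟩
    have h1 := t_FBAS.2.1 l f Λ
    have h2 := t_FBAS.2.1 f l Λ
    exact h2
  · have h1 : W Λ 0 = Submodule.span ℂ {Λ} := by
      apply le_antisymm
      · intro φ hφ
        obtain ⟨f, hf, rfl⟩ := mem_W.1 hφ
        rw [← totalDegree_zero_iff_isHomogeneous, totalDegree_eq_zero_iff_eq_C] at hf
        rw [hf]
        refine Submodule.mem_span_singleton.2 ⟨coeff 0 f, ?_⟩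
        refine LinearMap.ext fun g => ?_
        change coeff 0 f • Λ g = Λ (C (coeff 0 f) * g)
        rw [← smul_eq_C_mul, map_smul]
      · rw [Submodule.span_le]
        intro φ hφ
        rw [Set.mem_singleton_iff] at hφ
        subst hφ
        refine mem_W.2 ⟨1, isHomogeneous_one _ _, ?_⟩
        refine LinearMap.ext fun g => ?_
        change φ (1 * g) = φ g
        rw [one_mul]
    unfold H
    rw [h1]
    exact finrank_span_singleton h0
  · have h1 : W Λ i = ⊥ := by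
      rw [eq_bot_iff]
      intro φ hφ
      obtain ⟨f, hf, rfl⟩ := mem_W.1 hφ
      rw [Submodule.mem_bot]
      exact t_FBAS.2.2.2.2.1 n i f Λ hΛ hf hi
    unfold H
    rw [h1]
    exact finrank_bot ℂ _
  · have h1 := W_ne_bot hΛ h0 hi
    rw [Nat.pos_iff_ne_zero]
    intro h2
    exact h1 (Submodule.finrank_eq_zero.1 h2)

end Pool.Agent.NOD
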