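import Pool.Agent.NOD.StmF

/-!
# PROJECT NOD, piece FONE: if `(G/l)_i` has dimension at most one, then so has `(G/l)_{i+1}`.
-/

set_option autoImplicit false

namespace Pool.Agent.NOD

open MvPolynomial

namespace FONE

/-- Abstract linear algebra of the piece. -/
theorem key {V : Type} [AddCommGroup V] [Module ℂ V] (T : Fin 5 → V →ₗ[ℂ] V) (L : V →ₗ[ℂ] V)
    (hc : ∀ j k v, T j (T k v) = T k (T j v)) (hL : ∀ j v, T j (L v) = L (T j v))
    (U Y Z : Submodule ℂ V) [FiniteDimensional ℂ U]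
    (hY : Y = ⨆ j, U.map (T j)) (hZ : Z = ⨆ j, Y.map (T j)) (hU : U.map L ≤ Y)
    (h : Module.finrank ℂ Y ≤ Module.finrank ℂ (U.map L) + 1) :
    Module.finrank ℂ Z ≤ Module.finrank ℂ (Y.map L) + 1 := by
  have hfY : FiniteDimensional ℂ Y := by
    rw [hY]; infer_instance
  have hfZ : FiniteDimensional ℂ Z := by
    rw [hZ]; infer_instance
  have hmem : ∀ j, ∀ u ∈ U, T j u ∈ Y := fun j u hu => by
    rw [hY]
    exact Submodule.mem_iSup_of_mem j (Submodule.mem_map_of_mem hu)
  -- it is enough that `Z` is contained in `L Y` and one more vector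
  have main : ∃ w : V, Z ≤ Y.map L ⊔ Submodule.span ℂ {w} := by
    by_cases hall : ∀ j, U.map (T j) ≤ U.map L
    · -- `Y = L U`
      refine ⟨0, ?_⟩
      have hYL : Y ≤ U.map L := by
        rw [hY]; exact iSup_le hall
      rw [hZ]
      refine iSup_le fun j => ?_
      rintro _ ⟨y, hy, rfl⟩
      obtain ⟨u, hu, rfl⟩ := hYL hy
      rw [hL]
      exact Submodule.mem_sup_left (Submodule.mem_map_of_mem (hmem j u hu))
    · push Not at hall
      obtain ⟨j, hj⟩ := hall
      obtain ⟨_, ⟨u, hu, rfl⟩, hju⟩ := SetLike.not_le_iff_exists.mp hj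
      have huY : T j u ∈ Y := hmem j u hu
      have hlt : U.map L < U.map L ⊔ Submodule.span ℂ {T j u} := by
        refine lt_of_le_of_ne le_sup_left fun he => hju ?_
        rw [he]
        exact Submodule.mem_sup_right (Submodule.mem_span_singleton_self _)
      have hle : U.map L ⊔ Submodule.span ℂ {T j u} ≤ Y :=
        sup_le hU ((Submodule.span_singleton_le_iff_mem _ _).mpr huY)
      have heq : U.map L ⊔ Submodule.span ℂ {T j u} = Y := by
        refine Submodule.eq_of_le_of_finrank_le hle ?_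
        have := Submodule.finrank_lt_finrank_of_lt hlt
        omega
      -- `T j y` for `y ∈ Y`
      have hjY : ∀ y ∈ Y, T j y ∈ Y.map L ⊔ Submodule.span ℂ {T j (T j u)} := by
        intro y hy
        rw [← heq] at hy
        obtain ⟨_, ⟨a, ha, rfl⟩, b, hb, rfl⟩ := Submodule.mem_sup.mp hy
        obtain ⟨c, rfl⟩ := Submodule.mem_span_singleton.mp hb
        rw [map_add, hL, map_smul]
        exact Submodule.add_mem_sup (Submodule.mem_map_of_mem (hmem j a ha))
          (Submodule.smul_mem _ _ (Submodule.mem_span_singleton_self _))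
      refine ⟨T j (T j u), ?_⟩
      rw [hZ]
      refine iSup_le fun k => ?_
      rintro _ ⟨y, hy, rfl⟩
      have hy' : y ∈ Y := hy
      rw [← heq] at hy'
      obtain ⟨_, ⟨a, ha, rfl⟩, b, hb, rfl⟩ := Submodule.mem_sup.mp hy'
      obtain ⟨c, rfl⟩ := Submodule.mem_span_singleton.mp hb
      rw [map_add, hL, map_smul, hc k j]
      exact Submodule.add_mem _ (Submodule.mem_sup_left
        (Submodule.mem_map_of_mem (hmem k a ha)))
        (Submodule.smul_mem _ _ (hjY _ (hmem k u hu)))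
  obtain ⟨w, hw⟩ := main
  calc Module.finrank ℂ Z ≤ Module.finrank ℂ (Y.map L ⊔ Submodule.span ℂ {w} : Submodule ℂ V) :=
        Submodule.finrank_mono hw
    _ ≤ Module.finrank ℂ (Y.map L) + Module.finrank ℂ (Submodule.span ℂ {w}) :=
        Submodule.finrank_add_le_finrank_add_finrank _ _
    _ ≤ Module.finrank ℂ (Y.map L) + 1 := by
        have := finrank_span_le_card (R := ℂ) ({w} : Set V)
        simp only [Set.toFinset_singleton, Finset.card_singleton] at this
        omega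

/-- The finitely generated pieces. -/
theorem fin_hom (n : ℕ) : Module.Finite ℂ (homogeneousSubmodule (Fin 5) ℂ n) := by
  have hle : homogeneousSubmodule (Fin 5) ℂ n ≤ restrictTotalDegree (Fin 5) ℂ n := by
    intro f hf
    rw [mem_restrictTotalDegree]
    exact (IsHomogeneous.totalDegree_le hf)
  exact Submodule.finiteDimensional_of_le hle

theorem mem_W {Λ : A →ₗ[ℂ] ℂ} {i : ℕ} {w : A →ₗ[ℂ] ℂ} :
    w ∈ W Λ i ↔ ∃ f : A, f.IsHomogeneous i ∧ ctr f Λ = w := by
  constructor
  · rintro ⟨f, hf, rfl⟩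
    exact ⟨f, hf, rfl⟩
  · rintro ⟨f, hf, rfl⟩
    exact ⟨f, hf, rfl⟩

theorem lcomp_ctr (l f : A) (Λ : A →ₗ[ℂ] ℂ) :
    LinearMap.lcomp ℂ ℂ (LinearMap.mulLeft ℂ l) (ctr f Λ) = ctr (f * l) Λ := by
  refine LinearMap.ext fun g => ?_
  change Λ (f * (l * g)) = Λ (f * l * g)
  rw [mul_assoc]

theorem W_ctr (i : ℕ) (l : A) (Λ : A →ₗ[ℂ] ℂ) : W (ctr l Λ) i =
    (W Λ i).map (LinearMap.lcomp ℂ ℂ (LinearMap.mulLeft ℂ l)) := by
  ext w
  rw [mem_W, Submodule.mem_map]
  constructor
  · rintro ⟨f, hf, rfl⟩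
    refine ⟨ctr f Λ, mem_W.mpr ⟨f, hf, rfl⟩, ?_⟩
    refine LinearMap.ext fun g => ?_
    change Λ (f * (l * g)) = Λ (l * (f * g))
    congr 1; ring
  · rintro ⟨_, hw, rfl⟩
    obtain ⟨f, hf, rfl⟩ := mem_W.mp hw
    refine ⟨f, hf, ?_⟩
    refine LinearMap.ext fun g => ?_
    change Λ (l * (f * g)) = Λ (f * (l * g))
    congr 1; ring

theorem W_le (i : ℕ) (l : A) (hl : l.IsHomogeneous 1) (Λ : A →ₗ[ℂ] ℂ) :
    (W Λ i).map (LinearMap.lcomp ℂ ℂ (LinearMap.mulLeft ℂ l)) ≤ W Λ (i + 1) := by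
  rintro _ ⟨w, hw, rfl⟩
  obtain ⟨f, hf, rfl⟩ := mem_W.mp hw
  rw [lcomp_ctr]
  exact mem_W.mpr ⟨f * l, hf.mul hl, rfl⟩

theorem W_succ (i : ℕ) (Λ : A →ₗ[ℂ] ℂ) : W Λ (i + 1) =
    ⨆ j : Fin 5, (W Λ i).map (LinearMap.lcomp ℂ ℂ (LinearMap.mulLeft ℂ (X j : A))) := by
  apply le_antisymm
  · rintro w hw
    obtain ⟨f, hf, rfl⟩ := mem_W.mp hw
    change ctrL Λ f ∈ _
    rw [f.as_sum, map_sum]
    refine Submodule.sum_mem _ fun d hd => ?_
    have hdeg : d.degree = i + 1 := by
      rw [Finsupp.degree_eq_weight_one]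
      exact hf (mem_support_iff.mp hd)
    have hex : ∃ j, d j ≠ 0 := by
      by_contra hno
      push Not at hno
      have : d = 0 := Finsupp.ext hno
      rw [this] at hdeg
      simp at hdeg
    obtain ⟨j, hj⟩ := hex
    have hd' : d = (d - Finsupp.single j 1) + Finsupp.single j 1 := by
      refine (tsub_add_cancel_of_le ?_).symm
      rw [Finsupp.single_le_iff]
      omega
    have hmon : monomial d (coeff d f) = monomial (d - Finsupp.single j 1) (coeff d f) * (X j : A) := by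
      conv_lhs => rw [hd']
      rw [monomial_add_single, pow_one, ← hd']
    refine Submodule.mem_iSup_of_mem j ?_
    rw [hmon]
    change ctr _ Λ ∈ _
    rw [← lcomp_ctr]
    refine Submodule.mem_map_of_mem (mem_W.mpr ⟨_, ?_, rfl⟩)
    apply isHomogeneous_monomial
    have h1 : d.degree = (d - Finsupp.single j 1).degree + 1 := by
      conv_lhs => rw [hd']
      simp
    omega
  · exact iSup_le fun j => W_le i (X j) (isHomogeneous_X ℂ j) Λ

end FONE

open FONE in
theorem t_FONE : S_FONE := by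
  intro i l Λ hi hl h
  obtain ⟨k, rfl⟩ : ∃ k, i = k + 1 := ⟨i - 1, by omega⟩
  rw [Nat.add_sub_cancel] at h
  have := fin_hom k
  have : FiniteDimensional ℂ (W Λ k) := by
    unfold W; infer_instance
  have := key (fun j : Fin 5 => LinearMap.lcomp ℂ ℂ (LinearMap.mulLeft ℂ (X j : A)))
    (LinearMap.lcomp ℂ ℂ (LinearMap.mulLeft ℂ l))
    (fun j k v => by
      refine LinearMap.ext fun g => ?_
      change v (X k * (X j * g)) = v (X j * (X k * g))
      congr 1; ring)
    (fun j v => by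
      refine LinearMap.ext fun g => ?_
      change v (l * (X j * g)) = v (X j * (l * g))
      congr 1; ring)
    (W Λ k) (W Λ (k + 1)) (W Λ (k + 1 + 1)) (W_succ k Λ) (W_succ (k + 1) Λ)
    (W_le k l hl Λ) (by rw [← W_ctr]; exact h)
  rw [← W_ctr] at this
  exact this

end Pool.Agent.NOD
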