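import Pool.Agent.NOD.StmF

set_option autoImplicit false

namespace Pool.Agent.NOD

/-- the pencil lemma -/
theorem t_FPEN : S_FPEN := by
  intro V V' _ _ _ _ _ _ φ ψ hpos h
  by_contra hcon
  have hφ : Function.Injective φ := by
    have := h 1 0 (Or.inl one_ne_zero)
    simpa using this
  have h1 := LinearMap.finrank_le_finrank_of_injective hφ
  have h2 : Module.finrank ℂ V = Module.finrank ℂ V' := by omega
  have : Nontrivial V := Module.finrank_pos_iff.1 hpos
  let e : V ≃ₗ[ℂ] V' := LinearMap.linearEquivOfInjective φ hφ h2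
  have he : ∀ v, e v = φ v := fun v => rfl
  let T : Module.End ℂ V := e.symm.toLinearMap ∘ₗ ψ
  obtain ⟨c, hc⟩ := Module.End.exists_eigenvalue T
  obtain ⟨v, hv⟩ := hc.exists_hasEigenvector
  have h3 : T v = c • v := hv.apply_eq_smul
  have h4 : ψ v = c • φ v := by
    have h5 : e (T v) = ψ v := by simp [T]
    rw [← h5, h3, map_smul, he]
  have h6 := h (-c) 1 (Or.inr one_ne_zero)
  apply hv.2
  apply h6
  rw [LinearMap.add_apply, LinearMap.smul_apply, LinearMap.smul_apply, h4, map_zero]
  simp

end Pool.Agent.NOD
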