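import Pool.Agent.NOD.StmF

/-!
# Project NOD, section S0, piece FPLH
-/

set_option autoImplicit false

namespace Pool.Agent.NOD

open MvPolynomial

namespace FPLHx

/-- contraction by `l` -/
noncomputable def ml (l : A) : (A →ₗ[ℂ] ℂ) →ₗ[ℂ] (A →ₗ[ℂ] ℂ) :=
  LinearMap.lcomp ℂ ℂ (LinearMap.mulLeft ℂ l)

theorem ml_apply (l : A) (u : A →ₗ[ℂ] ℂ) (x : A) : ml l u x = u (l * x) := rfl

theorem ml_mem (i : ℕ) (l : A) (Λ : A →ₗ[ℂ] ℂ) (hl : l.IsHomogeneous 1) :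
    ∀ u ∈ W Λ i, ml l u ∈ W Λ (i + 1) := by
  rintro _ ⟨f, hf, rfl⟩
  refine ⟨f * l, (hf : f.IsHomogeneous i).mul hl, ?_⟩
  refine LinearMap.ext fun x => ?_
  show Λ (f * l * x) = Λ (f * (l * x))
  rw [mul_assoc]

end FPLHx

open FPLHx

theorem t_FPLH (hFBAS : S_FBAS) (hFPEN : S_FPEN) : S_FPLH := by
  intro i Λ hpos h2 hl
  obtain ⟨hfin, -, -, -, -, h6, -⟩ := hFBAS
  have hfd : ∀ j, FiniteDimensional ℂ (W Λ j) := fun j => by
    have := hfin j
    unfold W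
    infer_instance
  have := hfd i
  have := hfd (i + 1)
  have := hfd 1
  have h1 : 1 < Module.finrank ℂ (W Λ 1) := h2
  have hnt : Nontrivial (W Λ 1) := Module.nontrivial_of_finrank_pos (R := ℂ) (by omega)
  obtain ⟨x, hx⟩ := exists_ne (0 : W Λ 1)
  obtain ⟨y, hxy⟩ := exists_linearIndependent_pair_of_one_lt_finrank h1 hx
  obtain ⟨x, hxW⟩ := x
  obtain ⟨y, hyW⟩ := y
  obtain ⟨l₁, hl₁, rfl⟩ := hxW
  obtain ⟨l₂, hl₂, rfl⟩ := hyW
  have hl₁' : l₁.IsHomogeneous 1 := hl₁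
  have hl₂' : l₂.IsHomogeneous 1 := hl₂
  let φ : W Λ i →ₗ[ℂ] W Λ (i + 1) := (ml l₁).restrict (ml_mem i l₁ Λ hl₁')
  let ψ : W Λ i →ₗ[ℂ] W Λ (i + 1) := (ml l₂).restrict (ml_mem i l₂ Λ hl₂')
  refine hFPEN (W Λ i) (W Λ (i + 1)) φ ψ hpos fun a b hab => ?_
  set l : A := C a * l₁ + C b * l₂ with hldef
  have hlh : l.IsHomogeneous 1 := (hl₁'.C_mul a).add (hl₂'.C_mul b)
  have hlne : ctr l Λ ≠ 0 := by
    intro h0
    have h3 := LinearIndependent.pair_iff.1 hxy a b (by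
      apply Subtype.ext
      show a • ctrL Λ l₁ + b • ctrL Λ l₂ = 0
      rw [← h0]
      refine LinearMap.ext fun z => ?_
      show a * Λ (l₁ * z) + b * Λ (l₂ * z) = Λ (l * z)
      rw [hldef, add_mul, map_add, mul_assoc, mul_assoc, C_mul', C_mul', map_smul, map_smul]
      rfl)
    rcases hab with h | h
    · exact h h3.1
    · exact h h3.2
  have h4 := hl l hlh hlne
  have h5 : W (ctr l Λ) i = (W Λ i).map (ml l) := h6 i l Λ
  set χ : W Λ i →ₗ[ℂ] (A →ₗ[ℂ] ℂ) := (ml l).domRestrict (W Λ i) with hχ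
  have h7 : LinearMap.range χ = W (ctr l Λ) i := by
    rw [h5, hχ, LinearMap.range_domRestrict]
  have h8 := LinearMap.finrank_range_add_finrank_ker χ
  rw [h7] at h8
  have h9 : Module.finrank ℂ (W (ctr l Λ) i) = Module.finrank ℂ (W Λ i) := h4
  have h10 : Module.finrank ℂ (LinearMap.ker χ) = 0 := by omega
  have h11 : LinearMap.ker χ = ⊥ := Submodule.finrank_eq_zero.1 h10
  have h12 : Function.Injective χ := LinearMap.ker_eq_bot.1 h11
  intro u v huv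
  apply h12
  have h13 := congrArg Subtype.val huv
  have key : ∀ w : W Λ i, ((a • φ + b • ψ) w : A →ₗ[ℂ] ℂ) = χ w := by
    intro w
    refine LinearMap.ext fun z => ?_
    show a * (w : A →ₗ[ℂ] ℂ) (l₁ * z) + b * (w : A →ₗ[ℂ] ℂ) (l₂ * z) = (w : A →ₗ[ℂ] ℂ) (l * z)
    rw [hldef, add_mul, map_add, mul_assoc, mul_assoc, C_mul', C_mul', map_smul, map_smul]
    rfl
  rw [← key u, ← key v]
  exact h13

end Pool.Agent.NOD
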