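import Pool.Agent.NOD.StmF

/-!
# PROJECT NOD, piece FPT
-/

set_option autoImplicit false

namespace Pool.Agent.NOD

open MvPolynomial

theorem t_FPT : S_FPTD := by
  intro hA hB N n Λ hD hn hN h3 hall
  -- linear forms
  obtain ⟨Lin, hLin⟩ : ∃ Lin : (Fin 5 → ℂ) →ₗ[ℂ] A,
      Lin = Fintype.linearCombination ℂ (fun i => (X i : A)) := ⟨_, rfl⟩
  have hrange : LinearMap.range Lin = homogeneousSubmodule (Fin 5) ℂ 1 := by
    rw [hLin, Fintype.range_linearCombination, homogeneousSubmodule_one_eq_span_X]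
  have hhom : ∀ v, (Lin v).IsHomogeneous 1 := by
    intro v
    have : Lin v ∈ homogeneousSubmodule (Fin 5) ℂ 1 := by
      rw [← hrange]; exact LinearMap.mem_range_self _ _
    exact (mem_homogeneousSubmodule 1 _).1 this
  obtain ⟨Φ, hΦ⟩ : ∃ Φ : (Fin 5 → ℂ) →ₗ[ℂ] (A →ₗ[ℂ] ℂ), Φ = (ctrL Λ) ∘ₗ Lin := ⟨_, rfl⟩
  have hΦr : LinearMap.range Φ = W Λ 1 := by
    rw [hΦ, LinearMap.range_comp, hrange]; rfl
  have hker : Module.finrank ℂ (LinearMap.ker Φ) ≤ 2 := by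
    have h4 := LinearMap.finrank_range_add_finrank_ker Φ
    rw [hΦr, Module.finrank_fin_fun] at h4
    have h5 : Module.finrank ℂ (W Λ 1) = H Λ 1 := rfl
    omega
  have hΦ0 : ∀ v, Φ v = ctr (Lin v) Λ := by intro v; rw [hΦ]; rfl
  -- the first point
  obtain ⟨l1, hl1, hl10⟩ : ∃ l1 : A, l1.IsHomogeneous 1 ∧ ctr l1 Λ ≠ 0 := by
    by_contra hcon
    push Not at hcon
    have h4 : Φ = 0 := by
      refine LinearMap.ext fun v => ?_
      rw [hΦ0, hcon _ (hhom v)]; rfl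
    have h5 : LinearMap.ker Φ = ⊤ := by rw [h4, LinearMap.ker_zero]
    rw [h5, finrank_top, Module.finrank_fin_fun] at hker
    omega
  obtain ⟨h11, h12⟩ := hall l1 hl1 hl10
  obtain ⟨p1, hp1, hlp1, hp1n, hp11⟩ := hA N n l1 Λ hD hn hN hl1 h11 h12
  obtain ⟨i, hi⟩ : ∃ i, p1 i ≠ 0 := by
    by_contra hcon
    push Not at hcon
    exact hp1 (funext hcon)
  have hX : ((X i : A)).IsHomogeneous 1 := isHomogeneous_X ℂ i
  have hX0 : ctr (X i : A) Λ ≠ 0 := by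
    intro h4
    have := hp11 (X i) hX h4
    rw [eval_X] at this
    exact hi this
  obtain ⟨h21, h22⟩ := hall (X i) hX hX0
  obtain ⟨p2, hp2, hlp2, hp2n, hp21⟩ := hA N n (X i) Λ hD hn hN hX h21 h22
  rw [eval_X] at hlp2
  have hprop : ∀ c : ℂ, p2 ≠ c • p1 := by
    intro c hc
    have h4 : p2 i = c * p1 i := by rw [hc]; rfl
    rw [hlp2] at h4
    rcases mul_eq_zero.1 h4.symm with h5 | h5
    · apply hp2
      rw [hc, h5, zero_smul]
    · exact hi h5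
  -- the third form
  obtain ⟨Ψ, hΨ⟩ : ∃ Ψ : (Fin 5 → ℂ) →ₗ[ℂ] (ℂ × ℂ),
      Ψ = ((aeval p1 : A →ₐ[ℂ] ℂ).toLinearMap.prod (aeval p2 : A →ₐ[ℂ] ℂ).toLinearMap) ∘ₗ Lin :=
    ⟨_, rfl⟩
  have hΨker : 3 ≤ Module.finrank ℂ (LinearMap.ker Ψ) := by
    have h4 := LinearMap.finrank_range_add_finrank_ker Ψ
    rw [Module.finrank_fin_fun] at h4
    have h5 : Module.finrank ℂ (LinearMap.range Ψ) ≤ 2 := by
      have h6 := Submodule.finrank_le (LinearMap.range Ψ)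
      rw [Module.finrank_prod, Module.finrank_self] at h6
      exact h6
    omega
  obtain ⟨v, hv1, hv2⟩ : ∃ v, v ∈ LinearMap.ker Ψ ∧ v ∉ LinearMap.ker Φ := by
    by_contra hcon
    push Not at hcon
    have h4 : Module.finrank ℂ (LinearMap.ker Ψ) ≤ Module.finrank ℂ (LinearMap.ker Φ) :=
      Submodule.finrank_mono hcon
    omega
  rw [LinearMap.mem_ker, hΦ0] at hv2
  rw [LinearMap.mem_ker, hΨ] at hv1
  have hv3 : eval p1 (Lin v) = 0 ∧ eval p2 (Lin v) = 0 := by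
    have h4 := Prod.ext_iff.1 hv1
    simp only [LinearMap.comp_apply, LinearMap.prod_apply, Prod.fst_zero,
      Prod.snd_zero] at h4
    exact h4
  obtain ⟨h31, h32⟩ := hall (Lin v) (hhom v) hv2
  have h4 := hB n (Lin v) Λ p1 p2 hn (hhom v) hp1 hp2 hprop hv3.1 hv3.2
    (fun f hf hfΛ => ⟨hp1n f hf hfΛ, hp2n f hf hfΛ⟩)
  omega

end Pool.Agent.NOD
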