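import Pool.Agent.NOD.StmF

/-!
# PROJECT NOD, piece FPTA
-/

set_option autoImplicit false

namespace Pool.Agent.NOD

open MvPolynomial

theorem t_FPTA (hQ : S_FQ) (hS : S_SYM) (hE : S_FEV) : S_FPTA := by
  intro N n l Λ hD hn hN hl h1 h2
  obtain ⟨ν, hν0, hνD, hlν, hνk, hνH⟩ := hQ (n + 1) l Λ (by omega) hl (by
    show H (ctr l Λ) (n + 1 - 1) < H Λ (n + 1)
    rw [Nat.add_sub_cancel]; omega)
  have h3 := hνH n hn (by omega)
  have h4 : H ν n = H ν 1 := by
    have := hS (n + 1) ν hνD 1 (by omega)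
    rw [Nat.add_sub_cancel] at this
    exact this.symm
  obtain ⟨p, c, hp, hc, hpc⟩ := hE (n + 1) ν (by omega) hνD hν0 (by omega)
  obtain ⟨i, hi⟩ : ∃ i, p i ≠ 0 := by
    by_contra hcon
    push Not at hcon
    exact hp (funext hcon)
  have hXn : ((X i : A) ^ n).IsHomogeneous n := isHomogeneous_X_pow i n
  have hev : ∀ (k : ℕ) (f : A), ctr f ν = 0 → ∀ g : A, (f * g).IsHomogeneous (n + 1) →
      eval p g ≠ 0 → eval p f = 0 := by
    intro k f hf g hfg hg
    have h5 := hpc (f * g) hfg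
    have h6 : ν (f * g) = ctr f ν g := rfl
    rw [h6, hf, LinearMap.zero_apply, map_mul] at h5
    rcases mul_eq_zero.1 h5.symm with h7 | h7
    · exact absurd h7 hc
    · rcases mul_eq_zero.1 h7 with h8 | h8
      · exact h8
      · exact absurd h8 hg
  have hpn : eval p ((X i : A) ^ n) ≠ 0 := by
    rw [map_pow, eval_X]; exact pow_ne_zero _ hi
  have hp1 : eval p (X i : A) ≠ 0 := by rw [eval_X]; exact hi
  refine ⟨p, hp, ?_, ?_, ?_⟩
  · exact hev 1 l hlν ((X i : A) ^ n) (by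
      have := hl.mul hXn; rwa [add_comm] at this) hpn
  · intro f hf hfΛ
    exact hev n f (hνk n f hf hfΛ) (X i) (hf.mul (isHomogeneous_X ℂ i)) hp1
  · intro f hf hfΛ
    exact hev 1 f (hνk 1 f hf hfΛ) ((X i : A) ^ n) (by
      have := hf.mul hXn; rwa [add_comm] at this) hpn

end Pool.Agent.NOD
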