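import Pool.Agent.NOD.StmF

/-!
# Project NOD, section S0, piece FPTB
-/

set_option autoImplicit false

namespace Pool.Agent.NOD

open MvPolynomial

namespace FPTBx

theorem exists_minor {p p' : Fin 5 → ℂ} (hp : p ≠ 0) (h : ∀ c : ℂ, p' ≠ c • p) :
    ∃ i j, p i * p' j - p j * p' i ≠ 0 := by
  by_contra hcon
  push Not at hcon
  obtain ⟨i, hi⟩ : ∃ i, p i ≠ 0 := by
    by_contra h'
    push Not at h'
    exact hp (funext h')
  refine h (p' i / p i) (funext fun j => ?_)
  have := hcon i j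
  rw [Pi.smul_apply, smul_eq_mul, div_mul_eq_mul_div, eq_div_iff hi]
  linear_combination this

/-- a linear form with prescribed values at two points -/
theorem exists_form {p p' : Fin 5 → ℂ} (hp : p ≠ 0) (h : ∀ c : ℂ, p' ≠ c • p) :
    ∃ a b : A, a.IsHomogeneous 1 ∧ b.IsHomogeneous 1 ∧ eval p a = 1 ∧ eval p' a = 0 ∧
      eval p b = 0 ∧ eval p' b = 1 := by
  obtain ⟨i, j, hij⟩ := exists_minor hp h
  have hX : ∀ (c : ℂ) (k : Fin 5), (C c * X k : A).IsHomogeneous 1 := fun c k =>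
    isHomogeneous_C_mul_X c k
  refine ⟨C (1 / (p i * p' j - p j * p' i)) * (C (p' j) * X i - C (p' i) * X j),
    C (1 / (p i * p' j - p j * p' i)) * (C (p i) * X j - C (p j) * X i),
    ((hX _ _).sub (hX _ _)).C_mul _, ((hX _ _).sub (hX _ _)).C_mul _, ?_, ?_, ?_, ?_⟩
  · simp only [eval_mul, eval_sub, eval_C, eval_X]
    rw [one_div, inv_mul_eq_div, div_eq_one_iff_eq hij]
    ring
  · simp only [eval_mul, eval_sub, eval_C, eval_X]
    ring
  · simp only [eval_mul, eval_sub, eval_C, eval_X]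
    ring
  · simp only [eval_mul, eval_sub, eval_C, eval_X]
    rw [one_div, inv_mul_eq_div, div_eq_one_iff_eq hij]

end FPTBx

open FPTBx

theorem t_FPTB : S_FPTB := by
  intro n l Λ p p' hn hl hp hp' hpp hlp hlp' hvan
  set V : Submodule ℂ A := homogeneousSubmodule (Fin 5) ℂ n with hV
  have hVfd : FiniteDimensional ℂ V := Module.Finite.iff_fg.2 (homogeneousSubmodule_fg (Fin 5) ℂ n)
  set φ : V →ₗ[ℂ] (A →ₗ[ℂ] ℂ) := (ctrL Λ).domRestrict V with hφ
  have hrange : LinearMap.range φ = W Λ n := by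
    rw [hφ, LinearMap.range_domRestrict]
    rfl
  let ev : (Fin 5 → ℂ) → A →ₗ[ℂ] ℂ := fun q => (aeval (R := ℂ) q).toLinearMap
  have hev : ∀ (q : Fin 5 → ℂ) (f : A), ev q f = eval q f := by
    intro q f
    show aeval q f = _
    rw [aeval_eq_eval]
  let E : V →ₗ[ℂ] (ℂ × ℂ) := ((ev p).prod (ev p')).comp V.subtype
  have hE : ∀ f : V, E f = (eval p (f : A), eval p' (f : A)) := by
    intro f
    show (ev p f, ev p' f) = _
    rw [hev, hev]
  have hker : LinearMap.ker φ ≤ LinearMap.ker E := by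
    intro f hf
    rw [LinearMap.mem_ker] at hf ⊢
    have h1 := hvan f f.2 hf
    rw [hE, h1.1, h1.2]
    rfl
  have hEsurj : LinearMap.range E = ⊤ := by
    rw [LinearMap.range_eq_top]
    rintro ⟨s, t⟩
    obtain ⟨a, b, ha, hb, h1, h2, h3, h4⟩ := exists_form hp hpp
    have han : (a ^ n).IsHomogeneous n := by simpa using ha.pow n
    have hbn : (b ^ n).IsHomogeneous n := by simpa using hb.pow n
    refine ⟨⟨C s * a ^ n + C t * b ^ n, (han.C_mul s).add (hbn.C_mul t)⟩, ?_⟩
    rw [hE]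
    have h0 : (0 : ℂ) ^ n = 0 := zero_pow (by omega)
    simp [h1, h2, h3, h4, h0]
  -- the induced map on the range
  let g : LinearMap.range φ →ₗ[ℂ] (ℂ × ℂ) :=
    ((LinearMap.ker φ).liftQ E hker).comp φ.quotKerEquivRange.symm.toLinearMap
  have hg : ∀ f : V, g ⟨φ f, f, rfl⟩ = E f := by
    intro f
    show (LinearMap.ker φ).liftQ E hker (φ.quotKerEquivRange.symm ⟨φ f, f, rfl⟩) = E f
    have h1 : φ.quotKerEquivRange.symm ⟨φ f, f, rfl⟩ = (LinearMap.ker φ).mkQ f :=
      LinearMap.quotKerEquivRange_symm_apply_image φ f ⟨f, rfl⟩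
    rw [h1]
    exact Submodule.liftQ_apply _ _ _
  have hgsurj : LinearMap.range g = ⊤ := by
    rw [LinearMap.range_eq_top]
    intro y
    obtain ⟨f, hf⟩ := LinearMap.range_eq_top.1 hEsurj y
    exact ⟨⟨φ f, f, rfl⟩, (hg f).trans hf⟩
  have hsub : W (ctr l Λ) (n - 1) ≤ (LinearMap.ker g).map (LinearMap.range φ).subtype := by
    rintro _ ⟨f, hf, rfl⟩
    have hlf : (l * f).IsHomogeneous n := by
      have h1 := hl.mul (hf : f.IsHomogeneous (n - 1))
      rwa [show 1 + (n - 1) = n by omega] at h1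
    have h2 : ctrL (ctr l Λ) f = φ ⟨l * f, hlf⟩ := by
      refine LinearMap.ext fun x => ?_
      show Λ (l * (f * x)) = Λ (l * f * x)
      rw [mul_assoc]
    rw [h2]
    refine ⟨⟨φ ⟨l * f, hlf⟩, _, rfl⟩, ?_, rfl⟩
    show g _ = 0
    rw [hg, hE]
    simp only [eval_mul, hlp, hlp', zero_mul]
    rfl
  have hfd : FiniteDimensional ℂ (LinearMap.range φ) := inferInstance
  have e1 := LinearMap.finrank_range_add_finrank_ker g
  rw [hgsurj, finrank_top, Module.finrank_prod, Module.finrank_self] at e1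
  have hfd2 : FiniteDimensional ℂ ((LinearMap.ker g).map (LinearMap.range φ).subtype) :=
    inferInstance
  have e2 := Submodule.finrank_mono hsub
  rw [← (Submodule.equivMapOfInjective (LinearMap.range φ).subtype
    (Submodule.injective_subtype _) (LinearMap.ker g)).finrank_eq] at e2
  show Module.finrank ℂ (W (ctr l Λ) (n - 1)) + 2 ≤ Module.finrank ℂ (W Λ n)
  rw [← hrange]
  omega

end Pool.Agent.NOD
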