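import Pool.Agent.NOD.StmF

set_option autoImplicit false

namespace Pool.Agent.NOD

open MvPolynomial

namespace Fq

theorem hc_mul (F p : A) (a m : ℕ) (hF : F.IsHomogeneous m) :
    homogeneousComponent (m + a) (F * p) = F * homogeneousComponent a p := by
  conv_lhs => rw [← sum_homogeneousComponent p]
  rw [Finset.mul_sum, map_sum]
  have h : ∀ i, homogeneousComponent (m + a) (F * homogeneousComponent i p) =
      if a = i then F * homogeneousComponent i p else 0 := by
    intro i
    have h1 : (F * homogeneousComponent i p).IsHomogeneous (m + i) :=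
      hF.mul (homogeneousComponent_isHomogeneous i p)
    rw [homogeneousComponent_of_mem h1]
    by_cases hi : a = i
    · simp [hi]
    · rw [if_neg hi, if_neg (by omega)]
  simp only [h]
  rw [Finset.sum_ite_eq]
  split_ifs with ha
  · rfl
  · rw [homogeneousComponent_eq_zero, mul_zero]
    rw [Finset.mem_range] at ha
    omega

theorem hc_mul_lt (F p : A) (j m : ℕ) (hF : F.IsHomogeneous m) (hj : j < m) :
    homogeneousComponent j (F * p) = 0 := by
  conv_lhs => rw [← sum_homogeneousComponent p]
  rw [Finset.mul_sum, map_sum]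
  refine Finset.sum_eq_zero fun i _ => ?_
  have h1 : (F * homogeneousComponent i p).IsHomogeneous (m + i) :=
    hF.mul (homogeneousComponent_isHomogeneous i p)
  rw [homogeneousComponent_of_mem h1, if_neg (by omega)]

instance fin (n : ℕ) : Module.Finite ℂ (homogeneousSubmodule (Fin 5) ℂ n) :=
  Module.Finite.iff_fg.2 (homogeneousSubmodule_fg (Fin 5) ℂ n)

theorem W_fin (Λ : A →ₗ[ℂ] ℂ) (i : ℕ) : Module.Finite ℂ (W Λ i) :=
  Module.Finite.iff_fg.2 (Submodule.FG.map _ (homogeneousSubmodule_fg (Fin 5) ℂ i))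

theorem W_ctr_le (l : A) (hl : l.IsHomogeneous 1) (Λ : A →ₗ[ℂ] ℂ) (j : ℕ) (hj : 1 ≤ j) :
    W (ctr l Λ) (j - 1) ≤ W Λ j := by
  rintro _ ⟨g, hg, rfl⟩
  refine ⟨l * g, ?_, ?_⟩
  · have := hl.mul ((mem_homogeneousSubmodule _ _).1 hg)
    rw [show 1 + (j - 1) = j by omega] at this
    exact this
  · refine LinearMap.ext fun h => ?_
    change Λ (l * g * h) = Λ (l * (g * h))
    rw [mul_assoc]

/-- dimension count -/
theorem dim {V V₁ V₂ : Type*} [AddCommGroup V] [Module ℂ V] [AddCommGroup V₁] [Module ℂ V₁]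
    [AddCommGroup V₂] [Module ℂ V₂] [FiniteDimensional ℂ V] (a : V →ₗ[ℂ] V₁) (b : V →ₗ[ℂ] V₂)
    (W' : Submodule ℂ V₁) (hW : W' ≤ LinearMap.range a)
    (h : ∀ v, a v ∈ W' → b v = 0) :
    Module.finrank ℂ (LinearMap.range b) + Module.finrank ℂ W' ≤
      Module.finrank ℂ (LinearMap.range a) := by
  let U : Submodule ℂ V := W'.comap a
  have hU : U ≤ LinearMap.ker b := fun v hv => h v hv
  have hk : LinearMap.ker a ≤ U := by
    intro v hv
    change a v ∈ W'
    rw [LinearMap.mem_ker.1 hv]
    exact W'.zero_mem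
  have h1 := LinearMap.finrank_range_add_finrank_ker a
  have h2 := LinearMap.finrank_range_add_finrank_ker b
  have h3 := LinearMap.finrank_range_add_finrank_ker (a.domRestrict U)
  have h4 : LinearMap.range (a.domRestrict U) = W' := by
    rw [LinearMap.range_domRestrict]
    exact Submodule.map_comap_eq_of_le hW
  have h5 : Module.finrank ℂ (LinearMap.ker (a.domRestrict U)) =
      Module.finrank ℂ (LinearMap.ker a) := by
    rw [LinearMap.ker_domRestrict]
    exact LinearEquiv.finrank_eq (Submodule.comapSubtypeEquivOfLe hk)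
  rw [h4, h5] at h3
  have h6 := Submodule.finrank_mono hU
  omega

end Fq

/-- functionals on a quotient by a linear form -/
theorem t_FQ : S_FQ := by
  intro j l Λ hj hl hH
  have hle := Fq.W_ctr_le l hl Λ j hj
  have hlt : ¬ W Λ j ≤ W (ctr l Λ) (j - 1) := by
    intro hcon
    have h1 : W Λ j = W (ctr l Λ) (j - 1) := le_antisymm hcon hle
    unfold H at hH
    rw [h1] at hH
    omega
  obtain ⟨φ, hφ, hφ'⟩ := Set.not_subset.1 hlt
  obtain ⟨f₀, hf₀, rfl⟩ := hφ
  obtain ⟨ξ, hξ, hξ'⟩ := Submodule.exists_le_ker_of_notMem hφ'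
  have hW0 : ∀ g : A, g.IsHomogeneous (j - 1) → ξ (ctr (l * g) Λ) = 0 := by
    intro g hg
    apply LinearMap.mem_ker.1
    apply hξ'
    refine ⟨g, (mem_homogeneousSubmodule _ _).2 hg, ?_⟩
    refine LinearMap.ext fun h => ?_
    change Λ (l * (g * h)) = Λ (l * g * h)
    rw [mul_assoc]
  let ν : A →ₗ[ℂ] ℂ := ξ ∘ₗ ctrL Λ ∘ₗ (homogeneousComponent j)
  have hν : ∀ g, ν g = ξ (ctr (homogeneousComponent j g) Λ) := fun g => rfl
  have hlν : ctr l ν = 0 := by
    refine LinearMap.ext fun g => ?_
    change ν (l * g) = 0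
    rw [hν]
    have h1 := Fq.hc_mul l g (j - 1) 1 hl
    rw [show 1 + (j - 1) = j by omega] at h1
    rw [h1]
    exact hW0 _ (homogeneousComponent_isHomogeneous _ _)
  have hkill : ∀ (k : ℕ) (f : A), f.IsHomogeneous k → ctr f Λ = 0 → ctr f ν = 0 := by
    intro k f hf hfΛ
    refine LinearMap.ext fun g => ?_
    change ν (f * g) = 0
    rw [hν]
    rcases le_or_gt k j with hk | hk
    · have h1 := Fq.hc_mul f g (j - k) k hf
      rw [show k + (j - k) = j by omega] at h1
      rw [h1]
      have h2 : ctr (f * homogeneousComponent (j - k) g) Λ = 0 := by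
        refine LinearMap.ext fun h => ?_
        change Λ (f * homogeneousComponent (j - k) g * h) = 0
        rw [mul_assoc]
        exact LinearMap.congr_fun hfΛ _
      rw [h2, map_zero]
    · rw [Fq.hc_mul_lt f g j k hf hk]
      have : ctr (0 : A) Λ = 0 := (ctrL Λ).map_zero
      rw [this, map_zero]
  refine ⟨ν, ?_, ?_, hlν, hkill, ?_⟩
  · intro h0
    apply hξ
    have h1 : ν f₀ = 0 := by rw [h0]; rfl
    rw [hν, homogeneousComponent_eq_self ((mem_homogeneousSubmodule _ _).1 hf₀)] at h1
    exact h1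
  · intro g
    rw [hν, hν, homogeneousComponent_eq_self (homogeneousComponent_isHomogeneous j g)]
  · intro i hi hij
    have hWr : ∀ (Λ' : A →ₗ[ℂ] ℂ), W Λ' i =
        LinearMap.range ((ctrL Λ').domRestrict (homogeneousSubmodule (Fin 5) ℂ i)) := by
      intro Λ'
      rw [LinearMap.range_domRestrict]
      rfl
    have key := Fq.dim ((ctrL Λ).domRestrict (homogeneousSubmodule (Fin 5) ℂ i))
      ((ctrL ν).domRestrict (homogeneousSubmodule (Fin 5) ℂ i)) (W (ctr l Λ) (i - 1))
      (by rw [← hWr]; exact Fq.W_ctr_le l hl Λ i hi) (by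
        rintro ⟨f, hf⟩ ⟨g, hg, hgf⟩
        change ctr f ν = 0
        have hf' : f.IsHomogeneous i := (mem_homogeneousSubmodule _ _).1 hf
        have hg' : g.IsHomogeneous (i - 1) := (mem_homogeneousSubmodule _ _).1 hg
        have hlg : (l * g).IsHomogeneous i := by
          have := hl.mul hg'
          rwa [show 1 + (i - 1) = i by omega] at this
        have h1 : ctr (f - l * g) Λ = 0 := by
          refine LinearMap.ext fun h => ?_
          change Λ ((f - l * g) * h) = 0
          have h2 : Λ (l * (g * h)) = Λ (f * h) := LinearMap.congr_fun hgf h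
          rw [sub_mul, map_sub, mul_assoc, h2, sub_self]
        have h3 := hkill i _ (hf'.sub hlg) h1
        refine LinearMap.ext fun h => ?_
        change ν (f * h) = 0
        have h4 : ν ((f - l * g) * h) = 0 := LinearMap.congr_fun h3 h
        have h5 : ν (l * (g * h)) = 0 := LinearMap.congr_fun hlν (g * h)
        rw [sub_mul, map_sub, mul_assoc, h5, sub_zero] at h4
        exact h4)
    unfold H
    rw [hWr Λ, hWr ν]
    exact key

end Pool.Agent.NOD
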