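import Pool.Agent.NOD.StmF

/-!
# PROJECT NOD, piece FRS
-/

set_option autoImplicit false

namespace Pool.Agent.NOD

open MvPolynomial

theorem FRS.bpf_ctr {m : ℕ} {Λ : A →ₗ[ℂ] ℂ} (hB : S_FBAS) (h : Bpf m Λ) (l : A) :
    Bpf m (ctr l Λ) := by
  intro v hv
  obtain ⟨f, hf1, hf2, hf3⟩ := h v hv
  refine ⟨f, hf1, ?_, hf3⟩
  rw [← hB.2.1, mul_comm, hB.2.1, hf2]
  refine LinearMap.ext fun g => ?_
  simp [ctr]

theorem FRS.bpf_nu {m : ℕ} {Λ ν : A →ₗ[ℂ] ℂ} (h : Bpf m Λ)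
    (hν : ∀ (k : ℕ) (f : A), f.IsHomogeneous k → ctr f Λ = 0 → ctr f ν = 0) : Bpf m ν := by
  intro v hv
  obtain ⟨f, hf1, hf2, hf3⟩ := h v hv
  exact ⟨f, hf1, hν m f hf1 hf2, hf3⟩

theorem t_FRS : S_FRSD := by
  intro hB hM hS hEB hP hQ hL m j Λ hm hj hD h0 hbpf h1
  have hdeg : ∀ l : A, l.IsHomogeneous 1 → Deg (m + (j - 1)) (ctr l Λ) := by
    intro l hl
    have := hB.2.2.2.1 (m + j) 1 l Λ hD hl (by omega)
    have e : m + (j - 1) = m + j - 1 := by omega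
    rw [e]; exact this
  have hm1 : H Λ (m + j - 1) = 3 := by
    rw [← h1, hS (m + j) Λ hD 1 (by omega)]
  by_cases hcase : ∃ l : A, l.IsHomogeneous 1 ∧ ctr l Λ ≠ 0 ∧ H (ctr l Λ) 1 ≠ 3
  · obtain ⟨l, hl, hl0, hl3⟩ := hcase
    have hr3 : H (ctr l Λ) 1 ≤ 3 := by
      have := (hM.1 1 l Λ hl).1; omega
    have hr2 := hL m (j - 1) (ctr l Λ) (by omega) (hdeg l hl) hl0 (FRS.bpf_ctr hB hbpf l) 1
      (by omega)
    have hr : H (ctr l Λ) 1 = 2 := by omega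
    have hrn : H (ctr l Λ) (m + j - 1 - 1) = 2 := by
      have h2 := hS (m + (j - 1)) (ctr l Λ) (hdeg l hl) 1 (by omega)
      have e : m + (j - 1) - 1 = m + j - 1 - 1 := by omega
      rw [e, hr] at h2
      omega
    obtain ⟨ν, hν0, hνD, _, hνk, hνH⟩ := hQ (m + j - 1) l Λ (by omega) hl (by omega)
    have h3 := hνH 2 (by omega) (by omega)
    have hνD' : Deg (m + (j - 1)) ν := by
      have e : m + (j - 1) = m + j - 1 := by omega
      rw [e]; exact hνD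
    have h4 := hL m (j - 1) ν (by omega) hνD' hν0 (FRS.bpf_nu hbpf hνk) 2 (by omega)
    have e2 : (2 : ℕ) - 1 = 1 := rfl
    rw [e2] at h3
    omega
  · push Not at hcase
    have : H Λ 1 < H Λ 2 :=
      hP 1 Λ (by omega) (by omega) (fun l hl hl0 => by rw [hcase l hl hl0, h1])
    omega

end Pool.Agent.NOD
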