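import Pool.Agent.NOD.StmF

/-!
# PROJECT NOD, piece FRT
-/

set_option autoImplicit false

namespace Pool.Agent.NOD

open MvPolynomial

theorem FRT.bpf_ctr {m : ℕ} {Λ : A →ₗ[ℂ] ℂ} (hB : S_FBAS) (h : Bpf m Λ) (l : A) :
    Bpf m (ctr l Λ) := by
  intro v hv
  obtain ⟨f, hf1, hf2, hf3⟩ := h v hv
  refine ⟨f, hf1, ?_, hf3⟩
  rw [← hB.2.1, mul_comm, hB.2.1, hf2]
  refine LinearMap.ext fun g => ?_
  simp [ctr]

theorem FRT.bpf_nu {m : ℕ} {Λ ν : A →ₗ[ℂ] ℂ} (h : Bpf m Λ)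
    (hν : ∀ (k : ℕ) (f : A), f.IsHomogeneous k → ctr f Λ = 0 → ctr f ν = 0) : Bpf m ν := by
  intro v hv
  obtain ⟨f, hf1, hf2, hf3⟩ := h v hv
  exact ⟨f, hf1, hν m f hf1 hf2, hf3⟩

theorem t_FRT : S_FRTD := by
  intro hB hM hS hEB hP hQ hL hRS Λ hD h0 hbpf h1 h2
  have hdeg : ∀ l : A, l.IsHomogeneous 1 → Deg 6 (ctr l Λ) := by
    intro l hl
    exact hB.2.2.2.1 7 1 l Λ hD hl (by omega)
  have s6 : H Λ 6 = 3 := by
    have : H Λ 1 = H Λ 6 := hS 7 Λ hD 1 (by omega)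
    omega
  have s5 : H Λ 5 = 5 := by
    have : H Λ 2 = H Λ 5 := hS 7 Λ hD 2 (by omega)
    omega
  by_cases hcase : ∃ l : A, l.IsHomogeneous 1 ∧ ctr l Λ ≠ 0 ∧ H (ctr l Λ) 1 ≠ 3
  · obtain ⟨l, hl, hl0, hl3⟩ := hcase
    have hr3 : H (ctr l Λ) 1 ≤ 3 := by
      have := (hM.1 1 l Λ hl).1; omega
    have hLl := hL 5 1 (ctr l Λ) (by omega) (hdeg l hl) hl0 (FRT.bpf_ctr hB hbpf l)
    have hr2 := hLl 1 (by omega)
    have hs3 := hLl 2 (by omega)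
    have hr : H (ctr l Λ) 5 = H (ctr l Λ) 1 := (hS 6 (ctr l Λ) (hdeg l hl) 1 (by omega)).symm
    obtain ⟨ν, hν0, hνD, _, hνk, hνH⟩ := hQ 6 l Λ (by omega) hl (by
      show H (ctr l Λ) 5 < H Λ 6
      omega)
    have h3 : H ν 3 + H (ctr l Λ) 2 ≤ H Λ 3 := hνH 3 (by omega) (by omega)
    have h4 := hL 5 1 ν (by omega) hνD hν0 (FRT.bpf_nu hbpf hνk) 3 (by omega)
    omega
  · push Not at hcase
    by_cases hcase2 : ∃ l : A, l.IsHomogeneous 1 ∧ ctr l Λ ≠ 0 ∧ H (ctr l Λ) 2 ≠ 5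
    · obtain ⟨l, hl, hl0, hl5⟩ := hcase2
      have hs5 : H (ctr l Λ) 2 ≤ 5 := by
        have := (hM.1 2 l Λ hl).1; omega
      have hs4 := hRS 5 1 (ctr l Λ) (by omega) (by omega) (hdeg l hl) hl0
        (FRT.bpf_ctr hB hbpf l) (hcase l hl hl0)
      have hs : H (ctr l Λ) 4 = H (ctr l Λ) 2 := (hS 6 (ctr l Λ) (hdeg l hl) 2 (by omega)).symm
      obtain ⟨ν, hν0, hνD, _, hνk, hνH⟩ := hQ 5 l Λ (by omega) hl (by
        show H (ctr l Λ) 4 < H Λ 5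
        omega)
      have h3 : H ν 3 + H (ctr l Λ) 2 ≤ H Λ 3 := hνH 3 (by omega) (by omega)
      have h4 := hL 5 0 ν (by omega) hνD hν0 (FRT.bpf_nu hbpf hνk) 3 (by omega)
      omega
    · push Not at hcase2
      have : H Λ 2 < H Λ 3 :=
        hP 2 Λ (by omega) (by omega) (fun l hl hl0 => by rw [hcase2 l hl hl0, h2])
      omega

end Pool.Agent.NOD
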