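import Pool.Agent.NOD.Defs

/-!
# Project NOD: basic algebra of `Loc`, `FLoc`, `HomK`, `PReg` (helper85)
-/

set_option autoImplicit false

namespace Pool.Agent.NOD

open MvPolynomial


theorem io_inj : Function.Injective (algebraMap A K) := IsFractionRing.injective A K

theorem io_ne {s : A} (hs : s ≠ 0) : algebraMap A K s ≠ 0 := fun h =>
  hs (io_inj (by rw [h, map_zero]))

theorem io_ne_iff {s : A} : algebraMap A K s ≠ 0 ↔ s ≠ 0 :=
  ⟨fun h h0 => h (by rw [h0, map_zero]), io_ne⟩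

/-! ### Homogeneous components of products -/

attribute [local instance] MvPolynomial.gradedAlgebra in
theorem hc_mul_right {p q : A} {m : ℕ} (hq : q.IsHomogeneous m) (n : ℕ) :
    homogeneousComponent (n + m) (p * q) = homogeneousComponent n p * q := by
  have h := DirectSum.coe_decompose_mul_add_of_right_mem (homogeneousSubmodule (Fin 5) ℂ)
    (a := p) (b := q) (i := n) (j := m) ((mem_homogeneousSubmodule m q).2 hq)
  have h1 : ((DirectSum.decompose (homogeneousSubmodule (Fin 5) ℂ) (p * q)) (n + m) : A) =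
    homogeneousComponent (n + m) (p * q) := decomposition.decompose'_apply _ _
  have h2 : ((DirectSum.decompose (homogeneousSubmodule (Fin 5) ℂ) p) n : A) =
    homogeneousComponent n p := decomposition.decompose'_apply _ _
  rw [← h1, h, h2]

theorem hc_mul_left {p q : A} {m : ℕ} (hq : q.IsHomogeneous m) (n : ℕ) :
    homogeneousComponent (n + m) (q * p) = q * homogeneousComponent n p := by
  rw [mul_comm q p, hc_mul_right hq, mul_comm]

attribute [local instance] MvPolynomial.gradedAlgebra in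
theorem hc_mul_lt {p q : A} {m : ℕ} (hq : q.IsHomogeneous m) {n : ℕ} (h : n < m) :
    homogeneousComponent n (p * q) = 0 := by
  have h := DirectSum.coe_decompose_mul_of_right_mem_of_not_le (homogeneousSubmodule (Fin 5) ℂ)
    (a := p) (b := q) (i := m) (n := n) ((mem_homogeneousSubmodule m q).2 hq) (by omega)
  have h1 : ((DirectSum.decompose (homogeneousSubmodule (Fin 5) ℂ) (p * q)) n : A) =
    homogeneousComponent n (p * q) := decomposition.decompose'_apply _ _
  rw [← h1, h]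

/-- A factor of a homogeneous polynomial. -/
theorem hom_of_mul {p q : A} {m n : ℕ} (hq : q.IsHomogeneous m) (hq0 : q ≠ 0)
    (h : (p * q).IsHomogeneous n) (hp0 : p ≠ 0) : ∃ i, p.IsHomogeneous i ∧ n = i + m := by
  have hpq : p * q ≠ 0 := mul_ne_zero hp0 hq0
  have hmn : m ≤ n := by
    by_contra hlt
    push Not at hlt
    have h1 := hc_mul_lt (p := p) hq hlt
    rw [homogeneousComponent_eq_self h] at h1
    exact hpq h1
  obtain ⟨i, rfl⟩ := Nat.exists_eq_add_of_le hmn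
  refine ⟨i, ?_, by omega⟩
  have h1 := hc_mul_right (p := p) hq i
  rw [show i + m = m + i by omega, homogeneousComponent_eq_self h] at h1
  have h2 := mul_right_cancel₀ hq0 h1
  rw [h2]
  exact homogeneousComponent_isHomogeneous i p

/-! ### `Loc` -/

theorem loc_io (s p : A) : (algebraMap A K) p ∈ Loc s := ⟨0, p, by rw [pow_zero, one_mul]⟩

theorem loc_zero (s : A) : (0 : K) ∈ Loc s := ⟨0, 0, by simp⟩

theorem loc_one (s : A) : (1 : K) ∈ Loc s := ⟨0, 1, by simp⟩

/-- All large powers are denominators. -/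
theorem loc_up {s : A} {x : K} (hx : x ∈ Loc s) :
    ∃ N : ℕ, ∀ n ≥ N, ∃ p : A, (algebraMap A K) s ^ n * x = (algebraMap A K) p := by
  obtain ⟨N, p, hp⟩ := hx
  refine ⟨N, fun n hn => ⟨s ^ (n - N) * p, ?_⟩⟩
  rw [map_mul, map_pow, ← hp, ← mul_assoc, ← pow_add, Nat.sub_add_cancel hn]

theorem loc_neg {s : A} {x : K} (hx : x ∈ Loc s) : -x ∈ Loc s := by
  obtain ⟨N, p, hp⟩ := hx
  exact ⟨N, -p, by rw [mul_neg, hp, map_neg]⟩

theorem loc_add {s : A} {x y : K} (hx : x ∈ Loc s) (hy : y ∈ Loc s) : x + y ∈ Loc s := by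
  obtain ⟨N, h1⟩ := loc_up hx
  obtain ⟨M, h2⟩ := loc_up hy
  obtain ⟨p, hp⟩ := h1 (N + M) (by omega)
  obtain ⟨q, hq⟩ := h2 (N + M) (by omega)
  exact ⟨N + M, p + q, by rw [mul_add, hp, hq, map_add]⟩

theorem loc_sub {s : A} {x y : K} (hx : x ∈ Loc s) (hy : y ∈ Loc s) : x - y ∈ Loc s := by
  rw [sub_eq_add_neg]; exact loc_add hx (loc_neg hy)

theorem loc_mul {s : A} {x y : K} (hx : x ∈ Loc s) (hy : y ∈ Loc s) : x * y ∈ Loc s := by
  obtain ⟨N, p, hp⟩ := hx
  obtain ⟨M, q, hq⟩ := hy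
  refine ⟨N + M, p * q, ?_⟩
  rw [map_mul, ← hp, ← hq]; ring

/-- `Loc s` as a subring. -/
noncomputable def LR (s : A) : Subring K where
  carrier := Loc s
  mul_mem' := loc_mul
  one_mem' := loc_one s
  add_mem' := loc_add
  zero_mem' := loc_zero s
  neg_mem' := loc_neg

theorem mem_LR {s : A} {x : K} : x ∈ LR s ↔ x ∈ Loc s := Iff.rfl

theorem loc_pow {s : A} {x : K} (hx : x ∈ Loc s) (n : ℕ) : x ^ n ∈ Loc s :=
  (LR s).pow_mem hx n

theorem loc_mono {s t : A} (h : s ∣ t) {x : K} (hx : x ∈ Loc s) : x ∈ Loc t := by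
  obtain ⟨r, rfl⟩ := h
  obtain ⟨N, p, hp⟩ := hx
  refine ⟨N, r ^ N * p, ?_⟩
  rw [map_mul, map_mul, mul_pow, map_pow, ← hp]; ring

theorem loc_mul_mul {s t : A} {x y : K} (hx : x ∈ Loc s) (hy : y ∈ Loc t) : x * y ∈ Loc (s * t) :=
  loc_mul (loc_mono (dvd_mul_right s t) hx) (loc_mono (dvd_mul_left t s) hy)

theorem loc_div {s : A} (hs : s ≠ 0) (p : A) (n : ℕ) : (algebraMap A K) p / (algebraMap A K) s ^ n ∈ Loc s :=
  ⟨n, p, mul_div_cancel₀ _ (pow_ne_zero n (io_ne hs))⟩

/-- Smuggle the denominator of a factor: `p / s ^ n` is in `Loc t` for `s ∣ t`. -/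
theorem loc_div' {s t : A} (hs : s ≠ 0) (h : s ∣ t) (p : A) (n : ℕ) : (algebraMap A K) p / (algebraMap A K) s ^ n ∈ Loc t :=
  loc_mono h (loc_div hs p n)

theorem loc_eq_div {s : A} (hs : s ≠ 0) {x : K} {n : ℕ} {p : A} (h : (algebraMap A K) s ^ n * x = (algebraMap A K) p) :
    x = (algebraMap A K) p / (algebraMap A K) s ^ n := by
  rw [← h, mul_div_cancel_left₀ _ (pow_ne_zero n (io_ne hs))]

/-! ### `FLoc` -/

theorem floc_mk {f s : A} {y : K} (hy : y ∈ Loc s) : (algebraMap A K) f * y ∈ FLoc f s := ⟨y, hy, rfl⟩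

theorem floc_zero (f s : A) : (0 : K) ∈ FLoc f s := ⟨0, loc_zero s, by rw [mul_zero]⟩

theorem floc_neg {f s : A} {x : K} (hx : x ∈ FLoc f s) : -x ∈ FLoc f s := by
  obtain ⟨y, hy, rfl⟩ := hx
  exact ⟨-y, loc_neg hy, by ring⟩

theorem floc_add {f s : A} {x y : K} (hx : x ∈ FLoc f s) (hy : y ∈ FLoc f s) :
    x + y ∈ FLoc f s := by
  obtain ⟨x, h1, rfl⟩ := hx
  obtain ⟨y, h2, rfl⟩ := hy
  exact ⟨x + y, loc_add h1 h2, by ring⟩

theorem floc_sub {f s : A} {x y : K} (hx : x ∈ FLoc f s) (hy : y ∈ FLoc f s) :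
    x - y ∈ FLoc f s := by
  rw [sub_eq_add_neg]; exact floc_add hx (floc_neg hy)

theorem floc_mul_left {f s : A} {x y : K} (hx : x ∈ Loc s) (hy : y ∈ FLoc f s) :
    x * y ∈ FLoc f s := by
  obtain ⟨y, h2, rfl⟩ := hy
  exact ⟨x * y, loc_mul hx h2, by ring⟩

theorem floc_mul_right {f s : A} {x y : K} (hx : x ∈ FLoc f s) (hy : y ∈ Loc s) :
    x * y ∈ FLoc f s := by
  rw [mul_comm]; exact floc_mul_left hy hx

theorem floc_loc {f s : A} {x : K} (hx : x ∈ FLoc f s) : x ∈ Loc s := by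
  obtain ⟨x, h1, rfl⟩ := hx
  exact loc_mul (loc_io s f) h1

theorem floc_mono {f g s t : A} (hf : g ∣ f) (h : s ∣ t) {x : K} (hx : x ∈ FLoc f s) :
    x ∈ FLoc g t := by
  obtain ⟨r, rfl⟩ := hf
  obtain ⟨x, h1, rfl⟩ := hx
  exact ⟨(algebraMap A K) r * x, loc_mul (loc_io t r) (loc_mono h h1), by rw [map_mul, mul_assoc]⟩

theorem floc_pow_le {F s : A} {j k : ℕ} (h : j ≤ k) {x : K} (hx : x ∈ FLoc (F ^ k) s) :
    x ∈ FLoc (F ^ j) s := floc_mono (pow_dvd_pow F h) dvd_rfl hx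

theorem floc_mul_pow {F s : A} {j k n : ℕ} (h : n ≤ j + k) {x y : K} (hx : x ∈ FLoc (F ^ j) s)
    (hy : y ∈ FLoc (F ^ k) s) : x * y ∈ FLoc (F ^ n) s := by
  obtain ⟨x, h1, rfl⟩ := hx
  obtain ⟨y, h2, rfl⟩ := hy
  refine floc_pow_le h ⟨x * y, loc_mul h1 h2, ?_⟩
  rw [pow_add, map_mul]; ring

theorem floc_zero_pow {F s : A} {x : K} : x ∈ FLoc (F ^ 0) s ↔ x ∈ Loc s :=
  ⟨floc_loc, fun h => ⟨x, h, by simp⟩⟩

/-- A polynomial which is in `f Loc s` is divisible by `f` if `s` is a nonzerodivisor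
modulo `f`. -/
theorem floc_io {f s p : A} (hz : NZD (Ideal.span {f}) s) (h : (algebraMap A K) p ∈ FLoc f s) :
    f ∣ p := by
  obtain ⟨y, ⟨n, q, hq⟩, h2⟩ := h
  have h3 : s ^ n * p = f * q := by
    apply io_inj
    rw [map_mul, map_mul, map_pow, ← hq, h2]; ring
  have key : ∀ m : ℕ, ∀ r : A, s ^ m * r ∈ Ideal.span {f} → r ∈ Ideal.span {f} := by
    intro m
    induction m with
    | zero => intro r hr; simpa using hr
    | succ m ih =>
      intro r hr
      rw [pow_succ, mul_assoc] at hr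
      exact hz r (ih _ hr)
  have h4 := key n p (by rw [h3]; exact Ideal.mem_span_singleton.2 (dvd_mul_right f q))
  exact Ideal.mem_span_singleton.1 h4

/-! ### `HomK` -/

theorem homK_of {n m : ℕ} {p q : A} {x : K} {t : ℤ} (hp : p.IsHomogeneous n)
    (hq : q.IsHomogeneous m) (hq0 : q ≠ 0) (h : (n : ℤ) - m = t) (hx : x * (algebraMap A K) q = (algebraMap A K) p) : HomK t x :=
  ⟨n, m, p, q, hp, hq, hq0, h, hx⟩

theorem homK_io {n : ℕ} {p : A} (hp : p.IsHomogeneous n) : HomK (n : ℤ) ((algebraMap A K) p) :=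
  homK_of hp (isHomogeneous_one _ _) one_ne_zero (by simp) (by simp)

theorem homK_one : HomK 0 (1 : K) := by
  have := homK_io (isHomogeneous_one (Fin 5) ℂ)
  simpa using this

theorem homK_zero (t : ℤ) : HomK t (0 : K) := by
  refine homK_of (n := t.toNat) (m := (-t).toNat) (p := 0) (q := X 0 ^ (-t).toNat)
    (isHomogeneous_zero _ _ _) ?_ (pow_ne_zero _ (X_ne_zero 0)) (by omega) (by simp)
  have := (isHomogeneous_X ℂ (0 : Fin 5)).pow (-t).toNat
  simpa using this

theorem homK_neg {t : ℤ} {x : K} (hx : HomK t x) : HomK t (-x) := by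
  obtain ⟨n, m, p, q, hp, hq, hq0, h, hx⟩ := hx
  exact homK_of hp.neg hq hq0 h (by rw [neg_mul, hx, map_neg])

theorem homK_add {t : ℤ} {x y : K} (hx : HomK t x) (hy : HomK t y) : HomK t (x + y) := by
  obtain ⟨n, m, p, q, hp, hq, hq0, h, hx⟩ := hx
  obtain ⟨n', m', p', q', hp', hq', hq0', h', hy⟩ := hy
  have e : n' + m = n + m' := by omega
  refine homK_of (n := n + m') (m := m + m') (p := p * q' + p' * q) (q := q * q')
    ((hp.mul hq').add ?_) (hq.mul hq') (mul_ne_zero hq0 hq0') (by push_cast; omega) ?_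
  · rw [← e]; exact hp'.mul hq
  · rw [map_mul, map_add, map_mul, map_mul, ← hx, ← hy]; ring

theorem homK_sub {t : ℤ} {x y : K} (hx : HomK t x) (hy : HomK t y) : HomK t (x - y) := by
  rw [sub_eq_add_neg]; exact homK_add hx (homK_neg hy)

theorem homK_mul {t t' : ℤ} {x y : K} (hx : HomK t x) (hy : HomK t' y) : HomK (t + t') (x * y) := by
  obtain ⟨n, m, p, q, hp, hq, hq0, h, hx⟩ := hx
  obtain ⟨n', m', p', q', hp', hq', hq0', h', hy⟩ := hy
  refine homK_of (hp.mul hp') (hq.mul hq') (mul_ne_zero hq0 hq0') (by push_cast; omega) ?_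
  rw [map_mul, map_mul, ← hx, ← hy]; ring

theorem homK_inv {t : ℤ} {x : K} (hx : HomK t x) : HomK (-t) x⁻¹ := by
  by_cases hx0 : x = 0
  · rw [hx0, inv_zero]; exact homK_zero _
  obtain ⟨n, m, p, q, hp, hq, hq0, h, hx⟩ := hx
  have hp0 : p ≠ 0 := by
    rintro rfl
    rw [map_zero] at hx
    exact (mul_ne_zero hx0 (io_ne hq0)) hx
  refine homK_of hq hp hp0 (by omega) ?_
  rw [← hx, ← mul_assoc, inv_mul_cancel₀ hx0, one_mul]

theorem homK_div {t t' : ℤ} {x y : K} (hx : HomK t x) (hy : HomK t' y) : HomK (t - t') (x / y) := by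
  rw [div_eq_mul_inv, sub_eq_add_neg]; exact homK_mul hx (homK_inv hy)

theorem homK_pow {t : ℤ} {x : K} (hx : HomK t x) (n : ℕ) : HomK (n * t) (x ^ n) := by
  induction n with
  | zero => simpa using homK_one
  | succ n ih =>
    rw [pow_succ]
    have h := homK_mul ih hx
    rwa [show (n : ℤ) * t + t = ((n + 1 : ℕ) : ℤ) * t by push_cast; ring] at h

theorem homK_cast {t t' : ℤ} {x : K} (hx : HomK t x) (h : t = t') : HomK t' x := h ▸ hx

/-- Cancel a homogeneous factor. -/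
theorem homK_cancel {t t' : ℤ} {x y : K} (hy : HomK t' y) (hy0 : y ≠ 0) (h : HomK t (y * x)) :
    HomK (t - t') x := by
  have h1 := homK_div h hy
  rwa [mul_div_cancel_left₀ _ hy0] at h1

/-- A polynomial which is homogeneous as an element of `K` is homogeneous. -/
theorem homK_poly {t : ℤ} {p : A} (h : HomK t ((algebraMap A K) p)) (hp : p ≠ 0) :
    ∃ i : ℕ, p.IsHomogeneous i ∧ (i : ℤ) = t := by
  obtain ⟨n, m, p', q, hp', hq, hq0, h, hx⟩ := h
  have h1 : p * q = p' := io_inj (by rw [map_mul, hx])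
  have h2 : (p * q).IsHomogeneous n := h1 ▸ hp'
  obtain ⟨i, hi, hn⟩ := hom_of_mul hq hq0 h2 hp
  exact ⟨i, hi, by omega⟩

/-- The numerators of a homogeneous element of `Loc s`. -/
theorem homK_num {t : ℤ} {x : K} {s p : A} {δ n : ℕ} (hx : HomK t x) (hs : s.IsHomogeneous δ)
    (h : (algebraMap A K) s ^ n * x = (algebraMap A K) p) (hp : p ≠ 0) :
    ∃ i : ℕ, p.IsHomogeneous i ∧ (i : ℤ) = t + n * δ := by
  have h1 : HomK ((n : ℤ) * δ + t) ((algebraMap A K) p) := by
    rw [← h]; exact homK_mul (homK_pow (homK_io hs) n) hx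
  obtain ⟨i, hi, h2⟩ := homK_poly h1 hp
  exact ⟨i, hi, by omega⟩

/-- Two degrees of a nonzero element agree. -/
theorem homK_unique {t t' : ℤ} {x : K} (hx : HomK t x) (hx' : HomK t' x) (h0 : x ≠ 0) : t = t' := by
  have h1 : HomK (t - t') (x / x) := homK_div hx hx'
  rw [div_self h0] at h1
  have h2 : HomK (t - t') ((algebraMap A K) (1 : A)) := by rwa [map_one]
  obtain ⟨i, hi, h3⟩ := homK_poly h2 one_ne_zero
  have := hi.inj_right (isHomogeneous_one _ _) one_ne_zero
  omega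

/-! ### `PReg` and `NZD` -/

theorem nzd_pow {I : Ideal A} {s : A} (h : NZD I s) (n : ℕ) : NZD I (s ^ n) := by
  induction n with
  | zero => intro g hg; simpa using hg
  | succ n ih =>
    intro g hg
    rw [pow_succ, mul_assoc] at hg
    exact h g (ih _ hg)

theorem nzd_mul {I : Ideal A} {s t : A} (h : NZD I s) (h' : NZD I t) : NZD I (s * t) := by
  intro g hg
  rw [mul_assoc] at hg
  exact h' g (h _ hg)

theorem PReg.compB {n m : ℕ} {f : Fin n → A} (h : PReg f) (e : Fin m → Fin n)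
    (he : Function.Injective e) : PReg (f ∘ e) := by
  classical
  intro S i hi
  have h1 := h (S.image e) (e i) (by
    intro h2
    obtain ⟨j, hj, hji⟩ := Finset.mem_image.1 h2
    exact hi (he hji ▸ hj))
  have h2 : f '' ((S.image e : Finset (Fin n)) : Set (Fin n)) = (f ∘ e) '' (S : Set (Fin m)) := by
    rw [Finset.coe_image, Set.image_comp]
  rw [h2] at h1
  exact h1

theorem preg_init {a b c d e : A} (h : PReg ![a, b, c, d, e]) : PReg ![a, b, c, d] := by
  have h1 := h.compB Fin.castSucc (Fin.castSucc_injective 4)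
  have h2 : (![a, b, c, d, e] : Fin 5 → A) ∘ Fin.castSucc = ![a, b, c, d] := by
    funext i; fin_cases i <;> rfl
  rwa [h2] at h1

theorem preg_pow4 (hp : S_POW) {a b c d : A} (h : PReg ![a, b, c, d]) (i j k l : ℕ) :
    PReg ![a ^ i, b ^ j, c ^ k, d ^ l] := by
  have h1 := hp 4 _ ![i, j, k, l] h
  have h2 : (fun m => (![a, b, c, d] : Fin 4 → A) m ^ (![i, j, k, l] : Fin 4 → ℕ) m) =
      ![a ^ i, b ^ j, c ^ k, d ^ l] := by
    funext m; fin_cases m <;> rfl
  rwa [h2] at h1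

theorem preg_pow5 (hp : S_POW) {a b c d e : A} (h : PReg ![a, b, c, d, e]) (i j k l m : ℕ) :
    PReg ![a ^ i, b ^ j, c ^ k, d ^ l, e ^ m] := by
  have h1 := hp 5 _ ![i, j, k, l, m] h
  have h2 : (fun n => (![a, b, c, d, e] : Fin 5 → A) n ^ (![i, j, k, l, m] : Fin 5 → ℕ) n) =
      ![a ^ i, b ^ j, c ^ k, d ^ l, e ^ m] := by
    funext n; fin_cases n <;> rfl
  rwa [h2] at h1

/-- The four members of a PReg quadruple, each modulo the other three. -/
theorem preg4_last {a b c d : A} (h : PReg ![a, b, c, d]) : NZD (Ideal.span {a, b, c}) d := by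
  have h1 := h {0, 1, 2} 3 (by decide)
  have h2 : (![a, b, c, d] : Fin 4 → A) '' (({0, 1, 2} : Finset (Fin 4)) : Set (Fin 4)) =
      {a, b, c} := by
    simp [Set.image_insert_eq]
  rw [h2] at h1
  exact h1

theorem preg4_two {a b c d : A} (h : PReg ![a, b, c, d]) : NZD (Ideal.span {a, b}) c := by
  have h1 := h {0, 1} 2 (by decide)
  have h2 : (![a, b, c, d] : Fin 4 → A) '' (({0, 1} : Finset (Fin 4)) : Set (Fin 4)) =
      {a, b} := by
    simp [Set.image_insert_eq]
  rw [h2] at h1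
  exact h1

theorem preg4_one {a b c d : A} (h : PReg ![a, b, c, d]) : NZD (Ideal.span {a}) b := by
  have h1 := h {0} 1 (by decide)
  have h2 : (![a, b, c, d] : Fin 4 → A) '' (({0} : Finset (Fin 4)) : Set (Fin 4)) =
      {a} := by
    simp
  rw [h2] at h1
  exact h1

/-- Permuting a PReg quadruple. -/
theorem preg4_swap12 {a b c d : A} (h : PReg ![a, b, c, d]) : PReg ![a, c, b, d] := by
  have h1 := h.compB ![0, 2, 1, 3] (by decide)
  have h2 : (![a, b, c, d] : Fin 4 → A) ∘ ![0, 2, 1, 3] = ![a, c, b, d] := by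
    funext i; fin_cases i <;> rfl
  rwa [h2] at h1

theorem preg4_swap23 {a b c d : A} (h : PReg ![a, b, c, d]) : PReg ![a, b, d, c] := by
  have h1 := h.compB ![0, 1, 3, 2] (by decide)
  have h2 : (![a, b, c, d] : Fin 4 → A) ∘ ![0, 1, 3, 2] = ![a, b, d, c] := by
    funext i; fin_cases i <;> rfl
  rwa [h2] at h1

/-- The last member of a PReg quintuple modulo the other four. -/
theorem preg5_last {a b c d e : A} (h : PReg ![a, b, c, d, e]) :
    NZD (Ideal.span {a, b, c, d}) e := by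
  have h1 := h {0, 1, 2, 3} 4 (by decide)
  have h2 : (![a, b, c, d, e] : Fin 5 → A) '' (({0, 1, 2, 3} : Finset (Fin 5)) : Set (Fin 5)) =
      {a, b, c, d} := by
    simp [Set.image_insert_eq]
  rw [h2] at h1
  exact h1

end Pool.Agent.NOD
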