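import Pool.Agent.NOD.StmF

/-!
# PROJECT NOD, section S0, piece LC: lower bound of the Hilbert function
-/

set_option autoImplicit false
set_option linter.all false

namespace Pool.Agent.NOD.Lc

open MvPolynomial

theorem ctr_zero_left (Λ : A →ₗ[ℂ] ℂ) : ctr 0 Λ = 0 := by
  refine LinearMap.ext fun g => ?_
  change Λ (0 * g) = 0
  rw [zero_mul, map_zero]

theorem ctr_zero_right (f : A) : ctr f 0 = 0 := rfl

theorem H_zero (i : ℕ) : H (0 : A →ₗ[ℂ] ℂ) i = 0 := by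
  have h : W (0 : A →ₗ[ℂ] ℂ) i = ⊥ := by
    rw [eq_bot_iff]
    rintro x ⟨f, -, rfl⟩
    exact (Submodule.mem_bot ℂ).2 (ctr_zero_right f)
  rw [H, h, finrank_bot]

theorem W_mono (hB : S_FBAS) {Λ : A →ₗ[ℂ] ℂ} {l : A} (hl : l.IsHomogeneous 1) (i : ℕ) :
    W (ctr l Λ) i ≤ W Λ (i + 1) := by
  rintro x ⟨f, hf, rfl⟩
  refine ⟨f * l, (mem_homogeneousSubmodule _ _).2
    (((mem_homogeneousSubmodule _ _).1 hf).mul hl), ?_⟩
  exact hB.2.1 f l Λ

theorem W_fin (hB : S_FBAS) (Λ : A →ₗ[ℂ] ℂ) (i : ℕ) : Module.Finite ℂ (W Λ i) := by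
  haveI := hB.1 i
  exact Module.Finite.map (homogeneousSubmodule (Fin 5) ℂ i) (ctrL Λ)

theorem bpf_ctr (hB : S_FBAS) {m : ℕ} {Λ : A →ₗ[ℂ] ℂ} (h : Bpf m Λ) (l : A) : Bpf m (ctr l Λ) := by
  intro v hv
  obtain ⟨f, h1, h2, h3⟩ := h v hv
  refine ⟨f, h1, ?_, h3⟩
  rw [← hB.2.1, mul_comm, hB.2.1, h2, ctr_zero_right]

/-- there is a linear form which does not kill `Λ` -/
theorem exists_lin {Λ : A →ₗ[ℂ] ℂ} (h : 2 ≤ H Λ 1) :
    ∃ l : A, l.IsHomogeneous 1 ∧ ctr l Λ ≠ 0 := by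
  by_contra hcon
  push Not at hcon
  have h1 : W Λ 1 = ⊥ := by
    rw [eq_bot_iff]
    rintro x ⟨f, hf, rfl⟩
    exact (Submodule.mem_bot ℂ).2 (hcon f ((mem_homogeneousSubmodule _ _).1 hf))
  rw [H, h1, finrank_bot] at h
  omega

theorem main (hB : S_FBAS) (hM : S_FMON) (hS : S_SYM) (hE : S_FEB) (hO : S_FONE) (hP : S_FPLH) :
    S_LC := by
  intro m j
  induction j with
  | zero =>
    intro Λ hm hd h0 hb i hi
    have hpos := hM.2.2.2 (m + 0) i Λ hd h0 hi
    by_contra hcon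
    push Not at hcon
    have h1 : 1 ≤ i ∧ i + 1 ≤ m ∧ H Λ i ≤ 1 := by omega
    have h2 : ∀ k, i ≤ k → H Λ k ≤ 1 := by
      intro k hk
      induction k, hk using Nat.le_induction with
      | base => exact h1.2.2
      | succ k hk ih =>
        have h3 := hO k 0 Λ (by omega) (isHomogeneous_zero _ _ _)
        rw [ctr_zero_left, H_zero, H_zero] at h3
        exact h3 (by omega)
    have h3 := h2 (m + 0 - 1) (by omega)
    have h4 := hS (m + 0) Λ hd 1 (by omega)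
    have h5 := hE (m + 0) m Λ (by omega) (by omega) hd h0 hb
    omega
  | succ j ih =>
    intro Λ hm hd h0 hb i hi
    have hpos := hM.2.2.2 (m + (j + 1)) i Λ hd h0 hi
    have hH1 := hE (m + (j + 1)) m Λ (by omega) (by omega) hd h0 hb
    by_contra hcon
    push Not at hcon
    have h1 : 1 ≤ i ∧ i + 1 ≤ m + (j + 1) := by omega
    have hIH : ∀ l : A, l.IsHomogeneous 1 → ctr l Λ ≠ 0 →
        H (ctr l Λ) i = H Λ i ∧ H (ctr l Λ) (i - 1) = H Λ i := by
      intro l hl hl0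
      have hdl : Deg (m + j) (ctr l Λ) := by
        have := hB.2.2.2.1 (m + (j + 1)) 1 l Λ hd hl (by omega)
        have e : m + (j + 1) - 1 = m + j := by omega
        rwa [e] at this
      have h2 := ih (ctr l Λ) hm hdl hl0 (bpf_ctr hB hb l) i (by omega)
      have h3 := ih (ctr l Λ) hm hdl hl0 (bpf_ctr hB hb l) (i - 1) (by omega)
      have h4 := (hM.1 i l Λ hl).1
      have h5 := (hM.1 (i - 1) l Λ hl).2
      have e : i - 1 + 1 = i := by omega
      rw [e] at h5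
      constructor <;> omega
    have h6 := hP i Λ hpos hH1 fun l hl hl0 => (hIH l hl hl0).1
    obtain ⟨l, hl, hl0⟩ := exists_lin hH1
    obtain ⟨h7, h8⟩ := hIH l hl hl0
    have e : i - 1 + 1 = i := by omega
    have h9 : W (ctr l Λ) (i - 1) = W Λ i := by
      haveI := W_fin hB Λ i
      have h10 := W_mono hB hl (Λ := Λ) (i - 1)
      rw [e] at h10
      exact Submodule.eq_of_le_of_finrank_eq h10 h8
    have h11 : W (ctr l Λ) i = W Λ (i + 1) := by
      have h12 := hB.2.2.2.2.2.2 (i - 1) (ctr l Λ)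
      rw [e] at h12
      rw [h12, h9]
      exact (hB.2.2.2.2.2.2 i Λ).symm
    have h13 : H (ctr l Λ) i = H Λ (i + 1) := by rw [H, H, h11]
    omega

end Pool.Agent.NOD.Lc

namespace Pool.Agent.NOD

theorem t_LC : S_LCD := Lc.main

end Pool.Agent.NOD
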