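import Pool.Agent.NOD.Defs

/-!
# PROJECT NOD, section S0, piece SYM: symmetry of the Hilbert function
-/

set_option autoImplicit false
set_option linter.all false

namespace Pool.Agent.NOD.Sym

open MvPolynomial

theorem fr {V W₁ W₂ : Type*} [AddCommGroup V] [Module ℂ V] [AddCommGroup W₁] [Module ℂ W₁]
    [AddCommGroup W₂] [Module ℂ W₂] [Module.Finite ℂ V] (φ : V →ₗ[ℂ] W₁) (ψ : V →ₗ[ℂ] W₂)
    (h : LinearMap.ker φ = LinearMap.ker ψ) :
    Module.finrank ℂ (LinearMap.range φ) = Module.finrank ℂ (LinearMap.range ψ) := by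
  have h1 := LinearMap.finrank_range_add_finrank_ker φ
  have h2 := LinearMap.finrank_range_add_finrank_ker ψ
  rw [h] at h1
  omega

theorem fin_hom (n : ℕ) : Module.Finite ℂ (homogeneousSubmodule (Fin 5) ℂ n) :=
  Module.Finite.iff_fg.2 (homogeneousSubmodule_fg _ _ n)

/-- the pairing -/
noncomputable def B (Λ : A →ₗ[ℂ] ℂ) (i j : ℕ) : homogeneousSubmodule (Fin 5) ℂ i →ₗ[ℂ]
    homogeneousSubmodule (Fin 5) ℂ j →ₗ[ℂ] ℂ :=
  LinearMap.mk₂ ℂ (fun f g => Λ ((f : A) * (g : A)))
    (fun a b c => by rw [Submodule.coe_add, add_mul, map_add])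
    (fun a b c => by rw [Submodule.coe_smul, smul_mul_assoc, map_smul])
    (fun a b c => by rw [Submodule.coe_add, mul_add, map_add])
    (fun a b c => by rw [Submodule.coe_smul, mul_smul_comm, map_smul])

theorem B_apply (Λ : A →ₗ[ℂ] ℂ) (i j : ℕ) (f : homogeneousSubmodule (Fin 5) ℂ i)
    (g : homogeneousSubmodule (Fin 5) ℂ j) : B Λ i j f g = Λ ((f : A) * (g : A)) := rfl

/-- a form of degree `i` kills `Λ` if it kills all forms of the complementary degree -/
theorem ctr_zero {n i : ℕ} {Λ : A →ₗ[ℂ] ℂ} (hΛ : Deg n Λ) (hi : i ≤ n) {f : A}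
    (hf : f.IsHomogeneous i) (h : ∀ g : A, g.IsHomogeneous (n - i) → Λ (f * g) = 0) :
    ctr f Λ = 0 := by
  refine LinearMap.ext fun g => ?_
  change Λ (f * g) = 0
  have h1 : ∀ m : ℕ, m ≠ n - i → Λ (f * homogeneousComponent m g) = 0 := by
    intro m hm
    rw [hΛ]
    have h2 : (f * homogeneousComponent m g).IsHomogeneous (i + m) :=
      hf.mul (homogeneousComponent_isHomogeneous m g)
    rw [homogeneousComponent_of_mem h2, if_neg (by omega), map_zero]
  conv_lhs => rw [← sum_homogeneousComponent g, Finset.mul_sum, map_sum]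
  refine Finset.sum_eq_zero fun m _ => ?_
  by_cases hm : m = n - i
  · exact h _ (hm ▸ homogeneousComponent_isHomogeneous m g)
  · exact h1 m hm

theorem H_eq {n i : ℕ} {Λ : A →ₗ[ℂ] ℂ} (hΛ : Deg n Λ) (hi : i ≤ n) :
    H Λ i = Module.finrank ℂ (LinearMap.range (B Λ i (n - i))) := by
  haveI := fin_hom i
  have h1 : W Λ i = LinearMap.range ((ctrL Λ).domRestrict (homogeneousSubmodule (Fin 5) ℂ i)) := by
    rw [W]
    ext x
    simp only [Submodule.mem_map, LinearMap.mem_range]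
    constructor
    · rintro ⟨y, hy, rfl⟩
      exact ⟨⟨y, hy⟩, rfl⟩
    · rintro ⟨⟨y, hy⟩, rfl⟩
      exact ⟨y, hy, rfl⟩
  rw [H, h1]
  refine fr _ _ ?_
  ext f
  rw [LinearMap.mem_ker, LinearMap.mem_ker]
  constructor
  · intro h
    refine LinearMap.ext fun g => ?_
    exact LinearMap.congr_fun (h : ctr (f : A) Λ = 0) (g : A)
  · intro h
    refine ctr_zero hΛ hi ((mem_homogeneousSubmodule i (f : A)).1 f.2) fun g hg => ?_
    exact LinearMap.congr_fun h ⟨g, (mem_homogeneousSubmodule _ _).2 hg⟩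

theorem main : S_SYM := by
  intro n Λ hΛ i hi
  haveI := fin_hom i
  haveI := fin_hom (n - i)
  rw [H_eq hΛ hi, H_eq hΛ (Nat.sub_le n i), Nat.sub_sub_self hi]
  have h1 : B Λ (n - i) i = (B Λ i (n - i)).flip := by
    refine LinearMap.ext fun f => LinearMap.ext fun g => ?_
    rw [LinearMap.flip_apply, B_apply, B_apply, mul_comm]
  have h2 : (B Λ i (n - i)).flip = (B Λ i (n - i)).dualMap ∘ₗ
      (Module.Dual.eval ℂ (homogeneousSubmodule (Fin 5) ℂ (n - i))) := rfl
  have h3 : Function.Surjective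
      (Module.Dual.eval ℂ (homogeneousSubmodule (Fin 5) ℂ (n - i))) :=
    (Module.evalEquiv ℂ (homogeneousSubmodule (Fin 5) ℂ (n - i))).surjective
  rw [h1, h2, LinearMap.range_comp_of_range_eq_top _ (LinearMap.range_eq_top.2 h3)]
  exact (LinearMap.finrank_range_dualMap_eq_finrank_range _).symm

end Pool.Agent.NOD.Sym

namespace Pool.Agent.NOD

theorem t_SYM : S_SYM := Sym.main

end Pool.Agent.NOD
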