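import Pool.Agent.NOD.B1
import Pool.Agent.NOD.Fbas
import Pool.Agent.NOD.Fmon
import Pool.Agent.NOD.Sym
import Pool.Agent.NOD.Fev
import Pool.Agent.NOD.Feb
import Pool.Agent.NOD.Fone
import Pool.Agent.NOD.Fpen
import Pool.Agent.NOD.Fplh
import Pool.Agent.NOD.Fq
import Pool.Agent.NOD.Lc
import Pool.Agent.NOD.Frs
import Pool.Agent.NOD.Frt
import Pool.Agent.NOD.Fpta
import Pool.Agent.NOD.Fptb
import Pool.Agent.NOD.Fpt
import Pool.Agent.NOD.Fb2
import Pool.Agent.NOD.Fb3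
import Pool.Agent.NOD.Fb4

/-!
# NOD, section S0: assembly
-/

set_option autoImplicit false

namespace Pool.Agent.NOD

theorem f_plh : S_FPLH := t_FPLH t_FBAS t_FPEN

theorem f_lc : S_LC := t_LC t_FBAS t_FMON t_SYM t_FEB t_FONE f_plh

theorem f_rs : S_FRS := t_FRS t_FBAS t_FMON t_SYM t_FEB f_plh t_FQ f_lc

theorem f_rt : S_FRT := t_FRT t_FBAS t_FMON t_SYM t_FEB f_plh t_FQ f_lc f_rs

theorem f_pt : S_FPT := t_FPT (t_FPTA t_FQ t_SYM t_FEV) t_FPTB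

theorem f_tools : Tools where
  bas := t_FBAS
  mon := t_FMON
  sym := t_SYM
  eb := t_FEB
  one := t_FONE
  plh := f_plh
  q := t_FQ
  lc := f_lc
  rs := f_rs
  rt := f_rt
  pt := f_pt

theorem f_B1 : S_B1 := t_B1 f_tools t_FB2 t_FB3 t_FB4

theorem f_SYM : S_SYM := t_SYM

end Pool.Agent.NOD
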