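import Mathlib

/-!
# Project NOD (MP_c2352a_ag, frozen S00427), section S5: Bezout lower bound, homogeneous reduction

Piece `XXX`: file `Pool/Agent/NOD/S5/XXX.lean`, importing `Pool.Agent.NOD.S5`, namespace
`Pool.Agent.NOD.S5`, theorem `t_XXX : S_XXX` (some pieces take other statements as hypotheses: this is said in
the docstring, then the theorem is `t_XXX (h1 : S_AAA) ... : S_XXX`).
All pieces are independent of each other. Only Mathlib is used.
-/

set_option autoImplicit false

namespace Pool.Agent.NOD.S5

open MvPolynomial Module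

noncomputable section

/-- the gradient of a polynomial at a point -/
def grad {n : ℕ} (f : MvPolynomial (Fin n) ℂ) (p : Fin n → ℂ) : Fin n → ℂ :=
  fun i => eval p (pderiv i f)

/-- the forms of degree `k` in `n` variables -/
abbrev W (n k : ℕ) : Submodule ℂ (MvPolynomial (Fin n) ℂ) := homogeneousSubmodule (Fin n) ℂ k

/-- the forms of degree `k` in the ideal `I` -/
def degPart {n : ℕ} (I : Ideal (MvPolynomial (Fin n) ℂ)) (k : ℕ) :
    Submodule ℂ (MvPolynomial (Fin n) ℂ) := W n k ⊓ I.restrictScalars ℂ

/-- `I` is a homogeneous ideal -/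
def HomId {n : ℕ} (I : Ideal (MvPolynomial (Fin n) ℂ)) : Prop :=
  ∀ f ∈ I, ∀ m, homogeneousComponent m f ∈ I

/-- `f` is a form of some degree -/
def IsForm {n : ℕ} (f : MvPolynomial (Fin n) ℂ) : Prop := ∃ m, f.IsHomogeneous m

/-- the composition `f ∘ L` of a polynomial with a linear map -/
def pull {m n : ℕ} (L : (Fin m → ℂ) →ₗ[ℂ] (Fin n → ℂ)) :
    MvPolynomial (Fin n) ℂ →ₐ[ℂ] MvPolynomial (Fin m) ℂ :=
  aeval (fun i => ∑ j, C (L (Pi.single j 1) i) * X j)

/-! ## Part B: a form containing an irreducible quadric surface has at least `2 (d-1) (d-2)` nodes -/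

/-- **HOM4** (40 lines; there are proofs of the formula for other numbers of variables in the repository, for
example `Pool/Agent/Chud/PD2.lean` for three variables). The number of monomials. -/
def S_HOM4 : Prop := ∀ k : ℕ, finrank ℂ (W 4 k) = (k + 3).choose 3

/-- **PRI** (50 lines). `(q) ∩ W (k+2) = q * W k`: if `q g` is a form of degree `k + 2`, `q ≠ 0` of degree `2`, then
take the component of degree `k + 2`: `q * homogeneousComponent k g = q g`. Multiplication by
`q` is an injective linear map from `W k` onto `degPart (span {q}) (k+2)`. -/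
def S_PRI : Prop := ∀ q : MvPolynomial (Fin 4) ℂ, q.IsHomogeneous 2 → q ≠ 0 → ∀ k : ℕ,
  finrank ℂ (degPart (Ideal.span {q}) (k + 2)) = finrank ℂ (W 4 k)

/-- **TWO** (100 lines). `q` prime, `q` does not divide `A`.
`degPart (span {q, A}) (k+2+a) = q W(k+a) + A W(k+2)` (components), and the intersection of the two
summands is `q A W(k)`: if `q g = A h` then `q ∣ h` (`q` is prime, as `MvPolynomial (Fin 4) ℂ` is a
unique factorization domain: `Irreducible.prime`). Use
`Submodule.finrank_sup_add_finrank_inf_eq`; multiplication by a nonzero polynomial is injective. -/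
def S_TWO : Prop := ∀ (q A : MvPolynomial (Fin 4) ℂ) (a : ℕ), q.IsHomogeneous 2 → Irreducible q →
  A.IsHomogeneous a → ¬ q ∣ A → ∀ k : ℕ,
  finrank ℂ (degPart (Ideal.span {q, A}) (k + 2 + a)) + finrank ℂ (W 4 k) =
    finrank ℂ (W 4 (k + a)) + finrank ℂ (W 4 (k + 2))

/-- **ADD** (80 lines). `degPart (I ⊔ span {B}) (k+b) = degPart I (k+b) + B W(k)` (components, `I` is homogeneous), and
the intersection of the two summands contains `B * degPart I k`. If `B ≠ 0` use
`Submodule.finrank_sup_add_finrank_inf_eq`, and that multiplication by `B` is injective. If `B = 0`: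
`degPart I k ≤ W k`. -/
def S_ADD : Prop := ∀ (I : Ideal (MvPolynomial (Fin 4) ℂ)) (B : MvPolynomial (Fin 4) ℂ) (b : ℕ),
  HomId I → B.IsHomogeneous b → ∀ k : ℕ,
  finrank ℂ (degPart (I ⊔ Ideal.span {B}) (k + b)) + finrank ℂ (degPart I k) ≤
    finrank ℂ (degPart I (k + b)) + finrank ℂ (W 4 k)

/-- **LOW** (100 lines), from `HOM4`, `PRI`, `TWO`, `ADD`. Put `w k = finrank (W 4 k) = (k+3 choose 3)`.
Case 1: `q` does not divide `A`. Put `I = span {q, A}`. By `ADD` the codimension of
`degPart (I ⊔ span {B}) (k+b)` in `W (k+b)` is at least `h (k+b) - h k`, where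
`h m = w m - finrank (degPart I m) = w m - w (m-2) - w (m-a) + w (m-2-a)` for `m ≥ a + 2` by `TWO`.
As `w m - w (m-2) = (m+1)^2`, `h m = (m+1)^2 - (m+1-a)^2`, and `h (k+b) - h k = 2 a b`.
Case 2: `q ∣ A`, `q` does not divide `B`: the same with `A`, `B` exchanged.
Case 3: `q ∣ A` and `q ∣ B`: the ideal is `span {q}` and by `PRI` the codimension is
`w k - w (k-2) = (k+1)^2`, at least `2 a b` for large `k`. -/
def S_LOW : Prop := ∀ (q A B : MvPolynomial (Fin 4) ℂ) (a b : ℕ), q.IsHomogeneous 2 →
  Irreducible q → A.IsHomogeneous a → B.IsHomogeneous b → ∃ k₀ : ℕ, ∀ k ≥ k₀,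
    finrank ℂ (degPart (Ideal.span {q, A, B}) k) + 2 * a * b ≤ finrank ℂ (W 4 k)

/-- **LIN** (50 lines). A form which vanishes at the point `p` lies in the ideal generated by the linear
forms `ℓ j = p i₀ * X j - p j * X i₀`. Proof: let `k` be the degree of `G`. Modulo the ideal
`p i₀ * X j ≡ p j * X i₀`, and so `(p i₀)^k * G = G (p i₀ * X) ≡ G (p * X i₀) = (X i₀)^k * G (p) = 0`
(work in the quotient ring: `aeval` of the two families in the quotient agree; a form of degree `k`
evaluated at `c * y` is `c^k` times its value at `y`, for instance from the sum over the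
support, or `MvPolynomial.IsHomogeneous.eval₂`). -/
def S_LIN : Prop := ∀ (n : ℕ) (p : Fin n → ℂ) (i₀ : Fin n) (G : MvPolynomial (Fin n) ℂ) (k : ℕ),
  p i₀ ≠ 0 → G.IsHomogeneous k → eval p G = 0 →
  G ∈ Ideal.span (Set.range fun j => C (p i₀) * X j - C (p j) * X i₀)

/-- **CRA** (100 lines), from `LIN`. Choose `i₀` with `p i₀ ≠ 0` and put
`ℓ j = p i₀ * X (i₀.succAbove j) - p (i₀.succAbove j) * X i₀` for `j : Fin 3`. These three forms generate the ideal
in `LIN` (for `j = i₀` the form is zero). So `f i = ∑ j, a i j * ℓ j` with a matrix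
`a : Matrix (Fin 3) (Fin 3) _` (`Submodule.mem_span_range_iff_exists_fun` or
`Ideal.mem_span_range_iff_exists_fun`). Put `s = det a`. As `adjugate a * a = det a • 1`, `s * ℓ j` is in the ideal
`span (range f)`, and by `LIN` so is `s * G`. As `ℓ j` vanishes at `p`,
`grad (f i) p = ∑ j, a i j (p) • grad (ℓ j) p`. If `det (a i j (p)) = 0` there would be a nontrivial relation between
the rows, and so between the gradients of the `f i`. -/
def S_CRA : Prop := ∀ (p : Fin 4 → ℂ) (f : Fin 3 → MvPolynomial (Fin 4) ℂ), p ≠ 0 →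
  (∀ i, IsForm (f i)) → (∀ i, eval p (f i) = 0) → LinearIndependent ℂ (fun i => grad (f i) p) →
  ∃ s : MvPolynomial (Fin 4) ℂ, eval p s ≠ 0 ∧ ∀ G : MvPolynomial (Fin 4) ℂ, IsForm G →
    eval p G = 0 → s * G ∈ Ideal.span (Set.range f)

/-- **NUL** (60 lines). Let `K` be the ideal of all `s` with `s * G ∈ I` (`I.colon ...` or a direct
definition). Its zero locus is contained in `{0}`, so all variables are in its radical
(`MvPolynomial.vanishingIdeal_zeroLocus_eq_radical`), so `X i ^ m ∈ K` for all `i` with one `m`, and so every monomial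
of degree at least `n * m` is in `K` (one of its exponents is at least `m`), hence every form
of degree at least `n * m` (`N = n * m`; for `n = 0` everything is easy too, but the degrees are
then to be treated with care: take `N = n * m + 1`). -/
def S_NUL : Prop := ∀ (n : ℕ) (I : Ideal (MvPolynomial (Fin n) ℂ)) (G : MvPolynomial (Fin n) ℂ),
  (∀ p : Fin n → ℂ, p ≠ 0 → ∃ s : MvPolynomial (Fin n) ℂ, eval p s ≠ 0 ∧ s * G ∈ I) →
  ∃ N : ℕ, ∀ k ≥ N, ∀ H ∈ W n k, H * G ∈ I

/-- **UPP** (120 lines), from `CRA` and `NUL`. Let `T` be the set of the forms vanishing at `p.rep` for all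
`p ∈ Z` and `J = Ideal.span T`. As the ring is noetherian `J = Ideal.span T₀` for a finite set `T₀ ⊆ T`
(`Submodule.fg_span_iff_fg_span_finset_subset` or `Submodule.exists_finset_span_eq...`, compactness).
For `G ∈ T` the hypothesis of `NUL` holds with `I = span (range f)`: let `p ≠ 0`. If
`eval p (f i) ≠ 0` for some `i`, take `s = f i`. Otherwise `Projectivization.mk p ∈ Z`
(`p` is a nonzero multiple of the representative; for forms vanishing does not depend on the
multiple), the gradients at `p` are multiples of the gradients at the representative by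
nonzero numbers, so still independent, and `CRA` gives `s`. So there is `N` such that `H * G ∈ I` for all `G ∈ T₀` and
all forms `H` of degree at least `N`. Let `k₀ = N + ` (the largest degree of a `G ∈ T₀`). If `k ≥ k₀` and
`G` is a form of degree `k` in `T`, write `G = ∑ c_l G_l` with `G_l ∈ T₀` forms of degree `d_l` (those which are
not zero), and take the components of degree `k`: we may assume that `c_l` is a form of degree `k - d_l ≥ N`.
So `G ∈ I`. Hence the kernel of the evaluation map `W k → (Z → ℂ)` is contained in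
`degPart I k`, and rank-nullity gives the inequality. -/
def S_UPP : Prop := ∀ f : Fin 3 → MvPolynomial (Fin 4) ℂ, (∀ i, IsForm (f i)) →
  ∀ Z : Set (Projectivization ℂ (Fin 4 → ℂ)), Z = {p | ∀ i, eval p.rep (f i) = 0} → Z.Finite →
  (∀ p ∈ Z, LinearIndependent ℂ (fun i => grad (f i) p.rep)) →
  ∃ k₀ : ℕ, ∀ k ≥ k₀,
    finrank ℂ (W 4 k) ≤ finrank ℂ (degPart (Ideal.span (Set.range f)) k) + Z.ncard

/-- **PUL** (60 lines). The elementary properties of the composition with a linear map: values, degree, and the chain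
rule for the gradient (by `MvPolynomial.induction_on`, or by comparing two derivations). -/
def S_PUL : Prop := ∀ (m n : ℕ) (L : (Fin m → ℂ) →ₗ[ℂ] (Fin n → ℂ)) (f : MvPolynomial (Fin n) ℂ),
  (∀ v, eval v (pull L f) = eval (L v) f) ∧
  (∀ k, f.IsHomogeneous k → (pull L f).IsHomogeneous k) ∧
  (∀ v j, grad (pull L f) v j = ∑ i, L (Pi.single j 1) i * grad f (L v) i)

/-- **DEC** (120 lines), from `PUL`. Let `M` be a linear left inverse of `L` (`LinearMap.exists_leftInverse_of_injective`).
The kernel of `M` has dimension one (rank-nullity), let `e` be a generator; there is a linear form `h₀` with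
`x - L (M x) = h₀ (x) • e` for all `x`. Let `h` be the linear form as a polynomial, `q' = pull M q`. For every
polynomial `f` in five variables `f - pull M (pull L f)` is divisible by `h`: modulo `(h)` the
variables `X i` and `pull M (pull L (X i)) = X i - h * e i` agree. The form `pull L F` in four variables vanishes where `q`
vanishes, and `q` is prime, so `pull L F = q * B₀` by the Nullstellensatz
(`MvPolynomial.vanishingIdeal_zeroLocus_eq_radical`); put `B = pull M B₀`. Then `F = h * A + q' * B`. Take the components of degree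
`d` (of `A` the one of degree `d - 1`, of `B₀` the one of degree `d - 2`). -/
def S_DEC : Prop := ∀ (L : (Fin 4 → ℂ) →ₗ[ℂ] (Fin 5 → ℂ)) (d : ℕ) (F : MvPolynomial (Fin 5) ℂ)
  (q : MvPolynomial (Fin 4) ℂ), Function.Injective L → 2 ≤ d → F.IsHomogeneous d →
  q.IsHomogeneous 2 → Irreducible q → (∀ v, eval v q = 0 → eval (L v) F = 0) →
  ∃ h q' A B : MvPolynomial (Fin 5) ℂ, h.IsHomogeneous 1 ∧ q'.IsHomogeneous 2 ∧
    A.IsHomogeneous (d - 1) ∧ B.IsHomogeneous (d - 2) ∧ F = h * A + q' * B ∧
    pull L h = 0 ∧ pull L q' = q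

/-- **HES** (80 lines). At a common zero `p` of `h`, `q`, `A`, `B` the polynomial `F = h A + q B` and its gradient
vanish, and the Hessian matrix is
`∇h ∇Aᵀ + ∇A ∇hᵀ + ∇q ∇Bᵀ + ∇B ∇qᵀ`. So its columns lie in the span of the four gradients. If its rank is
four, these are linearly independent (`linearIndependent_iff_card_le_finrank_span` or
`LinearIndependent` from the span having dimension at least four). -/
def S_HES : Prop := ∀ (h q A B : MvPolynomial (Fin 5) ℂ) (p : Fin 5 → ℂ),
  eval p h = 0 → eval p q = 0 → eval p A = 0 → eval p B = 0 →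
  eval p (h * A + q * B) = 0 ∧ (∀ i, eval p (pderiv i (h * A + q * B)) = 0) ∧
  ((Matrix.of (fun i j : Fin 5 => eval p (pderiv i (pderiv j (h * A + q * B))))).rank = 4 →
    LinearIndependent ℂ ![grad h p, grad q p, grad A p, grad B p])

/-- the singular points of `F` in the projective space -/
def Sing (F : MvPolynomial (Fin 5) ℂ) : Set (Projectivization ℂ (Fin 5 → ℂ)) :=
  {p | eval p.rep F = 0 ∧ ∀ i : Fin 5, eval p.rep (pderiv i F) = 0}

/-- the singular points of `F` are nodes -/
def Nodal (F : MvPolynomial (Fin 5) ℂ) : Prop :=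
  ∀ p : Projectivization ℂ (Fin 5 → ℂ), eval p.rep F = 0 →
    (∀ i : Fin 5, eval p.rep (pderiv i F) = 0) →
    (Matrix.of (fun i j : Fin 5 => eval p.rep (pderiv i (pderiv j F)))).rank = 4

/-- **QUA** (150 lines), from `LOW`, `UPP`, `PUL`, `DEC`, `HES`. By `DEC` `F = h A + q' B`. Let `A₀ = pull L A`,
`B₀ = pull L B`, `f = ![q, A₀, B₀]`, `Z` the set of their common zeros in the projective 3-space. If `[v] ∈ Z`
then `L v` is a common zero of `h, q', A, B`, so by `HES` `[L v]` is a singular point. The map `[v] ↦ [L v]`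
is injective (`Projectivization.map`, `Projectivization.map_injective`), so `Z` is finite (we may assume that
`Sing F` is finite) and `Z.ncard ≤ (Sing F).ncard`. (`Nodal F` and `Sing` are stated with
representatives; a scaling argument is needed as the representative of `[L v]` is a multiple of
`L v`: apply `HES` at the representative, which is a zero of `h, q', A, B` as these are forms, and of the form `L v'`
with `v' = c v`.) Transversality at a point `v` (a multiple of the representative): by `HES` the gradients of `h, q', A, B` at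
`L v` are independent; by `PUL` the gradients of `pull L f` at `v` are the images of the gradient of `f` at `L v` under the
transpose `Lᵀ : ℂ^5 → ℂ^4`, which is surjective, so its kernel is of dimension one,
and it contains the gradient of `h`, as `pull L h = 0`. So the images of the other three
gradients are independent. Now `LOW` and `UPP` give `2 (d-1) (d-2) ≤ Z.ncard`
(note `Set.range ![q, A₀, B₀] = {q, A₀, B₀}`). -/
def S_QUA : Prop := ∀ (d : ℕ) (F : MvPolynomial (Fin 5) ℂ), 3 ≤ d → F.IsHomogeneous d → Nodal F →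
  (∃ (L : (Fin 4 → ℂ) →ₗ[ℂ] (Fin 5 → ℂ)) (q : MvPolynomial (Fin 4) ℂ),
          Function.Injective L ∧ q.IsHomogeneous 2 ∧ Irreducible q ∧
          ∀ v, MvPolynomial.eval v q = 0 → MvPolynomial.eval (L v) F = 0) →
  ((2 * (d - 2) * (d - 1) : ℕ) : ℕ∞) ≤ (Sing F).encard

/-! ## Part A: reduction to homogeneous primes -/

/-- **COM** (80 lines). Two forms of positive degree in five variables have a common zero. Otherwise the
zero locus of `span {G, H}` is `{0}`, and every prime ideal `P` containing it contains all variables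
(its zero locus is contained in `{0}`, and `P` is radical: `vanishingIdeal_zeroLocus_eq_radical`), and so the
ideal `m = span (range X)` is a minimal prime of `span {G, H}`. By Krull's height theorem its
height is at most two (`Ideal.height_le_spanRank_toENat_of_mem_minimal_primes` or similar). But
`⊥ < (X 0) < (X 0, X 1) < (X 0, X 1, X 2)` are prime ideals contained in `m`, the last one properly: the height of
`m` is at least three (for instance use that `Ideal.primeHeight` is strictly monotone, or a
statement of Mathlib about the height of maximal ideals of polynomial rings). -/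
def S_COM : Prop := ∀ (G H : MvPolynomial (Fin 5) ℂ) (a b : ℕ), 0 < a → 0 < b →
  G.IsHomogeneous a → H.IsHomogeneous b → ∃ p : Fin 5 → ℂ, p ≠ 0 ∧ eval p G = 0 ∧ eval p H = 0

/-- **IRR** (100 lines), from `COM`. `F ≠ 0`, as the rank of the Hessian of `0` is not four. Let `F = G H`, `G` and `H` not
units. They are forms of positive degrees (the lowest and the highest components of `G` and `H` multiply to the lowest
and the highest component of `F`; perhaps this is in Mathlib). By `COM` they have a common zero `p ≠ 0`, and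
we may take `p = rep` of a point. There `F` and its gradient vanish and the Hessian is
`∇G ∇Hᵀ + ∇H ∇Gᵀ` (compare `HES`), of rank at most two: a contradiction. -/
def S_IRR : Prop := ∀ (d : ℕ) (F : MvPolynomial (Fin 5) ℂ), 2 ≤ d → F.IsHomogeneous d → Nodal F →
  Irreducible F

/-- the lowest component of `f` which is not in `I` has degree `a` -/
def LoDeg {n : ℕ} (I : Ideal (MvPolynomial (Fin n) ℂ)) (f : MvPolynomial (Fin n) ℂ) (a : ℕ) : Prop :=
  homogeneousComponent a f ∉ I ∧ ∀ m < a, homogeneousComponent m f ∈ I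

/-- the highest component of `f` which is not in `I` has degree `b` -/
def HiDeg {n : ℕ} (I : Ideal (MvPolynomial (Fin n) ℂ)) (f : MvPolynomial (Fin n) ℂ) (b : ℕ) : Prop :=
  homogeneousComponent b f ∉ I ∧ ∀ m > b, homogeneousComponent m f ∈ I

/-- **SUP** (80 lines). Lowest and highest components modulo a homogeneous prime ideal. The component of degree `m` of a
product is `∑ (i, j) ∈ antidiagonal m, comp i f * comp j g`
(`DirectSum.coe_mul_apply...`, or `MvPolynomial.homogeneousComponent_mul`, or write `f` and `g` as the sums of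
their components). -/
def S_SUP : Prop := ∀ (n : ℕ) (I : Ideal (MvPolynomial (Fin n) ℂ)), I.IsPrime → HomId I →
  (∀ f, f ∉ I → ∃ a b, a ≤ b ∧ LoDeg I f a ∧ HiDeg I f b) ∧
  (∀ f a b, LoDeg I f a → HiDeg I f b → a ≤ b ∧ f ∉ I) ∧
  (∀ f g a b, LoDeg I f a → LoDeg I g b → LoDeg I (f * g) (a + b)) ∧
  (∀ f g a b, HiDeg I f a → HiDeg I g b → HiDeg I (f * g) (a + b))

/-- **EUC** (100 lines), from `SUP`. Euclid's algorithm. Choose `g ∈ P`, `g ∉ I` with `LoDeg I g a`, `HiDeg I g b` and
`b - a` minimal. We show by induction on `e - c` the claim for `p ∈ P` with `LoDeg I p c`, `HiDeg I p e` (for `p ∈ I` take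
`t = 1`). By minimality `b - a ≤ e - c`. Let `g_b`, `p_e` be the components of degree `b`, `e`, and
`p₁ = g_b p - p_e g ∈ P`. Its component of degree `m` is `g_b p_{m-b} - p_e g_{m-e}`; this is in `I` for `m ≥ b + e`
(for `m = b + e` it is zero) and for `m < b + c` (as `b + c ≤ a + e`). So `p₁ ∈ I` or the
width of `p₁` is less than `e - c`, and by induction `t p₁ ∈ I ⊔ span {g}` for a form `t ∉ I`. So
`(t g_b) p ∈ I ⊔ span {g}`, and `t g_b` is a form which is not in `I`. -/
def S_EUC : Prop := ∀ (n : ℕ) (I P : Ideal (MvPolynomial (Fin n) ℂ)), I.IsPrime → HomId I →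
  I < P → (∀ t ∈ P, IsForm t → t ∈ I) →
  ∃ g ∈ P, g ∉ I ∧ ∀ p ∈ P, ∃ t, IsForm t ∧ t ∉ I ∧ t * p ∈ I ⊔ Ideal.span {g}

/-- **GEN** (60 lines), from `SUP`. A homogeneous ideal which is principal modulo a homogeneous prime ideal `I` is generated by
a form modulo `I`. Proof: `G ∉ I`; let `LoDeg I G a`, `HiDeg I G b`. The component `G_b` is in `Q`, so
`G_b = i + c G`, `i ∈ I`, `c ∉ I`. Let `LoDeg I c a'`, `HiDeg I c b'`. By `SUP` `LoDeg I (c G) (a' + a)`, `HiDeg I (c G) (b' + b)`, and
`c G - G_b ∈ I`, so `a' + a = b = b' + b`, `b' = 0`, `a' = 0`, `a = b`. So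
`G - G_a ∈ I` (the sum of the other components), take `G' = G_a`. -/
def S_GEN : Prop := ∀ (n : ℕ) (I Q : Ideal (MvPolynomial (Fin n) ℂ)) (G : MvPolynomial (Fin n) ℂ),
  I.IsPrime → HomId I → HomId Q → Q = I ⊔ Ideal.span {G} → I < Q →
  ∃ G', IsForm G' ∧ Q = I ⊔ Ideal.span {G'}

/-- **MIN** (80 lines). Let `Q` be a minimal prime of `span {F, t}`. By Krull its height is at most two, and it is at least
two as `⊥ < (F) < Q` are primes. The homogeneous core of `Q` (the ideal generated by the forms in `Q`,
`Ideal.homogeneousCore`, `Ideal.IsPrime.homogeneousCore`) is a prime ideal which contains `F` and `t`, and so equal to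
`Q` by minimality. Hence `Q` is homogeneous. -/
def S_MIN : Prop := ∀ (n : ℕ) (F t : MvPolynomial (Fin n) ℂ), Irreducible F → IsForm F →
  IsForm t → ¬ F ∣ t → Ideal.span {F, t} ≠ ⊤ →
  ∃ Q : Ideal (MvPolynomial (Fin n) ℂ), Q.IsPrime ∧ HomId Q ∧ F ∈ Q ∧ t ∈ Q ∧ Q.height = 2

/-- all homogeneous primes of height two containing `F` are principal modulo `F` -/
def AllPrincipal {n : ℕ} (F : MvPolynomial (Fin n) ℂ) : Prop :=
  ∀ Q : Ideal (MvPolynomial (Fin n) ℂ), Q.IsPrime → HomId Q → F ∈ Q → Q.height = 2 →
    ∃ G, Q = Ideal.span {F, G}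

/-- **CAN** (100 lines), from `GEN` and `MIN`. Induction on the degree of `t`. If `t` is a constant (not zero) this
is clear. Otherwise `span {F, t} ≠ ⊤` (both are forms of positive degree, so they vanish at `0`; `F` is
not a constant as it is irreducible). By `MIN`, the hypothesis and `GEN` (with `I = span {F}`) there is a homogeneous prime
`Q = span {F, G}` of height two with `t ∈ Q`, `G` a form. `G` is not a constant (as `Q ≠ ⊤`) and `G ∉ (F)`
(the height of `(F)` is at most one). So `t = u F + v G`, and we may take `v` to be a form of degree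
`deg t - deg G < deg t` (components), `v ∉ (F)`. Now `v (G r) ∈ span {F, g}`, by induction `G r ∈ span {F, g}`,
`G r = a F + b g`. Then `b g ∈ Q`, `g ∉ Q`, so `b ∈ Q`, `b = c F + e G`, so `G (r - e g) ∈ (F)`, and
`r - e g ∈ (F)`, as `F` is prime and `G ∉ (F)`. -/
def S_CAN : Prop := ∀ (n : ℕ) (F g : MvPolynomial (Fin n) ℂ), Irreducible F → IsForm F →
  AllPrincipal F →
  (∀ Q : Ideal (MvPolynomial (Fin n) ℂ), Q.IsPrime → HomId Q → F ∈ Q → Q.height = 2 → g ∉ Q) →
  ∀ t r : MvPolynomial (Fin n) ℂ, IsForm t → ¬ F ∣ t → t * r ∈ Ideal.span {F, g} →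
    r ∈ Ideal.span {F, g}

/-- **DIV** (80 lines), from `SUP`, `EUC`, `GEN`. Consider all `g` as in `EUC` (with `I = span {F}`) and take one for which
the number `b` with `HiDeg I g b` is minimal. Suppose `g ∈ Q` for some homogeneous prime `Q` of height two containing `F`. By
hypothesis and `GEN` `Q = span {F, G}` with a form `G` of degree `m`, not a constant, not in `(F)`. So
`g = u F + v G`; `v G ∈ P`; the form `G` is not in `P`, so `v ∈ P`, and `v ∉ (F)`. As
`span {F, g} ≤ span {F, v}` also `v` has the property of `EUC`, and by `SUP` `HiDeg I v b'` with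
`b' + m = b`, `b' < b`: a contradiction. -/
def S_DIV : Prop := ∀ (n : ℕ) (F : MvPolynomial (Fin n) ℂ) (P : Ideal (MvPolynomial (Fin n) ℂ)),
  Irreducible F → IsForm F → AllPrincipal F → P.IsPrime → Ideal.span {F} < P →
  (∀ t ∈ P, IsForm t → F ∣ t) →
  ∃ g ∈ P, (∀ p ∈ P, ∃ t, IsForm t ∧ ¬ F ∣ t ∧ t * p ∈ Ideal.span {F, g}) ∧
    ∀ Q : Ideal (MvPolynomial (Fin n) ℂ), Q.IsPrime → HomId Q → F ∈ Q → Q.height = 2 → g ∉ Q

/-- **RED** (80 lines), from `CAN` and `DIV`. Suppose that all homogeneous primes of height two containing `F` are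
principal modulo `F`, and let `P` be a prime ideal of height two containing `F`. If `P` is homogeneous we are done. Otherwise the
homogeneous core `P'` of `P` is a prime ideal contained in `P` and different from `P`, `F ∈ P'`. So the height of
`P'` is less than two, and `P' = (F)` (otherwise `⊥ < (F) < P' < P` would be a chain of primes). So all
forms in `P` are in `(F)`, `DIV` gives `g ∈ P`, and by `CAN` `P = span {F, g}`. -/
def S_RED : Prop := ∀ (n : ℕ) (F : MvPolynomial (Fin n) ℂ) (P : Ideal (MvPolynomial (Fin n) ℂ)),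
  Irreducible F → IsForm F → P.IsPrime → F ∈ P → P.height = 2 →
  (∀ G : MvPolynomial (Fin n) ℂ, P ≠ Ideal.span {F, G}) →
  ∃ Q : Ideal (MvPolynomial (Fin n) ℂ), Q.IsPrime ∧ HomId Q ∧ F ∈ Q ∧ Q.height = 2 ∧
    ∀ G : MvPolynomial (Fin n) ℂ, Q ≠ Ideal.span {F, G}

end

end Pool.Agent.NOD.S5
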