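import Pool.Agent.NOD.Defs
import Pool.Agent.NOD.S5

/-!
# Project NOD (MP_c2352a_ag, frozen S00427), section S1: commutative algebra

Piece `XXX`: file `Pool/Agent/NOD/S1/XXX.lean`, importing `Pool.Agent.NOD.S1` and (for homogeneous ideals)
`Pool.Agent.NOD.S1.Basic`, namespace `Pool.Agent.NOD.S1`, theorem `t_XXX : S_XXX`; if the docstring says
from `AAA`, `BBB` then `t_XXX (h1 : S_AAA) (h2 : S_BBB) : S_XXX`. All pieces are independent of each other.
Notation of the paper proofs: `A = ℂ[x_0, …, x_4]`, `m` the ideal of all variables,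
NZD mod I is `NZD I`, `(f) = Ideal.span (Set.range f)`.
Basic.lean contains proved lemmas: `homId_span`, `HomId.sup`, `homId_iff`, `exists_core`, `homComp_mul_left`,
`PReg.comp`, `mem_sup_span_singleton'`, ... see the end of this file for the list.
-/

set_option autoImplicit false

namespace Pool.Agent.NOD.S1

open MvPolynomial

/-- `q` does not contain all variables. -/
def HasM (q : Ideal A) : Prop := ∃ i : Fin 5, X i ∉ q

/-! ## Regular sequences of forms -/

/-- **INS** (taken by helper6). A sequence of forms of positive degree: if all but one are `PReg` and the last one is NZD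
modulo all the others, then the whole sequence is `PReg`. -/
def S_INS : Prop := ∀ (n : ℕ) (h : Fin (n + 1) → A) (b : Fin (n + 1) → ℕ) (j : Fin (n + 1)),
  (∀ i, 0 < b i) → (∀ i, (h i).IsHomogeneous (b i)) → PReg (h ∘ j.succAbove) →
  NZD (Ideal.span (Set.range (h ∘ j.succAbove))) (h j) → PReg h

/-- **POW** (80 lines): `theorem t_POW : Pool.Agent.NOD.S_POW` (the statement is in Defs.lean):
`PReg f → PReg (fun i => f i ^ a i)`. No homogeneity is needed.
Proof. It suffices to change one exponent at a time: show `PReg f → PReg (Function.update f j (f j ^ k))`, then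
induct over a `Finset` of changed indices (`Finset.univ` at the end).
Let `f' = update f j (f j ^ k)`, `S`, `i ∉ S`. If `j ∉ S` and `i ≠ j` nothing changed. If `i = j` (so `j ∉ S`):
`f j` NZD mod `I` implies `f j ^ k` NZD mod `I` (induction on `k`). If `j ∈ S`: put `I = span (f '' (S \ {j}))`, `a = f j`,
`c = f i`; `a` is NZD mod `I`, `c` is NZD mod `I ⊔ span {a}` . Claim: `c` is NZD mod
`I ⊔ span {a ^ k}`, induction on `k`: `k = 0`: the ideal is `⊤`. Step: `c x ∈ I ⊔ (a ^ (k+1)) ⊆ I ⊔ (a)`, so
`x = a x' + i₁`, `c x = a^(k+1) y + i₂`, so `a (c x' - a^k y) ∈ I`, `c x' ∈ I ⊔ (a^k)`, so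
`x' ∈ I ⊔ (a^k)` and `x ∈ I ⊔ (a^(k+1))`. -/
def S_POW : Prop := Pool.Agent.NOD.S_POW

/-- **LNP** (80 lines). Ideals generated by linear forms.
(a) An ideal generated by linear forms is prime. Proof: let `V ⊆ A_1` be the ℂ-span of `T`, `W` a complement of `V` in
`A_1 = homogeneousSubmodule (Fin 5) ℂ 1` (or: take a linear projection `π : A → A`
onto `V`, `Submodule.exists_isCompl` / `LinearMap.exists_leftInverse...`, `Submodule.linearProjOfIsCompl`), `ψ = id - π` on `A_1`:
`ψ` vanishes on `V`, `x - ψ x ∈ V`. Let `φ = aeval (fun i => ψ (X i)) : A →ₐ[ℂ] A`. Then `φ ℓ = ψ ℓ` for linear forms `ℓ`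
(`ℓ = ∑ c_i X_i`), so `φ t = 0` for `t ∈ T`, and `g - φ g ∈ span T` for all `g` (the two algebra maps
`A → A / span T`, `mk` and `mk ∘ φ`, agree on the `X i`). So `span T = ker φ`, prime as `A` is a domain
(`RingHom.ker_isPrime`).
(b) linearly independent linear forms are `PReg`: `(f_S)` is prime, and `f i ∉ (f_S)` for `i ∉ S`: a linear form in `(f_S)` is a
ℂ-combination of the `f j`, `j ∈ S` (take the component of degree 1 of `∑ a_j f_j`; or: the kernel of `φ` in degree 1 is `V`).
(c) if `f : Fin r → A` are linear forms and all `X l ∈ span (range f)`, then `5 ≤ r` (dimension of `A_1`, or of the span of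
the `X l`, `r` elements span it by the same remark as in (b)). -/
def S_LNP : Prop :=
  (∀ T : Set A, (∀ t ∈ T, t.IsHomogeneous 1) → (Ideal.span T).IsPrime) ∧
  (∀ (n : ℕ) (f : Fin n → A), (∀ j, (f j).IsHomogeneous 1) → LinearIndependent ℂ f → PReg f) ∧
  (∀ (r : ℕ) (f : Fin r → A), (∀ j, (f j).IsHomogeneous 1) →
    (∀ l : Fin 5, X l ∈ Ideal.span (Set.range f)) → 5 ≤ r)

/-- **LAV** (60 lines). Linear avoidance. Proof: `L : (Fin 5 → ℂ) →ₗ[ℂ] A, a ↦ ∑ a_i X_i`. The subspaces
`{a | L a ∈ q}` (`q ∈ Q`; proper because some `X i ∉ q`) and `{a | ∑ a_i z_i = 0}` (`z ∈ zs`; proper because `z ≠ 0`) do not cover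
`Fin 5 → ℂ`: `Subspace.biUnion_ne_univ_of_top_notMem` (Mathlib, GroupTheory/CosetCover). -/
def S_LAV : Prop := ∀ (Q : Finset (Ideal A)) (zs : Finset (Fin 5 → ℂ)), (∀ q ∈ Q, HasM q) →
  (∀ z ∈ zs, z ≠ 0) →
  ∃ y : A, y.IsHomogeneous 1 ∧ (∀ q ∈ Q, y ∉ q) ∧ ∀ z ∈ zs, eval z y ≠ 0

/-- **LRG** (80 lines), from `LAV`. If `A / I` has no socle there is a linear nonzerodivisor.
Proof: the set of associated primes of `A ⧸ I` is finite (`associatedPrimes.finite`), and their union is the
set of zero divisors (`biUnion_associatedPrimes_eq_zero_divisors`). If `q` is one of them, `q = {x | x g ∈ I}` for some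
`g ∉ I`. If all `X l ∈ q`, then `X l * g ∈ I` for all `l`, and so for every homogeneous component `g_k` of `g`
(`I` is homogeneous, `homogeneousComponent (k+1) (X l * g) = X l * homogeneousComponent k g`), so `g_k ∈ I` for all `k` by
hypothesis and `g ∈ I`, contradiction. So `HasM q`. Apply `LAV` to the associated primes and `Q`. -/
def S_LRG : Prop := ∀ I : Ideal A, HomId I →
  (∀ (g : A) (k : ℕ), g.IsHomogeneous k → (∀ l : Fin 5, X l * g ∈ I) → g ∈ I) →
  ∀ (Q : Finset (Ideal A)) (zs : Finset (Fin 5 → ℂ)), (∀ q ∈ Q, HasM q) → (∀ z ∈ zs, z ≠ 0) →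
  ∃ y : A, y.IsHomogeneous 1 ∧ NZD I y ∧ (∀ q ∈ Q, y ∉ q) ∧ ∀ z ∈ zs, eval z y ≠ 0

/-- **EXC** (60 lines). Exchange. Proof: `y ∈ m`, so `y g ∈ I + (f)` (`y` is a combination of the `X l`), write
`y g = f h + i₀` and `X_l g = f h_l + i_l` with `i₀, i_l ∈ I`. If `i + 1 < b`: the component of degree `i+1` of the first equation gives
`y g ∈ I`, so `g ∈ I`, contradiction. So `b ≤ i + 1` and taking components of degree `i+1` we may assume that `h` is homogeneous of
degree `i + 1 - b` (`I` is homogeneous; `f` homogeneous of degree `b`). Then `f (X_l h - y h_l) ∈ I`, so `X_l h - y h_l ∈ I`: so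
`X_l h ∈ I + (y)`. If `h ∈ I + (y)`, `h = y h' + i'`, then `y (g - f h') ∈ I`, so `g ∈ I + (f)`, contradiction. -/
def S_EXC : Prop := ∀ (I : Ideal A) (f y g : A) (b i : ℕ), HomId I → NZD I f → NZD I y →
  f.IsHomogeneous b → y.IsHomogeneous 1 → g.IsHomogeneous i →
  (∀ l : Fin 5, X l * g ∈ I ⊔ Ideal.span {f}) → g ∉ I ⊔ Ideal.span {f} →
  b ≤ i + 1 ∧ ∃ h : A, h.IsHomogeneous (i + 1 - b) ∧ (∀ l : Fin 5, X l * h ∈ I ⊔ Ideal.span {y}) ∧
    h ∉ I ⊔ Ideal.span {y}

/-- **SOG** (120 lines), from `INS`, `LNP`, `LRG`, `EXC`. Socle degrees of complete intersections.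
Proof by induction on the number `c` of `j` with `b j ≠ 1` (for all `r ≤ 5`, `f`, `b`, `g`, `i` at the same time).
`c = 0`: all `f j` are linear; `(f)` is prime by `LNP` (a) and `g ∉ (f)`, so all `X l ∈ (f)`, so `5 ≤ r` by `LNP` (c), `r = 5`. If
`i > 0` then `g ∈ m ⊆ (f)` (a form of positive degree is in the ideal of the `X l`), contradiction. So `i = 0 = ∑ (b j - 1)`.
`c > 0`: `r = r' + 1`, choose `j` with `b j ≠ 1`. Let `I = span (range (f ∘ j.succAbove))`, these `r' ≤ 4` forms are `PReg`
(`PReg.comp`) and have `c - 1` indices with `b ≠ 1`; by induction `A / I` has no homogeneous socle element (it would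
give `r' = 5`). By `LRG` (with `Q = ∅`, `zs = ∅`) there is a linear form `y` NZD mod `I`. `f j` is NZD mod `I`. By `EXC` we get `h` of degree
`i + 1 - b j`, a socle element modulo `I + (y)`. The sequence `Function.update f j y` is `PReg` by `INS`, with degrees
`Function.update b j 1`, its ideal is `I + (y)`; by induction `r = 5` and `i + 1 - b j = ∑_{k ≠ j} (b k - 1)`. -/
def S_SOG : Prop := ∀ (r : ℕ) (f : Fin r → A) (b : Fin r → ℕ) (i : ℕ) (g : A), r ≤ 5 →
  (∀ j, 0 < b j) → (∀ j, (f j).IsHomogeneous (b j)) → PReg f → g.IsHomogeneous i →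
  (∀ l : Fin 5, X l * g ∈ Ideal.span (Set.range f)) → g ∉ Ideal.span (Set.range f) →
  r = 5 ∧ i = ∑ j, (b j - 1)

/-- **LNF** (40 lines), from `SOG`, `LRG`, `INS`. For at most four forms there is a further linear form. Proof: `SOG` with
`r ≤ 4` says that `A / (f)` has no homogeneous socle element, `LRG` gives `y`, `INS` (with `j = 0`) gives
`PReg (Fin.cons y f)`. -/
def S_LNF : Prop := ∀ (r : ℕ) (f : Fin r → A) (b : Fin r → ℕ), r ≤ 4 → (∀ j, 0 < b j) →
  (∀ j, (f j).IsHomogeneous (b j)) → PReg f →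
  ∀ (Q : Finset (Ideal A)) (zs : Finset (Fin 5 → ℂ)), (∀ q ∈ Q, HasM q) → (∀ z ∈ zs, z ≠ 0) →
  ∃ y : A, y.IsHomogeneous 1 ∧ NZD (Ideal.span (Set.range f)) y ∧ (∀ q ∈ Q, y ∉ q) ∧
    (∀ z ∈ zs, eval z y ≠ 0) ∧ PReg (Fin.cons y f : Fin (r + 1) → A)

/-- **NOF** (50 lines), from `LNF`, `HTR`. Noether forms, `theorem t_NOF (h1 : S_LNF) (h2 : S_HTR) : Pool.Agent.NOD.S_NF`.
Proof: `P` does not contain all variables because its height is `2 < 5` (`HTR` (b)). Apply `LNF` three times, the first time
with `Q = {P}`; permute with `PReg.comp`. -/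
def S_NOF : Prop := Pool.Agent.NOD.S_NF

/-! ## Heights -/

/-- **HTR** (90 lines), from `LNP`. (a) A prime ideal containing a regular sequence of length `n` has height at least `n`. Proof: induction
on `n`: for `n + 1` let `q` contain all `f j`, let `p ≤ q` be a minimal prime over `I = span (f '' first n)`
(`Ideal.exists_minimalPrimes_le`). By induction `n ≤ p.height`. The last `f` is not in `p`: as `p` is a minimal prime over `I`, it
is an associated prime of `A ⧸ I`
(`Module.associatedPrimes.minimalPrimes_annihilator_subset_associatedPrimes`, `Ideal.annihilator_quotient`), so its elements are zero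
divisors mod `I`. So `p < q` and `Ideal.height_add_one_le_of_lt_of_isPrime`.
(b) the `X i` are `PReg` by `LNP` (b), so a prime containing all of them has height at least 5.
(c) if `z ≠ 0`, a prime containing all linear forms vanishing at `z` has height at least 4: with `z i₀ ≠ 0` the four forms
`C (z i₀) * X j - C (z j) * X i₀`, `j = i₀.succAbove k`, are linearly independent (coefficients of the `X (i₀.succAbove k)`), use `LNP` (b). -/
def S_HTR : Prop :=
  (∀ (n : ℕ) (f : Fin n → A), PReg f → ∀ q : Ideal A, q.IsPrime → (∀ j, f j ∈ q) →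
    (n : ℕ∞) ≤ q.height) ∧
  (∀ q : Ideal A, q.IsPrime → (∀ i : Fin 5, X i ∈ q) → 5 ≤ q.height) ∧
  (∀ (z : Fin 5 → ℂ) (q : Ideal A), z ≠ 0 → q.IsPrime →
    (∀ ℓ : A, ℓ.IsHomogeneous 1 → eval z ℓ = 0 → ℓ ∈ q) → 4 ≤ q.height)

/-- **UNM** (120 lines), from `LNF`. Unmixedness. Proof: descending induction on `r`. `r = 5` (or more):
`q.height ≤ ringKrullDim A = 5` (`Ideal.height_le_ringKrullDim_of_isPrime`, `MvPolynomial.ringKrullDim_of_isNoetherianRing`). `r ≤ 4`:
put `I = (f)`, let `y` be the linear form of `LNF` (`Q = ∅`, `zs = ∅`). Let `N = {x | ∀ a ∈ q, a x ∈ I}`, a homogeneous ideal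
(as `q`, `I` are homogeneous) containing `g ∉ I`.
There is `x ∈ N` with `x ∉ I + (y)`: otherwise `N ⊆ I + y N` (`x = y x' + i`, then `a y x' ∈ I`, so `a x' ∈ I`
for `a ∈ q`), and then every homogeneous `x ∈ N` is in `I`, by induction on the degree (component: `x = y x'_{k-1} + i_k`), so
`N ⊆ I`, contradiction. Now `x̄ ≠ 0` in `A ⧸ (I + (y))`, killed by `q` and `y`; there is an associated prime `q' = {a | a x₁ ∈ I + (y)}`
(`x₁ ∉ I + (y)`) containing the annihilator of `x̄` (`exists_le_isAssociatedPrime_of_isNoetherianRing`), so `q ⊆ q'`, `y ∈ q'`. Let `q''` be the homogeneous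
core of `q'` (`exists_core` in Basic.lean): a homogeneous prime containing `q` and `y`, and `q'' x₁ ⊆ I + (y)`.
By induction for `Fin.cons y f`: `q''.height ≤ r + 1`. And `q < q''`: `y ∉ q`, because `y g ∈ I` would give `g ∈ I`. So
`q.height + 1 ≤ q''.height` (`Ideal.height_add_one_le_of_lt_of_isPrime`). -/
def S_UNM : Prop := ∀ (r : ℕ) (f : Fin r → A) (b : Fin r → ℕ), r ≤ 5 → (∀ j, 0 < b j) →
  (∀ j, (f j).IsHomogeneous (b j)) → PReg f →
  ∀ (q : Ideal A) (g : A), q.IsPrime → HomId q → (∀ a ∈ q, a * g ∈ Ideal.span (Set.range f)) →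
  g ∉ Ideal.span (Set.range f) → q.height ≤ r

/-- **HTJ** (100 lines), from `HTR`. A prime containing all partial derivatives has height at least four. Proof: if for some `z ∈ zs`
all linear forms vanishing at `z` are in `q`, use `HTR` (c). Otherwise choose for each `z ∈ zs` a linear form `ℓ_z ∉ q` with
`ℓ_z(z) = 0`, and let `G = ∏ ℓ_z ∉ q`. For each variable `X_i`, `X_i G` vanishes at all common zeros of the partial derivatives
(such a point is `0` or `c • z`, `Sing.cover`), so a power of it is in the ideal generated by them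
(`MvPolynomial.vanishingIdeal_zeroLocus_eq_radical`), so `X_i G ∈ q`, so `X_i ∈ q` for all `i`: use `HTR` (b). -/
def S_HTJ : Prop := ∀ (F : A) (zs : Finset (Fin 5 → ℂ)), Sing F zs → ∀ q : Ideal A, q.IsPrime →
  (∀ i : Fin 5, pderiv i F ∈ q) → 4 ≤ q.height

/-- **IRR** (120 lines), from `HTR`, `LAV`: `theorem t_IRR (h1 : S_HTR) (h2 : S_LAV) : Pool.Agent.NOD.S_IRR`. `F ≠ 0` because otherwise
all points would be singular (`zs` is finite, ℂ infinite), `F` is not a unit since its degree is `d ≥ 3`. Let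
`F = a b`; factors of a nonzero homogeneous polynomial are homogeneous (lowest and highest components; there may be a proof in Mathlib or in the
repository: grep `IsHomogeneous.*of_mul`, `homogeneous_of_dvd`), of degrees `k + l = d`. If `k = 0` or `l = 0` one of them is a unit.
Suppose `k, l > 0`. By `LAV` there is a linear form `y` with `y(z) ≠ 0` for `z ∈ zs`. Claim: `a, b, y` have a common zero `p ≠ 0`.
Otherwise by the Nullstellensatz (`MvPolynomial.vanishingIdeal_zeroLocus_eq_radical`) all `X i` are in the radical of `(a, b, y)`. These three forms vanish at `0`,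
so the ideal is proper; let `q` be a minimal prime over it, `q` contains all `X i`, so `5 ≤ q.height` by `HTR` (b), but `q.height ≤ 3` by Krull's
height theorem (`Ideal.height_le_spanFinrank`/`Ideal.height_le_spanRank_toENat...` in Mathlib/RingTheory/Ideal/KrullsHeightTheorem). At `p` all partial derivatives of
`F = a b` vanish, so `p = c • z` with `z ∈ zs`, `c ≠ 0`, and `y(p) = c y(z) ≠ 0`, contradiction. So `F` is irreducible, and prime
(`Irreducible.prime`, UFD). -/
def S_IRR : Prop := Pool.Agent.NOD.S_IRR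

/-! ## Local structure -/

/-- **LC1** (80 lines). An element of `m \ m²` is part of a minimal generating system. Proof: the cotangent space `V` has dimension
`n + 1` over the residue field (`IsRegularLocalRing.iff_finrank_cotangentSpace`) and the class of `f` is nonzero
(`Ideal.toCotangent_eq_zero`). So there are `n` further elements `v_i` of `V` such that the class of `f` and the `v_i` span `V` (basis
extension, `LinearIndependent.extend`, or induction), lift them (`Ideal.toCotangent_surjective`) and use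
`IsLocalRing.CotangentSpace.span_image_eq_top_iff`. -/
def S_LC1 : Prop := ∀ (R : Type) [CommRing R] [IsRegularLocalRing R] (n : ℕ),
  ringKrullDim R = ((n + 1 : ℕ) : WithBot ℕ∞) → ∀ f ∈ IsLocalRing.maximalIdeal R,
  f ∉ IsLocalRing.maximalIdeal R ^ 2 →
  ∃ s : Fin n → R, IsLocalRing.maximalIdeal R = Ideal.span (insert f (Set.range s))

/-- **LC2** (150 lines). Let `R` be a noetherian local ring, `m = (f, s₁, s₂)`, `P ≠ m` a prime ideal, `f ∈ P`. Then
`P = (f, g)` for some `g`. Proof: pass to `R̄ = R / (f)`, `m̄ = (s₁, s₂)`, `P̄ ≠ m̄`; one of `s₁, s₂` is not in `P̄`, say `s₁` (symmetry).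
`R' = R̄ / (s₁)` is a noetherian local ring whose maximal ideal is generated by `t = s₂`. Every nonzero `x ∈ R'` is a unit times
a power of `t` (Krull: `⋂ m'^k = 0`, `Ideal.iInf_pow_eq_bot_of_isLocalRing`: take `k` maximal with `x ∈ m'^k = (t^k)`, `x = t^k a`,
`a ∉ m'`), so every ideal of `R'` is principal, generated by one of its elements: the image of `P̄` in `R'` is generated by the image of some `g ∈ P̄`.
So `P̄ ⊆ (g) + (s₁)`: for `x ∈ P̄`, `x - a g = s₁ c ∈ P̄`, `c ∈ P̄` as `P̄` is prime and `s₁ ∉ P̄`. So `P̄ = (g) + s₁ P̄`, and by Nakayama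
(`Submodule.le_of_le_smul_of_le_jacobson_bot`) `P̄ = (g)`. -/
def S_LC2 : Prop := ∀ (R : Type) [CommRing R] [IsLocalRing R] [IsNoetherianRing R] (f s t : R)
  (P : Ideal R), IsLocalRing.maximalIdeal R = Ideal.span {f, s, t} → P.IsPrime → f ∈ P →
  P ≠ IsLocalRing.maximalIdeal R → ∃ g ∈ P, P = Ideal.span {f, g}

/-- **LC3** (50 lines). The second generator can be taken from any generating set. Proof: `R` noetherian local, `P = (f, g) = (T)`. If
every `t ∈ T` is in `(f) + m P` then `P = (f) + m P`, `P = (f)` by Nakayama, take `f`. Otherwise let `t ∈ T`, `t ∉ (f) + m P`, `t = a f + c g`;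
`c` is not in `m`, so it is a unit and `g ∈ (f, t)`. -/
def S_LC3 : Prop := ∀ (R : Type) [CommRing R] [IsLocalRing R] [IsNoetherianRing R] (f g : R)
  (P : Ideal R) (T : Set R), P = Ideal.span {f, g} → P = Ideal.span T → P ≠ ⊤ →
  ∃ t ∈ insert f T, P = Ideal.span {f, t}

/-- **LC4** (70 lines). `F` is not in the square of the maximal ideal of `A_q` if a partial derivative is not in `q`. Proof:
if `F / 1 ∈ (q A_q)² = q² A_q` (`Localization.AtPrime.map_eq_maximalIdeal`, `Ideal.map_pow`, `IsLocalization.mem_map_algebraMap_iff`), there is `u ∉ q`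
with `u F ∈ q²`. A derivation maps `q²` to `q`, so `u ∂F + F ∂u ∈ q`, and as `F ∈ q`: `u ∂F ∈ q`, `∂F ∈ q`, contradiction. -/
def S_LC4 : Prop := ∀ (F : A) (q : Ideal A) [q.IsPrime] (i : Fin 5), F ∈ q → pderiv i F ∉ q →
  algebraMap A (Localization.AtPrime q) F ∉
    IsLocalRing.maximalIdeal (Localization.AtPrime q) ^ 2

/-- **LOC** (150 lines), from `HTJ`, `LC1`, `LC2`, `LC3`, `LC4`. Local structure of `P` at a homogeneous prime of height at most 3.
Proof. If some homogeneous `p ∈ P` is not in `q`, take `g = u = p`. Otherwise `P ≤ q` (`P` is homogeneous). Let `R = Localization.AtPrime q`, a regular local ring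
(`MvPolynomial.isRegularRing_of_isRegularRing`, instance; ℂ is a Dedekind domain/field) of dimension `q.height` (`IsLocalization.AtPrime.ringKrullDim_eq_height`).
Some `∂F/∂x_i ∉ q` by `HTJ` (`q.height ≤ 3 < 4`), so `F ∉ m_R²` by `LC4`, `F ∈ m_R`. `2 = P.height ≤ q.height ≤ 3`. If `q.height = 2` then `P = q` (heights: `Ideal.height_strict_mono...`)
and `LC1` with `n = 1` gives `P R = m_R = (F, s)`. If `q.height = 3`, `P ≠ q`, `P R` is a prime `≠ m_R`, `LC1` (`n = 2`) and `LC2` give `P R = (F, s)`.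
Apply `LC3` with `T` the image of the homogeneous elements of `P` (they generate `P`, so `T` generates `P R`; `F` is homogeneous too): `P R = (F, g)` with `g ∈ P` homogeneous. `P` is finitely generated, so there
is `u ∉ q` with `u P ⊆ (F, g)` (clear denominators for the generators, `IsLocalization.mem_map_algebraMap_iff`, multiply). As `P` and `(F, g)`
are homogeneous, `u_k P ⊆ (F, g)` for every component `u_k` of `u` (test on homogeneous `p ∈ P`), and some `u_k ∉ q`. -/
def S_LOC : Prop := ∀ (d : ℕ) (F : A) (zs : Finset (Fin 5 → ℂ)) (P q : Ideal A),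
  F.IsHomogeneous d → Sing F zs → P.IsPrime → HomId P → F ∈ P → P.height = 2 →
  q.IsPrime → HomId q → F ∈ q → q.height ≤ 3 →
  ∃ g ∈ P, (∃ n, g.IsHomogeneous n) ∧ ∃ u, (∃ k, u.IsHomogeneous k) ∧ u ∉ q ∧
    ∀ p ∈ P, u * p ∈ Ideal.span {F, g}

/-! ## Charts -/

/-- **AVO** (120 lines). Homogeneous prime avoidance. Proof: replace each `q` by its homogeneous core (`exists_core` in Basic.lean; the hypotheses are inherited: `X i ∉ q`
and `I ≤ core` would give `I ≤ q`; a homogeneous `f` outside the core is outside `q`), so assume that all `q ∈ Q` are homogeneous primes. Strong induction on the cardinality of `Q`.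
If there are `q ≠ q'` in `Q` with `q ≤ q'`, remove `q` (an element outside `q'` is outside `q`). Otherwise the `q`'s are
pairwise incomparable: for `q ≠ q'` there is a homogeneous element of `q'` outside `q`; and there is a homogeneous element of `I` outside `q`;
the product of all these is a homogeneous `a_q ∈ I`, in all `q' ≠ q`, not in `q`; multiply it by an `X i ∉ q` to have positive degree `n_q`. Let `N = ∏ n_q` (positive); then
`f = ∑_q a_q ^ (N / n_q)` is homogeneous of degree `N`, in `I`, and not in any `q` (exactly one summand is not in `q`). (`Q = ∅`: `f = 0`.) -/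
def S_AVO : Prop := ∀ (I : Ideal A) (Q : Finset (Ideal A)), HomId I →
  (∀ q ∈ Q, q.IsPrime ∧ HasM q ∧ ¬ I ≤ q) →
  ∃ f ∈ I, (∃ n, 0 < n ∧ f.IsHomogeneous n) ∧ ∀ q ∈ Q, f ∉ q

/-- **NAK** (60 lines). Nakayama at a prime. Proof: work in the localization `A_q` (noetherian local, maximal ideal `q A_q`): the hypothesis gives
`P A_q ⊆ J A_q + (q A_q)(P A_q)`, so `P A_q ⊆ J A_q` by Nakayama (`Submodule.le_of_le_smul_of_le_jacobson_bot`), so each of the finitely many
generators of `P` is multiplied into `J` by some element outside `q`; take the product. (Or use the determinant trick directly.) -/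
def S_NAK : Prop := ∀ (P J q : Ideal A) (s : A), q.IsPrime → s ∉ q →
  (∀ p ∈ P, s * p ∈ J ⊔ q * P) → ∃ u, u ∉ q ∧ ∀ p ∈ P, u * p ∈ J

/-- **GCH** (120 lines), from `NAK`, `LAV`. One `g` for finitely many primes. Proof: strong induction on the cardinality of `Q`; if `q ≤ q'` for two
different members, remove `q` (an element `u ∉ q'` is not in `q`). So assume that the members are pairwise incomparable. For each `q ∈ Q` let `g_q`, `u_q` be as in the
hypothesis, and let `w_q` be homogeneous, in all `q' ∈ Q`, `q' ≠ q`, not in `q` (product of homogeneous elements of `q' \ q`; all `q` are homogeneous). By `LAV` there is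
a linear form `y` outside all `q ∈ Q`. Let `D` be larger than all degrees of `w_q g_q`, and `g = ∑_q y ^ (D - deg (w_q g_q)) * w_q * g_q`, homogeneous of degree
`D`, in `P`. Fix `q`; `c = y^(..) w_q ∉ q` and `g - c g_q ∈ q P` (the other `w_{q'} ∈ q`). So for `p ∈ P`: `u_q c p ∈ (F, c g_q) ⊆ (F, g) + q P`. Now `NAK` with `J = (F, g)`, `s = u_q c`. -/
def S_GCH : Prop := ∀ (F : A) (P : Ideal A) (Q : Finset (Ideal A)), P.IsPrime → HomId P → F ∈ P →
  (∀ q ∈ Q, q.IsPrime ∧ HomId q ∧ HasM q ∧ ∃ g ∈ P, (∃ n, g.IsHomogeneous n) ∧ ∃ u, u ∉ q ∧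
    ∀ p ∈ P, u * p ∈ Ideal.span {F, g}) →
  ∃ g ∈ P, (∃ n, g.IsHomogeneous n) ∧ ∀ q ∈ Q, ∃ u, u ∉ q ∧ ∀ p ∈ P, u * p ∈ Ideal.span {F, g}

/-- **CH1** (120 lines), from `LOC`, `UNM`, `HTR`, `AVO`, `GCH`, `INS`: one step in the construction of the charts: two sequences of at most three forms
`f`, `f'` containing `F` can be extended by the same `u`. Proof: let `I = (f)`. The associated primes of `A ⧸ I` are finitely many; for each of them, `q = {x | x g ∈ I}`, `g ∉ I`, let `q'` be
the homogeneous core (`exists_core`): a homogeneous prime with `q' g ⊆ I`, so `q'.height ≤ r ≤ 3` by `UNM`, and `F ∈ q'` (`F ∈ q` is homogeneous). The same for `f'`. Let `Q` be the set of all these `q'` (for `f` and for `f'`) and `P`.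
(It is convenient to prove first a lemma for one sequence: there is a finite set `Q` of homogeneous primes of height `≤ 3` containing `F` such that every homogeneous `u` outside all of them is NZD mod `(f)`.)
`HasM q'` by `HTR` (b). By `LOC` the hypothesis of `GCH` holds for `Q`; let `g` be as in `GCH`. The ideal
`K = {u | ∀ p ∈ P, u p ∈ (F, g)}` is homogeneous (`exists_colon`) and not contained in any `q' ∈ Q`. By `AVO` there is `u ∈ K` homogeneous of positive degree, outside all
`q' ∈ Q`; being homogeneous it is outside all associated primes `q`, so NZD mod `(f)`, `(f')` (`biUnion_associatedPrimes_eq_zero_divisors`). `INS` (`j = 0`) gives `PReg (Fin.cons u f)`. -/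
def S_CH1 : Prop := ∀ (d : ℕ) (F : A) (zs : Finset (Fin 5 → ℂ)) (P : Ideal A), F.IsHomogeneous d →
  Sing F zs → P.IsPrime → HomId P → F ∈ P → P.height = 2 →
  ∀ (r : ℕ) (f : Fin r → A) (b : Fin r → ℕ), r ≤ 3 → (∀ j, 0 < b j) →
  (∀ j, (f j).IsHomogeneous (b j)) → PReg f → F ∈ Ideal.span (Set.range f) →
  ∀ (r' : ℕ) (f' : Fin r' → A) (b' : Fin r' → ℕ), r' ≤ 3 → (∀ j, 0 < b' j) →
  (∀ j, (f' j).IsHomogeneous (b' j)) → PReg f' → F ∈ Ideal.span (Set.range f') →
  ∃ (u g : A) (k n : ℕ), 0 < k ∧ u.IsHomogeneous k ∧ g.IsHomogeneous n ∧ g ∈ P ∧ u ∉ P ∧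
    (∀ p ∈ P, u * p ∈ Ideal.span {F, g}) ∧ PReg (Fin.cons u f : Fin (r + 1) → A) ∧
    PReg (Fin.cons u f' : Fin (r' + 1) → A)

/-- **CHA** (120 lines), from `IRR`, `CH1`, `LNF`, `INS`: `theorem t_CHA (h1 : Pool.Agent.NOD.S_IRR) (h2 : S_CH1) (h3 : S_LNF) (h4 : S_INS) : Pool.Agent.NOD.S_CHART`.
`F` is prime so nonzero and `PReg ![F]`. `CH1` with `f = f' = ![F]` gives `u₀, g₀`. `g₀ ∉ (F)`: otherwise `u₀ P ⊆ (F)`, `u₀ ∉ (F)`, so `P ⊆ (F)`, `P = (F)`, which has height `≤ 1` (Krull). So
`PReg ![g₀, F]` (`INS`; the degree of `g₀` is positive because `g₀ ∈ P` is not zero and `P` is proper). `CH1` with `f = ![u₀, F]`, `f' = ![g₀, F]` gives `u₁, g₁`;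
`CH1` with `f = ![u₁, u₀, F]`, `f' = ![u₁, g₀, F]` gives `u₂, g₂`; `LNF` (with `zs`) for `![u₂, u₁, u₀, F]` gives `v`. Permute with `PReg.comp`. (The structure `Chart` gets a
further field `reg2 : PReg ![F, g 0, u 1, u 2]`, that is what the second sequence is for.) -/
def S_CHA : Prop := Pool.Agent.NOD.S_CHART

/-! ## The Jacobian ideal -/

/-- **JPT** (120 lines), from `S5.S_LIN`: `theorem t_JPT (h : S5.S_LIN) : S_JPT`. The Jacobian ideal at a node. Proof. `p i₀ ≠ 0` for some `i₀`; let `ℓ k = C (p i₀) * X (σ k) - C (p (σ k)) * X i₀`,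
`σ = i₀.succAbove`, `k : Fin 4`. These four forms generate the ideal of `S_LIN` (for `j = i₀` the form is zero), so
`pderiv l F = ∑ k, a l k * ℓ k` with polynomials `a l k` (`pderiv l F` is homogeneous of degree `d - 1` and vanishes at `p`; `Ideal.mem_span_range_iff_exists_fun`).
Then `∂_i ∂_l F (p) = ∑_k a_{lk}(p) ∂_i ℓ_k (p)`: the Hesse matrix is `a(p) * B` with `a(p)` a `5 × 4` matrix, so `a(p)` has rank 4 (`Matrix.rank_mul_le_left`; it has 4
columns), so four of its rows are linearly independent: there is `ρ : Fin 4 → Fin 5` with `det (a_{ρ k, l}(p)) ≠ 0` (`Matrix.rank_eq_finrank_span_row`, `exists_linearIndependent`, or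
`Matrix.exists_submatrix...` if available; similar statements have been proved in the repository). Let `w = det (a_{ρ k, l})`, a polynomial. As `adjugate M * M = w • 1`, `w * ℓ k` is in the Jacobian ideal for all `k`, and
`f ∈ (ℓ)` by `S_LIN`, so `w f` is in the Jacobian ideal; `w(p) ≠ 0`. -/
def S_JPT : Prop := ∀ (d : ℕ) (F : A) (p : Fin 5 → ℂ) (f : A) (n : ℕ), F.IsHomogeneous d → p ≠ 0 →
  (∀ i, eval p (pderiv i F) = 0) →
  (Matrix.of fun i j : Fin 5 => eval p (pderiv i (pderiv j F))).rank = 4 →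
  f.IsHomogeneous n → eval p f = 0 →
  ∃ w : A, eval p w ≠ 0 ∧ w * f ∈ Ideal.span (Set.range fun i : Fin 5 => pderiv i F)

/-- **JSA** (80 lines), from `JPT`, `S5.S_NUL`: `theorem t_JSA (h1 : S_JPT) (h2 : S5.S_NUL) : Pool.Agent.NOD.S_JSAT`. Proof: the hypothesis of `S_NUL` with `I` the Jacobian ideal and
`G = f`: let `p ≠ 0`. If `∂_i F (p) ≠ 0` for some `i` take `s = ∂_i F`. Otherwise `p = c • z`, `z ∈ zs`, `c ≠ 0`; the Hesse matrix at `p` is `c^(d-2)` times the one at `z`, so has rank 4
(the second derivatives are homogeneous of degree `d - 2`), `f(p) = c^n f(z) = 0`, use `JPT`. So `v ^ N * f` is in the Jacobian ideal. -/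
def S_JSA : Prop := Pool.Agent.NOD.S_JSAT

end Pool.Agent.NOD.S1
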