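import Pool.Agent.NOD.Asm
import Pool.Agent.NOD.S5.HOM4
import Pool.Agent.NOD.S5.PRI
import Pool.Agent.NOD.S5.TWO
import Pool.Agent.NOD.S5.ADD
import Pool.Agent.NOD.S5.LOW
import Pool.Agent.NOD.S5.LIN
import Pool.Agent.NOD.S5.CRA
import Pool.Agent.NOD.S5.NULL
import Pool.Agent.NOD.S5.UPP
import Pool.Agent.NOD.S5.PUL
import Pool.Agent.NOD.S5.DEC
import Pool.Agent.NOD.S5.HES
import Pool.Agent.NOD.S5.COM
import Pool.Agent.NOD.S5.IRR
import Pool.Agent.NOD.S5.SUP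
import Pool.Agent.NOD.S5.EUC
import Pool.Agent.NOD.S5.GEN
import Pool.Agent.NOD.S5.MIN
import Pool.Agent.NOD.S5.CAN
import Pool.Agent.NOD.S5.DIV
import Pool.Agent.NOD.S5.RED

/-!
# Project NOD, section S5 finished: irreducibility, graded reduction and the Bezout lower bound
-/

set_option autoImplicit false

namespace Pool.Agent.NOD

theorem s5_irr : S_IRR := t_IRR (S5.t_IRR S5.t_COM)

theorem s5_gr : S_GR :=
  t_GR (S5.t_RED (S5.t_CAN (S5.t_GEN S5.t_SUP) S5.t_MIN)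
    (S5.t_DIV S5.t_SUP (S5.t_EUC S5.t_SUP) (S5.t_GEN S5.t_SUP)))

theorem s5_c : S_C :=
  t_C (S5.t_QUA (S5.t_LOW S5.t_HOM4 S5.t_PRI S5.t_TWO S5.t_ADD)
    (S5.t_UPP (S5.t_CRA S5.t_LIN) S5.t_NUL) S5.t_PUL (S5.t_DEC S5.t_PUL) S5.t_HES)

end Pool.Agent.NOD
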