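import Pool.Agent.NOD.S1.LNP
import Pool.Agent.NOD.S1.HTR
import Pool.Agent.NOD.S1.HTJ
import Pool.Agent.NOD.S1.LC1
import Pool.Agent.NOD.S1.LC2
import Pool.Agent.NOD.S1.LC3
import Pool.Agent.NOD.S1.LC4
import Pool.Agent.NOD.S1.LOC
import Pool.Agent.NOD.S1.EXC
import Pool.Agent.NOD.S1.POW
import Pool.Agent.NOD.S1.SOG
import Pool.Agent.NOD.S1.LAV
import Pool.Agent.NOD.S1.LRG
import Pool.Agent.NOD.S1.LNF
import Pool.Agent.NOD.S1.NOF
import Pool.Agent.NOD.S1.INS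
import Pool.Agent.NOD.S1.UNM
import Pool.Agent.NOD.S1.AVO
import Pool.Agent.NOD.S1.NAK
import Pool.Agent.NOD.S1.GCH
import Pool.Agent.NOD.S1.CH1
import Pool.Agent.NOD.S1.CHA
import Pool.Agent.NOD.S1.JPT
import Pool.Agent.NOD.S1.JSA
import Pool.Agent.NOD.S5Fin

/-!
# Project NOD, section S1: final assembly
-/

set_option autoImplicit false

namespace Pool.Agent.NOD.S1

theorem s_LRG : S_LRG := t_LRG t_LAV
theorem s_SOG : S_SOG := t_SOG t_INS t_LNP s_LRG t_EXC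
theorem s_LNF : S_LNF := t_LNF s_SOG s_LRG t_INS
theorem s_HTR : S_HTR := t_HTR t_LNP
theorem s_UNM : S_UNM := t_UNM s_LNF
theorem s_HTJ : S_HTJ := t_HTJ s_HTR
theorem s_LOC : S_LOC := t_LOC s_HTJ t_LC1 t_LC2 t_LC3 t_LC4
theorem s_GCH : S_GCH := t_GCH t_NAK t_LAV
theorem s_CH1 : S_CH1 := t_CH1 s_LOC s_UNM s_HTR t_AVO s_GCH t_INS

end Pool.Agent.NOD.S1

namespace Pool.Agent.NOD

theorem s1_irr : S_IRR := s5_irr
theorem s1_chart : S_CHART := S1.t_CHA s5_irr S1.s_CH1 S1.s_LNF S1.t_INS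
theorem s1_pow : S_POW := S1.t_POW
theorem s1_soc : S_SOC := fun f b i g hb hf hP hg hX hgn =>
  (S1.s_SOG 5 f b i g le_rfl hb hf hP hg hX hgn).2
theorem s1_jsat : S_JSAT := S1.t_JSA (S1.t_JPT S5.t_LIN) S5.t_NUL
theorem s1_nf : S_NF := S1.t_NOF S1.s_LNF S1.s_HTR

end Pool.Agent.NOD
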