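import Pool.Agent.NOD.Defs
import Pool.Agent.NOD.S5

/-!
# Project NOD (MP_c2352a_ag, frozen S00427), section S4: from the relation to a plane or a quadric (helper41)

Piece `XXX`: file `Pool/Agent/NOD/S4/XXX.lean`, importing `Pool.Agent.NOD.S4`, namespace `Pool.Agent.NOD.S4`, theorem
`t_XXX : S_XXX` (some pieces take other statements as hypotheses: this is said in the docstring, then the theorem is
`t_XXX (h1 : S_AAA) ... : S_XXX`). All pieces are independent of each other. Only Mathlib is used.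

Notation: `S5.pull L f` is the composition `f ∘ L` of a polynomial with a linear map (`eval v (pull L f) = eval (L v) f`,
`pull L` preserves the degree of forms, chain rule: piece `S5.S_PUL`, which may be used as a hypothesis `hp : S5.S_PUL`
in every piece below where the docstring says `PUL`).
-/

set_option autoImplicit false

namespace Pool.Agent.NOD.S4

open MvPolynomial Module

noncomputable section

/-- a relation of minimal support between the values of the forms of degree `n` at the points of `Γ` -/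
structure MinRel (Γ : Finset (Fin 5 → ℂ)) (c : (Fin 5 → ℂ) → ℂ) (n : ℕ) : Prop where
  nonempty : Γ.Nonempty
  ne : ∀ z ∈ Γ, c z ≠ 0
  rel : ∀ g : A, g.IsHomogeneous n → ∑ z ∈ Γ, c z * eval z g = 0
  uniq : ∀ c' : (Fin 5 → ℂ) → ℂ, (∀ g : A, g.IsHomogeneous n → ∑ z ∈ Γ, c' z * eval z g = 0) →
    ∃ t : ℂ, ∀ z ∈ Γ, c' z = t * c z

/-- **MIN** (40 lines). Among all relations `c` on `zs` which are not zero take one for which
`zs.filter (c · ≠ 0)` has the smallest cardinality (`Finset.exists_min_image` on the powerset, or well-founded minimum),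
and let `Γ` be this set. If `c'` is a relation on `Γ`, take `z₀ ∈ Γ` and `t = c' z₀ / c z₀`: the relation
`c' - t c` (extended by zero outside `Γ`) has smaller support, so it is zero. -/
def S_MIN : Prop := ∀ (zs : Finset (Fin 5 → ℂ)) (n : ℕ), Rel zs n →
  ∃ Γ ⊆ zs, ∃ c : (Fin 5 → ℂ) → ℂ, MinRel Γ c n

/-- **LIN0** (30 lines). A linear form which does not vanish at finitely many given nonzero points. Mathlib:
`Module.exists_dual_forall_apply_ne_zero`, or `Module.Dual.exists_forall_ne_zero_of_forall_exists`. -/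
def S_LIN0 : Prop := ∀ (zs : Finset (Fin 5 → ℂ)), (∀ z ∈ zs, z ≠ 0) →
  ∃ l : A, l.IsHomogeneous 1 ∧ ∀ z ∈ zs, eval z l ≠ 0

/-- the functional `g ↦ ∑ c z g(z) / l(z)` on the forms of degree `n` -/
def Lam (Γ : Finset (Fin 5 → ℂ)) (c : (Fin 5 → ℂ) → ℂ) (l : A) (n : ℕ) : A →ₗ[ℂ] ℂ where
  toFun g := ∑ z ∈ Γ, c z / eval z l * eval z (homogeneousComponent n g)
  map_add' f g := by
    simp only [map_add, mul_add, Finset.sum_add_distrib]
  map_smul' t g := by
    simp only [map_smul, smul_eval, RingHom.id_apply, smul_eq_mul, Finset.mul_sum]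
    exact Finset.sum_congr rfl fun z _ => by ring

/-- The properties of the functional which are used. -/
structure Fct (Γ : Finset (Fin 5 → ℂ)) (l : A) (n : ℕ) (Λ : A →ₗ[ℂ] ℂ) : Prop where
  hom : l.IsHomogeneous 1
  ne : ∀ z ∈ Γ, eval z l ≠ 0
  nonempty : Γ.Nonempty
  deg : Deg n Λ
  kill : ctr l Λ = 0
  van : ∀ (k : ℕ) (f : A), f.IsHomogeneous k → (∀ z ∈ Γ, eval z f = 0) → ctr f Λ = 0
  lin : ∀ f : A, f.IsHomogeneous 1 → ctr f Λ = 0 → ∃ t : ℂ, ∀ z ∈ Γ, eval z f = t * eval z l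
  nz : Λ ≠ 0

/-- **LAM** (120 lines). Let `Λ = Lam Γ c l (n + 1)`. `Deg (n+1) Λ`: the component of degree `n + 1` of a form of degree
`n + 1` is the form. `ctr f Λ g = Λ (f * g)`, and for `f` homogeneous of degree `k` the component of degree `n + 1` of `f * g` is
`f * (component of degree n + 1 - k of g)` for `k ≤ n + 1` and `0` otherwise
(for `f = l`: `Λ (l g) = ∑ c z g_n(z) = 0`). `lin`: `Λ (f g) = 0` for all forms `g` of degree `n` says that
`c' z = c z * f(z) / l(z)` is a relation, so `c' = t c`, and `f(z) = t l(z)`. `nz`: if `Λ = 0` then by `lin` for every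
linear form `f` there is `t` with `f(z) = t l(z)` on `Γ`; taking `f = X i` all the points of `Γ` are proportional
to each other (`z i / l(z)` does not depend on `z`), so `Γ = {z}`, and `c z * l(z) ^ n = 0` (relation for `g = l ^ n`), a contradiction. -/
def S_LAM : Prop := ∀ (Γ : Finset (Fin 5 → ℂ)) (c : (Fin 5 → ℂ) → ℂ) (l : A) (n : ℕ),
  l.IsHomogeneous 1 → (∀ z ∈ Γ, eval z l ≠ 0) →
  (∀ z ∈ Γ, ∀ w ∈ Γ, z ≠ w → ∀ t : ℂ, w ≠ t • z) → MinRel Γ c n →
  Fct Γ l (n + 1) (Lam Γ c l (n + 1))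

/-- **BPF** (40 lines). For `v ≠ 0` with `∂F/∂x_i (v) ≠ 0` for some `i` take `f = pderiv i F` (of degree `e + 1`, it vanishes on
`zs ⊇ Γ`). Otherwise `v = c • z`, `z ∈ zs` (`Sing.cover`), `c ≠ 0`; take `f = l ^ (e + 1)`:
`ctr (l ^ (e + 1)) Λ = 0` as `ctr l Λ = 0`, and `l(v) = c l(z) ≠ 0`. -/
def S_BPF : Prop := ∀ (e : ℕ) (F : A) (zs Γ : Finset (Fin 5 → ℂ)) (l : A) (n : ℕ) (Λ : A →ₗ[ℂ] ℂ),
  F.IsHomogeneous (e + 2) → Sing F zs → Γ ⊆ zs → (∀ z ∈ zs, eval z l ≠ 0) → Fct Γ l n Λ →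
  Bpf (e + 1) Λ

/-- the evaluation at the points of `Γ` -/
def evG (Γ : Finset (Fin 5 → ℂ)) : A →ₗ[ℂ] (Γ → ℂ) :=
  LinearMap.pi fun z => (aeval (z : Fin 5 → ℂ)).toLinearMap

/-- the Hilbert function of the set `Γ` of points -/
def HG (Γ : Finset (Fin 5 → ℂ)) (i : ℕ) : ℕ :=
  finrank ℂ ((homogeneousSubmodule (Fin 5) ℂ i).map (evG Γ))

/-- **HIL** (100 lines). Put `V i = (homogeneousSubmodule (Fin 5) ℂ i).map (evG Γ)`. Multiplication by the vector `(l z)_z` is an
injective linear map on `Γ → ℂ` which maps `V i` into `V (i + 1)` (it is `evG (l g)`), so its image `U` has dimension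
`HG Γ i`. If `f` is a form of degree `i + 1` with `evG Γ f ∈ U`, `evG Γ f = evG Γ (l g)`, then `f - l g` kills `Λ` (`van`), and
`l g` kills `Λ` (`kill`), so `f` kills `Λ`. Hence `finrank (W Λ (i+1)) ≤ finrank (V (i + 1)) - finrank U`: for instance the kernel of
`ctrL Λ` restricted to the forms of degree `i + 1` contains the preimage of `U` under `evG`, and rank-nullity
(`LinearMap.finrank_range_add_finrank_ker`) for both maps. The second statement is the case `U = 0`, the third one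
is `finrank (Γ → ℂ) = Γ.card`. -/
def S_HIL : Prop := ∀ (Γ : Finset (Fin 5 → ℂ)) (l : A) (n : ℕ) (Λ : A →ₗ[ℂ] ℂ), Fct Γ l n Λ →
  (∀ i, H Λ (i + 1) + HG Γ i ≤ HG Γ (i + 1)) ∧ H Λ 0 ≤ HG Γ 0 ∧ ∀ i, HG Γ i ≤ Γ.card

/-- **DIM** (60 lines). The number of the monomials (a basis of the space of the forms of degree `i`;
`homogeneousSubmodule_eq_finsupp_supported`; there are proofs for a given number of variables in the repository, for
example `Pool/Agent/Chud/PD2.lean`; the number of the exponents is that of `Sym (Fin (k+1)) i`: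
`Sym.card_sym_eq_choose`, or `Finset.card_finsuppAntidiag...`, or by induction). -/
def S_DIM : Prop := ∀ k i : ℕ, finrank ℂ (homogeneousSubmodule (Fin (k + 1)) ℂ i) = (i + k).choose k

/-- **SPR** (80 lines), may use `DIM` (as a hypothesis). The dimension of the span of `Γ` is `5` minus that of the space of the
linear forms vanishing on `Γ` (duality: `Subspace.finrank_add_finrank_dualAnnihilator_eq` or the rank of a matrix and
its transpose; linear forms of degree one are the `∑ a i * X i`). The linear forms which kill `Λ` are the sums of a multiple of `l`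
and of a linear form vanishing on `Γ` (`lin`, `van`, `kill`), and `l` does not vanish on `Γ`, so their space has one
dimension more, and `H Λ 1 = 5 -` this dimension by rank-nullity. -/
def S_SPR : Prop := ∀ (Γ : Finset (Fin 5 → ℂ)) (l : A) (n : ℕ) (Λ : A →ₗ[ℂ] ℂ), Fct Γ l n Λ →
  H Λ 1 + 1 = finrank ℂ (Submodule.span ℂ (Γ : Set (Fin 5 → ℂ)))

/-- **PAR** (50 lines), may use `PUL` (`hp : S5.S_PUL`). Parametrization of the span of `Γ`: take a basis of it and the
corresponding injective linear map `L` (`finBasis`, `Basis.constr` or `(finBasisOfFinrankEq ..).equivFun.symm`). If a linear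
form `f` vanishes at all `w` with `L w ∈ Γ`, then `f` vanishes on the span of these `w`, which is everything (its
image under `L` contains `Γ`, so the span of `Γ`, which is the range of `L`; `L` is injective), so `f = 0`. -/
def S_PAR : Prop := ∀ (Γ : Finset (Fin 5 → ℂ)) (r : ℕ),
  finrank ℂ (Submodule.span ℂ (Γ : Set (Fin 5 → ℂ))) = r →
  ∃ L : (Fin r → ℂ) →ₗ[ℂ] (Fin 5 → ℂ), Function.Injective L ∧ (∀ z ∈ Γ, ∃ w, L w = z) ∧
    ∀ f : MvPolynomial (Fin r) ℂ, f.IsHomogeneous 1 → (∀ w, L w ∈ Γ → eval w f = 0) → f = 0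

/-- **KER** (120 lines), may use `PUL`. The forms which vanish on a linear subspace. Let `R` be a linear left inverse of `L`
(`LinearMap.exists_leftInverse_of_injective`), `R (L w) = w`. For every polynomial `f` in `j` variables `f - pull (L ∘ R) f` is in the ideal
generated by the linear forms `ξ t = X t - pull (L ∘ R) (X t)` (in the quotient by this ideal the two algebra
homomorphisms agree on the variables), and `pull (L ∘ R) f = pull R (pull L f) = 0`. The linear form `ξ t` vanishes at all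
`L w`, so at all common zeros of the `S s`, and so it is a linear combination of the `S s` (`mem_span_of_iInf_ker_le_ker` for linear
functionals on `Fin j → ℂ`; a form of degree one is `∑ a i * X i`). So `f` is in the ideal generated by the `S s`:
`f = ∑ S s * a s`, and now replace `a s` by its component of degree `i`. -/
def S_KER : Prop := ∀ (k j r : ℕ) (L : (Fin k → ℂ) →ₗ[ℂ] (Fin j → ℂ)) (S : Fin r → MvPolynomial (Fin j) ℂ),
  Function.Injective L → (∀ s, (S s).IsHomogeneous 1) →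
  (∀ v, (∀ s, eval v (S s) = 0) → ∃ w, L w = v) →
  ∀ (i : ℕ) (f : MvPolynomial (Fin j) ℂ), f.IsHomogeneous (i + 1) → S5.pull L f = 0 →
    ∃ a : Fin r → MvPolynomial (Fin j) ℂ, (∀ s, (a s).IsHomogeneous i) ∧ f = ∑ s, S s * a s

/-- **SUR** (30 lines), may use `PUL`. Forms extend from a subspace: with a left inverse `R` of `L` take `f = pull R g`. -/
def S_SUR : Prop := ∀ (k j : ℕ) (L : (Fin k → ℂ) →ₗ[ℂ] (Fin j → ℂ)), Function.Injective L →
  ∀ (i : ℕ) (g : MvPolynomial (Fin k) ℂ), g.IsHomogeneous i →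
    ∃ f : MvPolynomial (Fin j) ℂ, f.IsHomogeneous i ∧ S5.pull L f = g

/-- **UPB** (100 lines), from `KER`, `SUR` (and `PUL`). Upper bound for the Hilbert function of `Λ`. If `pull L f = 0` for a form `f` of
degree `i`, then `ctr f Λ = 0`: for `i = 0` `f = 0`; otherwise by `KER` (with `S` a basis, or any finite spanning family,
of the linear forms vanishing on the range of `L`, for instance `S t = X t - pull (L ∘ R) (X t)` with a left inverse `R`)
`f = ∑ S s * a s` and `ctr (S s * a s) Λ = 0` as `ctr (S s) Λ = 0`. So the linear map `ctrL Λ` on the forms of degree `i`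
factors through the surjective map `pull L` to the forms of degree `i` in `k` variables (`SUR`), and
`T` is contained in the kernel of the induced map `homogeneousSubmodule (Fin k) ℂ i → W Λ i`, which is surjective. -/
def S_UPB : Prop := ∀ (k : ℕ) (L : (Fin k → ℂ) →ₗ[ℂ] (Fin 5 → ℂ)) (Λ : A →ₗ[ℂ] ℂ),
  Function.Injective L → (∀ f : A, f.IsHomogeneous 1 → S5.pull L f = 0 → ctr f Λ = 0) →
  ∀ (i : ℕ) (T : Submodule ℂ (MvPolynomial (Fin k) ℂ)),
    (∀ t ∈ T, ∃ f : A, f.IsHomogeneous i ∧ ctr f Λ = 0 ∧ S5.pull L f = t) →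
    H Λ i + finrank ℂ T ≤ finrank ℂ (homogeneousSubmodule (Fin k) ℂ i)

/-- the points of the parameter space over `Γ` -/
def pre {k : ℕ} (L : (Fin k → ℂ) →ₗ[ℂ] (Fin 5 → ℂ)) (Γ : Finset (Fin 5 → ℂ)) : Set (Fin k → ℂ) :=
  {w | L w ∈ Γ}

/-- the forms of degree `i` which vanish on a set `G` -/
def Van {k : ℕ} (G : Set (Fin k → ℂ)) (i : ℕ) : Submodule ℂ (MvPolynomial (Fin k) ℂ) where
  carrier := {f | f.IsHomogeneous i ∧ ∀ w ∈ G, eval w f = 0}
  add_mem' := fun {f g} hf hg => ⟨hf.1.add hg.1, fun w hw => by rw [map_add, hf.2 w hw, hg.2 w hw, add_zero]⟩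
  zero_mem' := ⟨isHomogeneous_zero _ _ _, fun w _ => map_zero _⟩
  smul_mem' := fun t f hf => ⟨(homogeneousSubmodule (Fin k) ℂ i).smul_mem t hf.1, fun w hw => by
    rw [smul_eval, hf.2 w hw, mul_zero]⟩

/-- **PTS** (80 lines), from `SUR` (and `PUL`). Evaluation at the points over `Γ` of the forms of degree `i` in `k` variables: its
kernel is `Van (pre L Γ) i`, and its image is isomorphic to `(homogeneousSubmodule (Fin 5) ℂ i).map (evG Γ)`, as `f(L w) = (pull L f)(w)`
and every form in `k` variables is a `pull L f` (`SUR`); for `z ∈ Γ` the point `w` with `L w = z` is unique. -/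
def S_PTS : Prop := ∀ (k : ℕ) (L : (Fin k → ℂ) →ₗ[ℂ] (Fin 5 → ℂ)) (Γ : Finset (Fin 5 → ℂ)),
  Function.Injective L → (∀ z ∈ Γ, ∃ w, L w = z) → ∀ i : ℕ,
    finrank ℂ (Van (pre L Γ) i) + HG Γ i = finrank ℂ (homogeneousSubmodule (Fin k) ℂ i)

/-- **GRD** (150 lines), may use `PUL`. The gradients. Let `z = L w ∈ zs`. By the chain rule the gradient of `pull L (pderiv i F)` at `w` is the
`i`-th column of `Lᵀ Hess`, `Lᵀ` the matrix `(L (Pi.single j 1) i)_{j,i}` of rank `k`, `Hess` the Hessian matrix of `F` at `z`, of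
rank four, so these gradients span a space of dimension at least `k + 4 - 5 = k - 1` (`Matrix.rank`; Sylvester's inequality:
the kernel of `Lᵀ` has dimension `5 - k`). As `pull L (pderiv i F) = ∑ b t * s t` and `s t` vanishes at `w`, they are in the
span of the `k - 1 = r` gradients of the `s t` at `w`, which are therefore linearly independent. The gradient of
`pull L F` at `w` is zero (chain rule, `z` is a singular point), so `0 = ∑ α t (w) • grad (s t) w`, and `α t (w) = 0`. -/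
def S_GRD : Prop := ∀ (r : ℕ) (L : (Fin (r + 1) → ℂ) →ₗ[ℂ] (Fin 5 → ℂ)) (F : A)
  (zs : Finset (Fin 5 → ℂ)) (w : Fin (r + 1) → ℂ) (s α : Fin r → MvPolynomial (Fin (r + 1)) ℂ) (t₀ : ℂ),
  Function.Injective L → Sing F zs → L w ∈ zs → (∀ t, eval w (s t) = 0) → t₀ ≠ 0 →
  (∀ i : Fin 5, ∃ b : Fin r → MvPolynomial (Fin (r + 1)) ℂ,
    S5.pull L (pderiv i F) = ∑ t, b t * s t) →
  C t₀ * S5.pull L F = ∑ t, α t * s t → ∀ t, eval w (α t) = 0

/-- **EUL** (60 lines), may use `PUL`. Euler's identity for the form `pull L F` (`IsHomogeneous.sum_X_mul_pderiv`) and the chain rule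
`pderiv l (pull L F) = ∑ i, C (L (Pi.single l 1) i) * pull L (pderiv i F)` (an identity of polynomials: for instance equality
of all values by `PUL` and `MvPolynomial.funext`). The partial derivatives of `pull L F` are forms
vanishing on `pre L Γ`, and so are the `pull L (pderiv i F)`. -/
def S_EUL : Prop := ∀ (k n : ℕ) (L : (Fin k → ℂ) →ₗ[ℂ] (Fin 5 → ℂ)) (F : A)
  (zs Γ : Finset (Fin 5 → ℂ)), F.IsHomogeneous (n + 1) → Sing F zs → Γ ⊆ zs →
  (∀ i : Fin 5, S5.pull L (pderiv i F) ∈ Van (pre L Γ) n) ∧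
  ∃ p : Fin k → MvPolynomial (Fin k) ℂ, (∀ l, p l ∈ Van (pre L Γ) n) ∧
    C ((n + 1 : ℕ) : ℂ) * S5.pull L F = ∑ l, X l * p l

/-! ## The plane case -/

/-- **PLV** (150 lines), from `KER`, `SUR`, `UPB`, `DIM` (and `PUL`). Let `l' = pull L l`: a linear form in three variables which does
not vanish at the points of `pre L Γ` (so `l' ≠ 0`; `Γ` is not empty); let `L2 : ℂ² → ℂ³` be injective with range `{l' = 0}`.
(0) The linear forms which vanish on the range of `L ∘ L2` kill `Λ`: if `pull L2 (pull L f) = 0` then by `KER`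
`pull L f = l' * a`, `a` a constant, so `f - a l` vanishes on the range of `L`, so on `Γ`, and kills `Λ`.
(1) By induction on `i ≤ e` every `f ∈ Van (pre L Γ) i` is zero: suppose not, let `i` be minimal. If `pull L2 f = 0` then `i ≥ 1` and `f = l' * a`
(`KER`), `a ∈ Van (pre L Γ) (i - 1) = 0`. So `pull L2 f ≠ 0`, and `T = ℂ (pull L2 f)` has dimension one; a form `g` of degree
`i` in five variables with `pull L g = f` (`SUR`) vanishes on `Γ`, so it kills `Λ` (`van`). `UPB` for `L ∘ L2` gives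
`H Λ i + 1 ≤ i + 1` (`DIM`), against `i + 1 ≤ H Λ i`.
(2) `pull L2` is injective on `Van (pre L Γ) (e + 1)` by `KER` and (1); apply `UPB` to `T` = its image:
`e + finrank T ≤ H Λ (e + 1) + finrank T ≤ e + 2`. -/
def S_PLV : Prop := ∀ (e n : ℕ) (L : (Fin 3 → ℂ) →ₗ[ℂ] (Fin 5 → ℂ)) (Γ : Finset (Fin 5 → ℂ)) (l : A)
  (Λ : A →ₗ[ℂ] ℂ), Function.Injective L → Fct Γ l n Λ → (∀ z ∈ Γ, ∃ w, L w = z) →
  (∀ i ≤ e, i + 1 ≤ H Λ i) → e ≤ H Λ (e + 1) →
  (∀ i ≤ e, ∀ f ∈ Van (pre L Γ) i, f = 0) ∧ finrank ℂ (Van (pre L Γ) (e + 1)) ≤ 2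

/-- **PLF** (80 lines), from `GRD`, `EUL` (and `PUL`). `Van (pre L Γ) (e + 1)` is spanned by two elements `s 0`, `s 1`
(its dimension is at most two). By `EUL` `(e + 2) pull L F = ∑ X l * p l = α 0 * s 0 + α 1 * s 1` with linear forms `α t`, and the
`pull L (pderiv i F)` are combinations of `s 0`, `s 1`. By `GRD` the linear forms `α t` vanish on `pre L Γ`, so they are zero
(first hypothesis, `1 ≤ e`), so `pull L F = 0`. -/
def S_PLF : Prop := ∀ (e : ℕ) (L : (Fin 3 → ℂ) →ₗ[ℂ] (Fin 5 → ℂ)) (F : A)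
  (zs Γ : Finset (Fin 5 → ℂ)), 1 ≤ e → F.IsHomogeneous (e + 2) → Sing F zs → Γ ⊆ zs →
  Function.Injective L → (∀ f ∈ Van (pre L Γ) 1, f = 0) →
  finrank ℂ (Van (pre L Γ) (e + 1)) ≤ 2 → HasPlane F

/-! ## The quadric case -/

/-- **QDM** (60 lines), from `PTS`, `DIM`, `HIL`. Dimensions in the quadric case: the sum of all `H Λ i`, `i ≤ 2 e`, is
`2 e (e + 1)` (`H Λ i = H Λ (2 e - i)` is given), and so all the inequalities of `HIL` for `i ≤ 2 e` are equalities (telescoping),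
`HG Γ i = ∑ j ≤ i, H Λ j`. This is `(i + 1) ^ 2` for `i < e`, `(e + 1) ^ 2 - 1` for `i = e` and `e ^ 2 + 4 e - 1` for `i = e + 1`
(`H Λ (e + 1) = H Λ (e - 1) = 2 e - 1`). Then `PTS` and `DIM`. -/
def S_QDM : Prop := ∀ (e : ℕ) (L : (Fin 4 → ℂ) →ₗ[ℂ] (Fin 5 → ℂ)) (Γ : Finset (Fin 5 → ℂ)) (l : A)
  (Λ : A →ₗ[ℂ] ℂ), 2 ≤ e → Function.Injective L → Fct Γ l (2 * e) Λ → (∀ z ∈ Γ, ∃ w, L w = z) →
  Γ.card ≤ 2 * e * (e + 1) → (∀ i ≤ 2 * e, H Λ i = H Λ (2 * e - i)) →
  (∀ i < e, H Λ i = 2 * i + 1) → H Λ e = 2 * e →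
  (∀ i < e, finrank ℂ (Van (pre L Γ) i) + (i + 1) ^ 2 = (i + 3).choose 3) ∧
  finrank ℂ (Van (pre L Γ) e) + (e + 1) ^ 2 = (e + 3).choose 3 + 1 ∧
  finrank ℂ (Van (pre L Γ) (e + 1)) + (e ^ 2 + 4 * e) = (e + 4).choose 3 + 1

/-- **QUS** (120 lines), from `DIM`. The structure of the forms of degree `≤ e` which vanish on `G`. Multiplication by a form `q ≠ 0` of
degree two is an injective map from the forms of degree `i - 2` to `Van G i`, if `q ∈ Van G 2`; dimensions:
`(i + 3 choose 3) - (i + 1 choose 3) = (i + 1) ^ 2`. Case `e ≥ 3`: `Van G 2` has dimension one, `q` a generator, and for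
`2 ≤ i < e` `Van G i` is `q` times the forms of degree `i - 2` (`Van G i = 0` for `i = 0, 1`). `Van G e` has one dimension more than
`q` times the forms of degree `e - 2`: take `e₁` in it, not of the form `q * a`. Case `e = 2`: `Van G 2` has
dimension two: take a basis `q`, `e₁`. -/
def S_QUS : Prop := ∀ (e : ℕ) (G : Set (Fin 4 → ℂ)), 2 ≤ e →
  (∀ i < e, finrank ℂ (Van G i) + (i + 1) ^ 2 = (i + 3).choose 3) →
  finrank ℂ (Van G e) + (e + 1) ^ 2 = (e + 3).choose 3 + 1 →
  ∃ q e₁ : MvPolynomial (Fin 4) ℂ, q ∈ Van G 2 ∧ q ≠ 0 ∧ e₁ ∈ Van G e ∧ ¬ q ∣ e₁ ∧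
    (∀ i < e, ∀ f ∈ Van G i, q ∣ f) ∧
    ∀ f ∈ Van G e, ∃ (a : MvPolynomial (Fin 4) ℂ) (t : ℂ), f = q * a + C t * e₁

/-- **HFA** (50 lines). The factors of a form are forms: `MvPolynomial` over a field is a domain; if `f = g h ≠ 0` is homogeneous then so are
`g`, `h` (compare the lowest and the highest components; perhaps in Mathlib, `IsHomogeneous.of_mul...`). A divisor of a form of degree
two which is neither a unit nor associated to it is a form of degree one, and so is the cofactor. -/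
def S_HFA : Prop := (∀ (k i : ℕ) (f g h : MvPolynomial (Fin k) ℂ), f.IsHomogeneous i → f ≠ 0 →
    f = g * h → ∃ a b : ℕ, a + b = i ∧ g.IsHomogeneous a ∧ h.IsHomogeneous b) ∧
  ∀ (k : ℕ) (q p : MvPolynomial (Fin k) ℂ), q.IsHomogeneous 2 → q ≠ 0 → p ∣ q → ¬ IsUnit p →
    ¬ q ∣ p → ∃ p' : MvPolynomial (Fin k) ℂ, q = p * p' ∧ p.IsHomogeneous 1 ∧ p'.IsHomogeneous 1

/-- **LEC** (120 lines), from `KER`, `SUR`, `UPB`, `DIM` (and `PUL`). The counting argument in the proof of `COP`. Let `l' = pull L l`,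
`Λ' = ctr p̃ Λ` with `pull L p̃ = p`. Let `L2 : ℂ² → ℂ⁴` be injective with range `{l' = p' = 0}` (these linear forms are linearly
independent by hypothesis). (0) A linear form `f` with `pull L2 (pull L f) = 0` kills `Λ'`: by `KER` `pull L f = a l' + b p'`, `a`, `b`
constants, so `f p̃` and `a l p̃ + b p̃' p̃` (where `pull L p̃' = p'`) have the same image under `pull L`, so their difference vanishes on the range of
`L`, so on `Γ`, and kills `Λ`; `l` kills `Λ`; `p̃' p̃` has the image `p p'`, which vanishes on `pre L Γ`, so `p̃' p̃` kills `Λ`.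
(1) `f` (of degree `i`, not divisible by `p'`, vanishing at the points of `pre L Γ` with `p ≠ 0`) is chosen with `i` minimal.
Then `pull L2 f ≠ 0`: otherwise (`i ≥ 1`) by `KER` `f = l' b + p' a`, and `b` has the same properties and smaller degree:
`p'` vanishes where `p p'` does and `p ≠ 0`; `l' ≠ 0` on `pre L Γ`; if `p' ∣ b` then `p' ∣ f`. (2) A form `g` of degree `i` with
`pull L g = f` kills `Λ'` as `g p̃` vanishes on `Γ`. `UPB` for `L ∘ L2` with `T = ℂ (pull L2 f)`: `H Λ' i + 1 ≤ i + 1`. -/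
def S_LEC : Prop := ∀ (i₀ n : ℕ) (L : (Fin 4 → ℂ) →ₗ[ℂ] (Fin 5 → ℂ)) (Γ : Finset (Fin 5 → ℂ)) (l pt : A)
  (Λ : A →ₗ[ℂ] ℂ) (p p' f : MvPolynomial (Fin 4) ℂ), Function.Injective L → Fct Γ l n Λ →
  (∀ z ∈ Γ, ∃ w, L w = z) → pt.IsHomogeneous 1 → S5.pull L pt = p → p.IsHomogeneous 1 →
  p'.IsHomogeneous 1 → (∀ w ∈ pre L Γ, eval w (p * p') = 0) →
  LinearIndependent ℂ ![S5.pull L l, p'] →
  f.IsHomogeneous i₀ → ¬ p' ∣ f → (∀ w ∈ pre L Γ, eval w p ≠ 0 → eval w f = 0) →
  ∃ i ≤ i₀, H (ctr pt Λ) i ≤ i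

/-- **COP** (120 lines), from `HFA`, `LEC`, `SUR` and `S_LC` (of section S0, `Pool.Agent.NOD.S_LC`) (and `PUL`). `q` and `e₁` have no common
factor. Suppose that `p` is a nonunit dividing both. Then `q` does not divide `p` (it would divide `e₁`), so by `HFA` `q = p p'` with linear forms
`p`, `p'`, and `e₁ = p f` with `f` of degree `e - 1`, and `p'` does not divide `f` (otherwise `q ∣ e₁`).
A linear form which vanishes on `pre L Γ` is zero (hypothesis `h1`). So `p'` is not a multiple of `l' = pull L l` (if `p' = t l'`, `t ≠ 0`, then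
`p'` has no zero in `pre L Γ`, so `p` vanishes there), and `p` is not a multiple of `l'` for the same reason. Let `pull L pt = p` (`SUR`).
`Λ' = ctr pt Λ` is not zero (otherwise by `Fct.lin` `pt - t l` vanishes on `Γ`, `p = t l'`), `Deg (2 e - 1) Λ'`,
`Bpf (e + 1) Λ'` (what kills `Λ` kills `Λ'`). By `S_LC` (with `m = e + 1`, `j = e - 2`) `H Λ' i ≥ i + 1` for `i ≤ e - 1`, against `LEC`
with `i₀ = e - 1`. -/
def S_COP : Prop := ∀ (e : ℕ) (L : (Fin 4 → ℂ) →ₗ[ℂ] (Fin 5 → ℂ)) (Γ : Finset (Fin 5 → ℂ)) (l : A)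
  (Λ : A →ₗ[ℂ] ℂ) (q e₁ : MvPolynomial (Fin 4) ℂ), 2 ≤ e → Function.Injective L →
  Fct Γ l (2 * e) Λ → Bpf (e + 1) Λ → (∀ z ∈ Γ, ∃ w, L w = z) →
  (∀ f ∈ Van (pre L Γ) 1, f = 0) → q ∈ Van (pre L Γ) 2 → q ≠ 0 → e₁ ∈ Van (pre L Γ) e → ¬ q ∣ e₁ →
  ∀ p, p ∣ q → p ∣ e₁ → IsUnit p

/-- **QUD** (100 lines), from `DIM`. Let `m` be the multiplication maps from the forms of degree `e - 1` by `q` and from the linear forms
by `e₁` to `Van G (e + 1)`. The intersection of the images is zero: `q a = e₁ b`, `b` linear, then `q ∣ b` (coprimality in a unique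
factorization domain: `IsRelPrime`, `IsCoprime`..., `isRelPrime_iff...`), so `b = 0` by degree. So the sum of the images has dimension
`(e + 2 choose 3) + 4`, and `Van G (e + 1)` has dimension `(e + 4 choose 3) + 1 - e ^ 2 - 4 e = (e + 2 choose 3) + 5`. -/
def S_QUD : Prop := ∀ (e : ℕ) (G : Set (Fin 4 → ℂ)) (q e₁ : MvPolynomial (Fin 4) ℂ), 2 ≤ e →
  finrank ℂ (Van G (e + 1)) + (e ^ 2 + 4 * e) = (e + 4).choose 3 + 1 →
  q ∈ Van G 2 → q ≠ 0 → e₁ ∈ Van G e → e₁ ≠ 0 → (∀ p, p ∣ q → p ∣ e₁ → IsUnit p) →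
  ∃ f ∈ Van G (e + 1), ∀ g ∈ Van G (e + 1), ∃ (a b : MvPolynomial (Fin 4) ℂ) (t : ℂ),
    a.IsHomogeneous (e - 1) ∧ b.IsHomogeneous 1 ∧ g = q * a + e₁ * b + C t * f

/-- **QUF** (120 lines), from `GRD`, `EUL` (and `PUL`). By `EUL` `(e + 2) pull L F = ∑ X j * p j`, and by the hypothesis `hdec`
this is `α 0 * q + α 1 * e₁ + α 2 * f` with `α 0`, `α 1`, `α 2` forms of degrees `e`, `2`, `1`; the `pull L (pderiv i F)` are combinations of
`q`, `e₁`, `f` as well. By `GRD` (`r = 3`) the `α t` vanish on `pre L Γ`. So `α 2 = 0`; `α 1 ∈ Van 2`, `α 0 ∈ Van e`.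
If `e ≥ 3`: `q ∣ α 1` (hypothesis `hlow` with `i = 2 < e`), so `α 1 = s q` with `s` a constant, `α 0 = q a + t e₁`, and
`q` divides `pull L F`. If `e = 2`: `α 0 = s q + t e₁`, `α 1 = s' q + t' e₁` with constants (`htop`, degrees), and
`4 pull L F = s q² + (t + s') q e₁ + t' e₁²` is a product of two linear combinations of `q` and `e₁` (a binary quadratic form over ℂ factors); one
of them is not zero (if the quadratic form is zero take `q`), it is in `Van (pre L Γ) 2`, homogeneous of degree two, and it is not the zero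
polynomial, as `q` does not divide `e₁` and `q ≠ 0`. -/
def S_QUF : Prop := ∀ (e : ℕ) (L : (Fin 4 → ℂ) →ₗ[ℂ] (Fin 5 → ℂ)) (F : A)
  (zs Γ : Finset (Fin 5 → ℂ)) (q e₁ f : MvPolynomial (Fin 4) ℂ), 2 ≤ e → F.IsHomogeneous (e + 2) →
  Sing F zs → Γ ⊆ zs → Function.Injective L → (∀ f ∈ Van (pre L Γ) 1, f = 0) →
  q ∈ Van (pre L Γ) 2 → q ≠ 0 → e₁ ∈ Van (pre L Γ) e → ¬ q ∣ e₁ →
  (∀ i < e, ∀ f ∈ Van (pre L Γ) i, q ∣ f) →
  (∀ f ∈ Van (pre L Γ) e, ∃ (a : MvPolynomial (Fin 4) ℂ) (t : ℂ), f = q * a + C t * e₁) →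
  f ∈ Van (pre L Γ) (e + 1) →
  (∀ g ∈ Van (pre L Γ) (e + 1), ∃ (a b : MvPolynomial (Fin 4) ℂ) (t : ℂ),
    a.IsHomogeneous (e - 1) ∧ b.IsHomogeneous 1 ∧ g = q * a + e₁ * b + C t * f) →
  ∃ q₁ : MvPolynomial (Fin 4) ℂ, q₁.IsHomogeneous 2 ∧ q₁ ≠ 0 ∧ q₁ ∣ S5.pull L F

/-- **QUR** (60 lines), from `HFA` (and `PUL`). If `q₁` is irreducible, `L` and `q₁` show `HasQuadric F`. Otherwise `q₁ = p p'` with linear forms, `p ≠ 0`:
compose `L` with an injective linear map `ℂ³ → ℂ⁴` with range `{p = 0}` (kernel of a nonzero functional, of dimension three). -/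
def S_QUR : Prop := ∀ (L : (Fin 4 → ℂ) →ₗ[ℂ] (Fin 5 → ℂ)) (F : A) (q₁ : MvPolynomial (Fin 4) ℂ),
  Function.Injective L → q₁.IsHomogeneous 2 → q₁ ≠ 0 → q₁ ∣ S5.pull L F →
  HasPlane F ∨ HasQuadric F

end

end Pool.Agent.NOD.S4
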