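import Pool.Agent.NOD.Defs

/-!
# PROJECT NOD, section S0 (functionals): exact statements with proofs in the docstrings.

Notation of the docstrings: `W_i = W Λ i` (all `f·Λ`, `f` a form of degree `i`), `A_i` = forms of degree `i`,
`f·Λ = ctr f Λ`, `G = A / Ann Λ`, `G_i = A_i / I_i ≅ W_i`, `(G/l)_i = A_i/(I_i + l A_{i-1}) ≅ W_i / l W_{i-1}`.
Piece `X` : file `Pool/Agent/NOD/X.lean` (first letter capital, e.g. `Fbas.lean`), `theorem t_X : S_X` in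
`namespace Pool.Agent.NOD`, private lemmas in `namespace Pool.Agent.NOD.X`.
A piece whose statement has hypotheses may also import the files of these pieces instead.
-/

set_option autoImplicit false

namespace Pool.Agent.NOD

open MvPolynomial

/-- FBAS (60 lines). Basic rules.
(1) `homogeneousSubmodule (Fin 5) ℂ n` is finite dimensional (it is spanned by the finitely many monomials of degree `n`;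
e.g. it is contained in `restrictTotalDegree (Fin 5) ℂ n`, which is finite).
(2), (3) contraction is multiplicative and additive. (4) `f` of degree `k ≤ n`: `f·Λ` lives in degree `n - k`
(`homogeneousComponent n (f * g) = f * homogeneousComponent (n-k) g`). (5) `f` of degree `k > n` kills `Λ`.
(6) `W (l·Λ) i = l · W Λ i` for a linear form `l`. (7) `W Λ (i+1)` is spanned by the `x_j · W Λ i`. -/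
def S_FBAS : Prop :=
  (∀ n : ℕ, Module.Finite ℂ (homogeneousSubmodule (Fin 5) ℂ n)) ∧
  (∀ (f g : A) (Λ : A →ₗ[ℂ] ℂ), ctr (f * g) Λ = ctr f (ctr g Λ)) ∧
  (∀ (f g : A) (Λ : A →ₗ[ℂ] ℂ), ctr (f + g) Λ = ctr f Λ + ctr g Λ) ∧
  (∀ (n k : ℕ) (f : A) (Λ : A →ₗ[ℂ] ℂ), Deg n Λ → f.IsHomogeneous k → k ≤ n → Deg (n - k) (ctr f Λ)) ∧
  (∀ (n k : ℕ) (f : A) (Λ : A →ₗ[ℂ] ℂ), Deg n Λ → f.IsHomogeneous k → n < k → ctr f Λ = 0) ∧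
  (∀ (i : ℕ) (l : A) (Λ : A →ₗ[ℂ] ℂ), W (ctr l Λ) i =
    (W Λ i).map (LinearMap.lcomp ℂ ℂ (LinearMap.mulLeft ℂ l))) ∧
  (∀ (i : ℕ) (Λ : A →ₗ[ℂ] ℂ), W Λ (i + 1) =
    ⨆ j : Fin 5, (W Λ i).map (LinearMap.lcomp ℂ ℂ (LinearMap.mulLeft ℂ (X j : A))))

/-- FMON (40 lines). `H (l·Λ) i ≤ H Λ i` (image of `W Λ i` under `l`) and `H (l·Λ) i ≤ H Λ (i+1)` (it is contained in
`W Λ (i+1)`), for a linear form `l`; `H Λ 0 = 1` if `Λ ≠ 0`; `H Λ i = 0` for `i > n` if `Λ` lives in degree `n`;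
`0 < H Λ i` for `i ≤ n`, `Λ ≠ 0` (some `f g` with `Λ (f g) ≠ 0`, `f` a monomial of degree `i`). -/
def S_FMON : Prop :=
  (∀ (i : ℕ) (l : A) (Λ : A →ₗ[ℂ] ℂ), l.IsHomogeneous 1 → H (ctr l Λ) i ≤ H Λ i ∧
    H (ctr l Λ) i ≤ H Λ (i + 1)) ∧
  (∀ (n : ℕ) (Λ : A →ₗ[ℂ] ℂ), Deg n Λ → Λ ≠ 0 → H Λ 0 = 1) ∧
  (∀ (n i : ℕ) (Λ : A →ₗ[ℂ] ℂ), Deg n Λ → n < i → H Λ i = 0) ∧
  (∀ (n i : ℕ) (Λ : A →ₗ[ℂ] ℂ), Deg n Λ → Λ ≠ 0 → i ≤ n → 0 < H Λ i)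

-- SYM (80 lines), statement `S_SYM` in Defs.lean: `H Λ i = H Λ (n - i)`. The pairing `A_i × A_{n-i} → ℂ`,
-- `(f,g) ↦ Λ (f g)`: for `f ∈ A_i`, `f·Λ = 0` iff `Λ (f g) = 0` for all `g ∈ A_{n-i}` (Deg). So `H Λ i` is the rank of
-- `A_i → Dual A_{n-i}` and `H Λ (n-i)` the rank of the flipped map; `LinearMap.finrank_range_dualMap_eq_finrank_range`.

/-- FEV (80 lines). A functional with `H Λ 1 ≤ 1` is an evaluation. The linear forms killing `Λ` have dimension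
`≥ 4 = 5 - 1` (rank-nullity, `dim A_1 = 5`); let `p ≠ 0` be a common zero of four independent ones (if all linear forms kill `Λ`
then `Λ = 0` on `A_n`, `n ≥ 1`, excluded), so `{l : l(p) = 0}` = the linear forms killing `Λ` (dimension count). A form `g` of degree `n`
with `g(p) = 0` is in the ideal generated by the linear forms vanishing at `p` (change coordinates, or: choose `i0` with `p i0 ≠ 0`;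
modulo the forms `X j - (p j / p i0) X i0`, `g` is `g(p)/(p i0)^n * (X i0)^n`). So `Λ g = c * eval p g` with `c = Λ((X i0)^n)/(p i0)^n`. -/
def S_FEV : Prop := ∀ (n : ℕ) (Λ : A →ₗ[ℂ] ℂ), 1 ≤ n → Deg n Λ → Λ ≠ 0 → H Λ 1 ≤ 1 →
  ∃ (p : Fin 5 → ℂ) (c : ℂ), p ≠ 0 ∧ c ≠ 0 ∧ ∀ g : A, g.IsHomogeneous n → Λ g = c * eval p g

/-- FEB (25 lines). So it has base points: for `f ∈ A_m` with `f·Λ = 0` and `g = (X i0)^(n-m)`, `p i0 ≠ 0`: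
`0 = Λ (f g) = c f(p) g(p)`, so `f(p) = 0`. -/
def S_FEB : Prop := ∀ (n m : ℕ) (Λ : A →ₗ[ℂ] ℂ), 1 ≤ n → m ≤ n → Deg n Λ → Λ ≠ 0 → Bpf m Λ → 2 ≤ H Λ 1

/-- FONE (60 lines). If `(G/l)_i` has dimension `≤ 1`, `i ≥ 1`, then so has `(G/l)_{i+1}`. (Here `l` may be `0`: then this says
`H Λ i ≤ 1 → H Λ (i+1) ≤ 1`, because `H (ctr 0 Λ) = H 0 = 0`.)
Proof. `(G/l)_i ≅ W_i / l W_{i-1}`. If it is `0` then `W_i = l W_{i-1}` and `W_{i+1} = A_1 W_i = l A_1 W_{i-1} = l W_i`. If it has dimension one: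
`W_i` is spanned by `l W_{i-1}` and the `x_j W_{i-1}`, so some `x_j W_{i-1}` is not contained in `l W_{i-1}` and
`W_i = l W_{i-1} + x_j W_{i-1}` (dimension). Then `W_{i+1} = A_1 W_i = l A_1 W_{i-1} + x_j A_1 W_{i-1} = l W_i + x_j W_i`, and
`W_i = l W_{i-1} + ℂ φ`, so `x_j W_i ⊆ l (x_j W_{i-1}) + ℂ x_j φ ⊆ l W_i + ℂ x_j φ`. So `W_{i+1} / l W_i` has dimension `≤ 1`. -/
def S_FONE : Prop := ∀ (i : ℕ) (l : A) (Λ : A →ₗ[ℂ] ℂ), 1 ≤ i → l.IsHomogeneous 1 →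
  H Λ i ≤ H (ctr l Λ) (i - 1) + 1 → H Λ (i + 1) ≤ H (ctr l Λ) i + 1

/-- FPEN (50 lines). Pencil lemma (linear algebra over `ℂ`): if all nontrivial combinations of two maps are injective then the target is
bigger. (If `finrank V' ≤ finrank V` then `φ` is bijective and `φ⁻¹ ψ` has an eigenvalue `c`, `ψ - c φ` is not injective.) -/
def S_FPEN : Prop := ∀ (V V' : Type) [AddCommGroup V] [Module ℂ V] [AddCommGroup V'] [Module ℂ V']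
  [FiniteDimensional ℂ V] [FiniteDimensional ℂ V'] (φ ψ : V →ₗ[ℂ] V'), 0 < Module.finrank ℂ V →
  (∀ a b : ℂ, (a ≠ 0 ∨ b ≠ 0) → Function.Injective (a • φ + b • ψ)) →
  Module.finrank ℂ V < Module.finrank ℂ V'

/-- FPLH (60 lines, uses FPEN, FBAS). If multiplication by every linear form `l` with `l·Λ ≠ 0` is injective on `W_i`
(expressed by `H (l·Λ) i = H Λ i`), and `H Λ 1 ≥ 2` (so there are two linear forms independent modulo those killing `Λ`), then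
`H Λ (i+1) > H Λ i`. -/
def S_FPLH : Prop := ∀ (i : ℕ) (Λ : A →ₗ[ℂ] ℂ), 0 < H Λ i → 2 ≤ H Λ 1 →
  (∀ l : A, l.IsHomogeneous 1 → ctr l Λ ≠ 0 → H (ctr l Λ) i = H Λ i) → H Λ i < H Λ (i + 1)

/-- FQ (120 lines). Functionals on `G/l`. Let `I_i = {f ∈ A_i : f·Λ = 0}`, `U_i = I_i + l A_{i-1}`. Then
`A_i / U_i ≅ W_i / l W_{i-1}` has dimension `H Λ i - H (l·Λ) (i-1)`. If this is positive for `i = j` take a nonzero functional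
on `A_j` killing `U_j` and extend it by `homogeneousComponent j`: this is `ν`. `l·ν = 0`, and a form `f ∈ A_k`, `k ≤ j`, with `f·Λ = 0` kills `ν`
(`f g ∈ I_j` for `g ∈ A_{j-k}`); so `U_i` kills `ν` for all `i` and `H ν i ≤ dim A_i / U_i`. -/
def S_FQ : Prop := ∀ (j : ℕ) (l : A) (Λ : A →ₗ[ℂ] ℂ), 1 ≤ j → l.IsHomogeneous 1 →
  H (ctr l Λ) (j - 1) < H Λ j →
  ∃ ν : A →ₗ[ℂ] ℂ, ν ≠ 0 ∧ Deg j ν ∧ ctr l ν = 0 ∧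
    (∀ (k : ℕ) (f : A), f.IsHomogeneous k → ctr f Λ = 0 → ctr f ν = 0) ∧
    ∀ i, 1 ≤ i → i ≤ j → H ν i + H (ctr l Λ) (i - 1) ≤ H Λ i

/-- LC (100 lines; statement `S_LC` in Defs.lean), from FBAS, FMON, SYM, FEB, FONE, FPLH.
Induction on `j`. Put `n = m + j`. `j = 0`: `H Λ i ≥ 1` always (FMON). Suppose `1 ≤ i ≤ n-1` and `H Λ i ≤ 1`; by FONE with `l = 0`,
`H Λ (n-1) ≤ 1`, so `H Λ 1 ≤ 1` (SYM), contradiction to FEB.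
`j ≥ 1`: `i = 0`, `i = n`: value `≥ 1` = bound. Let `1 ≤ i ≤ n-1` and suppose `H Λ i ≤ min(i, j+1, n-i)`. For every linear `l` with `l·Λ ≠ 0`
(degree `n-1 = m+(j-1)`, `Bpf m` is inherited) the induction hypothesis gives
`H (l·Λ) i ≥ min(i+1, j+1, n-i) ≥ min(i,j+1,n-i) ≥ H Λ i`, so `= H Λ i`; and
`H (l·Λ) (i-1) ≥ min(i, j+1, n-i+1) ≥ min(i,j+1,n-i) ≥ H Λ i`, and `≤ H Λ i` (FMON) so `W_i = l W_{i-1}` (contained, same dimension), whence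
`W_{i+1} = A_1 W_i = l A_1 W_{i-1} = l W_i` and `H Λ (i+1) = H (l·Λ) i = H Λ i`. But FPLH gives `H Λ i < H Λ (i+1)`. Contradiction
(there is an `l` with `l·Λ ≠ 0` since `H Λ 1 ≥ 2` by FEB). -/
def S_LCD : Prop := S_FBAS → S_FMON → S_SYM → S_FEB → S_FONE → S_FPLH → S_LC

/-- FRS (50 lines). `Λ` of degree `n = m + j`, `j ≥ 1`, `m ≥ 3`, `Bpf m`, `H Λ 1 = 3` implies `H Λ 2 ≥ 4`.
For linear `l` with `l·Λ ≠ 0` put `r = H (l·Λ) 1 ≥ 2` (LC, degree `m+(j-1)`), `r ≤ 3` (FMON). If `r = 2` for some `l`: `H Λ (n-1) = 3` (SYM),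
`H (l·Λ) (n-2) = H (l·Λ) 1 = 2`, so FQ with `j := n-1` gives `ν` of degree `n-1 = m+(j-1)`, `Bpf m`, with `H ν 2 + H (l·Λ) 1 ≤ H Λ 2`; LC:
`H ν 2 ≥ min(3, j+1, n-2) ≥ 2`. So `H Λ 2 ≥ 4`. If `r = 3` for all `l`: FPLH with `i = 1`. -/
def S_FRS : Prop := ∀ (m j : ℕ) (Λ : A →ₗ[ℂ] ℂ), 3 ≤ m → 1 ≤ j → Deg (m + j) Λ → Λ ≠ 0 → Bpf m Λ →
  H Λ 1 = 3 → 4 ≤ H Λ 2

def S_FRSD : Prop := S_FBAS → S_FMON → S_SYM → S_FEB → S_FPLH → S_FQ → S_LC → S_FRS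

/-- FRT (60 lines). Degree 7, `Bpf 5`, `H 1 = 3`, `H 2 = 5` implies `H 3 ≥ 6`. Let `t = H 3 = H 4` (SYM), `H 5 = 5`, `H 6 = 3`. For linear `l` with
`l·Λ ≠ 0` (degree 6, `Bpf 5`): `r = H (l·Λ) 1 = H (l·Λ) 5 ≥ 2`, `s = H (l·Λ) 2 = H (l·Λ) 4 ≥ 3` (LC).
If `r = 2` for some `l`: FQ with `j = 6` (`H Λ 6 = 3 > 2 = H (l·Λ) 5`): `ν` of degree 6, `H ν 3 ≥ 3` (LC), `H Λ 3 ≥ 3 + s ≥ 6`.
Otherwise `r = 3` for all `l` and `s ≥ 4` by FRS (degree 6). If `s < 5` for some `l`: FQ with `j = 5` (`H Λ 5 = 5 > s = H (l·Λ) 4`):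
`ν` of degree 5, `H ν 3 ≥ 2`, so `H Λ 3 ≥ 2 + s ≥ 6`. Otherwise `s = 5` for all `l` and FPLH with `i = 2`. -/
def S_FRT : Prop := ∀ (Λ : A →ₗ[ℂ] ℂ), Deg 7 Λ → Λ ≠ 0 → Bpf 5 Λ → H Λ 1 = 3 → H Λ 2 = 5 → 6 ≤ H Λ 3

def S_FRTD : Prop := S_FBAS → S_FMON → S_SYM → S_FEB → S_FPLH → S_FQ → S_LC → S_FRS → S_FRT

/-- FPTA (60 lines, uses FQ, SYM, FEV). If `(G/l)_n` has dimension `1` and `(G/l)_{n+1} ≠ 0`, then there is a point `p ≠ 0` with `l(p) = 0`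
at which all forms of degree `n` and of degree `1` killing `Λ` vanish.
Proof: FQ with `j = n+1`: `ν ≠ 0` of degree `n+1`, `l·ν = 0`, `H ν n ≤ 1`, so `H ν 1 ≤ 1` (SYM) and `ν = c ev_p` (FEV). `0 = ν (l g) = c l(p) g(p)` for all `g` of degree `n`
gives `l(p) = 0`; for `f` of degree `n` with `f·Λ = 0`: `f·ν = 0`, so `c f(p) p_i = 0` for all `i`, `f(p) = 0`; the same for linear `f` (`g = (X i)^n`, `p i ≠ 0`). -/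
def S_FPTA : Prop := ∀ (N n : ℕ) (l : A) (Λ : A →ₗ[ℂ] ℂ), Deg N Λ → 1 ≤ n → n + 1 ≤ N → l.IsHomogeneous 1 →
  H Λ n = H (ctr l Λ) (n - 1) + 1 → H Λ (n + 1) = H (ctr l Λ) n + 1 →
  ∃ p : Fin 5 → ℂ, p ≠ 0 ∧ eval p l = 0 ∧ (∀ f : A, f.IsHomogeneous n → ctr f Λ = 0 → eval p f = 0) ∧
    ∀ f : A, f.IsHomogeneous 1 → ctr f Λ = 0 → eval p f = 0

/-- FPTB (80 lines). If `p`, `p'` are not proportional, `l(p) = l(p') = 0` and all forms of degree `n ≥ 1` killing `Λ` vanish at `p` and at `p'`,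
then `(G/l)_n` has dimension at least `2`: the evaluations at `p` and `p'` are linearly independent functionals on `A_n` (there is a linear form
vanishing at `p` and not at `p'` and one vanishing at neither) and they kill `I_n + l A_{n-1}`. -/
def S_FPTB : Prop := ∀ (n : ℕ) (l : A) (Λ : A →ₗ[ℂ] ℂ) (p p' : Fin 5 → ℂ), 1 ≤ n → l.IsHomogeneous 1 →
  p ≠ 0 → p' ≠ 0 → (∀ c : ℂ, p' ≠ c • p) → eval p l = 0 → eval p' l = 0 →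
  (∀ f : A, f.IsHomogeneous n → ctr f Λ = 0 → eval p f = 0 ∧ eval p' f = 0) →
  H (ctr l Λ) (n - 1) + 2 ≤ H Λ n

/-- FPT (60 lines, uses FPTA, FPTB). Point lemma. Take `l1` with `l1·Λ ≠ 0` (exists, `H Λ 1 ≥ 3`), point `p1` (FPTA). The linear forms killing `Λ` vanish at `p1`.
There is `l2` with `l2(p1) ≠ 0`; it does not kill `Λ`; point `p2`, `l2(p2) = 0`, so `p1`, `p2` are not proportional. The linear forms vanishing at `p1`, `p2` have dimension `3`,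
contain those killing `Λ`, which have dimension `5 - H Λ 1 ≤ 2`; so there is `l3` vanishing at `p1`, `p2` with `l3·Λ ≠ 0`; FPTB contradicts the hypothesis for `l3`. -/
def S_FPT : Prop := ∀ (N n : ℕ) (Λ : A →ₗ[ℂ] ℂ), Deg N Λ → 1 ≤ n → n + 1 ≤ N → 3 ≤ H Λ 1 →
  (∀ l : A, l.IsHomogeneous 1 → ctr l Λ ≠ 0 →
    H Λ n = H (ctr l Λ) (n - 1) + 1 ∧ H Λ (n + 1) = H (ctr l Λ) n + 1) → False

def S_FPTD : Prop := S_FPTA → S_FPTB → S_FPT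

/-- Hypotheses of the numerical pieces. -/
structure Tools : Prop where
  bas : S_FBAS
  mon : S_FMON
  sym : S_SYM
  eb : S_FEB
  one : S_FONE
  plh : S_FPLH
  q : S_FQ
  lc : S_LC
  rs : S_FRS
  rt : S_FRT
  pt : S_FPT

/-- FB2 (60 lines). `e = 2`, `h = (1,h1,h2,h1,1)`, sum `≤ 12`. `h1 ≥ 2` (FEB). Suppose `h1 ≥ 3`. Every `l·Λ ≠ 0` has degree 3, `Bpf 3`,
`r = H (l·Λ) 1 = H (l·Λ) 2 ≥ 2`. If some `r < h1`: FQ with `j = 3` (`H Λ 3 = h1`): `ν` of degree 3, `H ν 2 ≥ 2` (LC), so `h2 ≥ r + 2 ≥ 4`. Otherwise FPLH (`i = 1`):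
`h2 ≥ h1 + 1 ≥ 4`. So `2 + 2 h1 + 4 ≤ 12`, `h1 = 3`, `h2 = 4`. -/
def S_FB2 : Prop := Tools → ∀ (Λ : A →ₗ[ℂ] ℂ), Deg 4 Λ → Λ ≠ 0 → Bpf 3 Λ →
  H Λ 0 + H Λ 1 + H Λ 2 + H Λ 3 + H Λ 4 ≤ 12 → H Λ 1 = 2 ∨ (H Λ 1 = 3 ∧ H Λ 2 = 4)

/-- FB3 (120 lines). `e = 3`, `m = 4`, `h = (1,h1,h2,h3,h2,h1,1)`, sum `≤ 24`: `2 + 2h1 + 2h2 + h3 ≤ 24`. Suppose `h1 ≥ 3`. For linear `l` with `l·Λ ≠ 0` (degree 5, `Bpf 4`):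
`r = H(l·Λ)1 = H(l·Λ)4 ≥ 2`, `s = H(l·Λ)2 = H(l·Λ)3 ≥ 3`, `r ≤ h1`, `s ≤ h2`, `s ≤ h3`.
(i) some `l` with `r < h1`: FQ `j = 5`: `ν` of degree 5, `H ν 2, H ν 3 ≥ 3`: `h2 ≥ r+3 ≥ 5`, `h3 ≥ s+3 ≥ 6`; the sum gives `h1 = 3`, `h2 = 5`, `h3 = 6`.
(ii) `r = h1` for all `l`: FPLH `i=1`: `h2 ≥ h1+1`.
 (a) some `l` with `s < h2`: FQ `j = 4` (`H Λ 4 = h2`, `H (l·Λ) 3 = s`): `ν` of degree 4, `H ν 2, H ν 3 ≥ 2`: `h2 ≥ h1+2`, `h3 ≥ s+2 ≥ 5`, so `4 h1 + h3 ≤ 18`, `h1 = 3`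
   (`h1 ≥ 4` gives `h3 ≤ 2`); now `s ≥ 4` by FRS for `l·Λ` (`H (l·Λ) 1 = r = 3`), so `h3 ≥ 6`, `2 h2 + h3 ≤ 16`, `h2 = 5`, `h3 = 6`.
 (b) `s = h2` for all `l`: FPLH `i = 2`: `h3 ≥ h2+1`. `h1 ≥ 4`: `h2 ≥ 5`, `h3 ≥ 6`, sum `≥ 26`. So `h1 = 3`, `2h2+h3 ≤ 16`. `h2 = 4`: `h2 = r + 1` for all `l`, FONE (`i = 2`): `h3 ≤ s+1 = 5`,
   so `h3 = 5 = s + 1`, FPT with `n = 2`, contradiction. `h2 = 5`: `h3 = 6`. `h2 ≥ 6`: `2 h2 + h3 ≥ 19`. -/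
def S_FB3 : Prop := Tools → ∀ (Λ : A →ₗ[ℂ] ℂ), Deg 6 Λ → Λ ≠ 0 → Bpf 4 Λ →
  H Λ 0 + H Λ 1 + H Λ 2 + H Λ 3 + H Λ 4 + H Λ 5 + H Λ 6 ≤ 24 →
  H Λ 1 = 2 ∨ (H Λ 1 = 3 ∧ H Λ 2 = 5 ∧ H Λ 3 = 6)

/-- FB4 (180 lines). `e = 4`, `m = 5`, `h = (1,h1,h2,h3,h4,h3,h2,h1,1)`, `2+2h1+2h2+2h3+h4 ≤ 40`, `h1 ≤ 4`. Suppose `h1 ≥ 3`. For linear `l` with `l·Λ ≠ 0` (degree 7, `Bpf 5`):
`r = H(l·Λ)1 = H(l·Λ)6 ≥ 2`, `s = H(l·Λ)2 = H(l·Λ)5 ≥ 3`, `t = H(l·Λ)3 = H(l·Λ)4 ≥ 4`; `r ≤ h1`, `s ≤ h2`, `t ≤ h3`, `t ≤ h4`.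
(i) some `r < h1`: FQ `j=7`: `ν` degree 7: `H ν 2 ≥ 3`, `H ν 3, H ν 4 ≥ 4`: `h2 ≥ r+3 ≥ 5`, `h3 ≥ s+4 ≥ 7`, `h4 ≥ t+4 ≥ 8`; sum: `h1 = 3, h2 = 5, h3 = 7, h4 = 8`.
(ii) `r = h1` for all `l`; FPLH: `h2 ≥ h1+1`.
 (a) some `s < h2`: FQ `j=6`: `ν` degree 6 (`H ν 2, 3, 4 ≥ 3`): `h2 ≥ h1+3`, `h3 ≥ s+3 ≥ 6`, `h4 ≥ t+3 ≥ 7`: `2+2h1+2h1+6+12+7 ≤ 40` so `h1 = 3`, then `s ≥ 4` (FRS), `h2 ≥ 6`, `h3 ≥ 7`:
   `2+6+12+14+7 = 41 > 40`. Contradiction.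
 (b) `s = h2` for all `l`; FPLH `i=2`: `h3 ≥ h2+1`.
  (b1) some `t < h3`: FQ `j=5`: `ν` degree 5 (`H ν 2, 3, 4 ≥ 2`): `h2 ≥ h1+2`, `h3 ≥ h2+2`, `h4 ≥ t+2 ≥ 6`: `6 h1 + 14 + h4 ≤ 40` gives `h1 = 3`. `h2 ≥ 5`, `h3 ≥ 7`. If `h2 ≥ 6`: `h3 ≥ 8`,
     `2+6+12+16 + h4 ≤ 40`, `h4 ≤ 4`, contradiction. So `h2 = 5 = s`, `r = 3`, FRT for `l·Λ`: `t ≥ 6`, `h4 ≥ 8`, so `h3 = 7`, `h4 = 8`.
  (b2) `t = h3` for all `l`; FPLH `i=3`: `h4 ≥ h3+1`. `h1 = 4`: `h2 ≥ 5`; if `h2 ≥ 6` or `h3 ≥ 7` the sum is too big (`h2 ≥ 6`: `h3 ≥ 7`, `h4 ≥ 8`: 44; `h2 = 5, h3 ≥ 7`: 42); so `h2 = 5`, `h3 = 6`: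
     `h2 = r+1`, `h3 = s+1` for all `l`: FPT `n = 2`. `h1 = 3`: `2(h2+h3)+h4 ≤ 32`. `h2 = 4`: `h2 = r+1`; FONE `i=2`: `h3 ≤ s+1`, so `h3 = s+1`: FPT `n=2`.
     `h2 = 5`, `h3 = 6`: `h3 = s+1`; FONE `i = 3`: `h4 ≤ t+1`, so `h4 = t+1`: FPT `n = 3`. `h2 = 5`, `h3 = 7`: `h4 = 8`. `h2 = 5`, `h3 ≥ 8`: `h4 ≥ 9`, too big. `h2 ≥ 6`: `h3 ≥ 7`, `h4 ≥ 8`: too big. -/
def S_FB4 : Prop := Tools → ∀ (Λ : A →ₗ[ℂ] ℂ), Deg 8 Λ → Λ ≠ 0 → Bpf 5 Λ → H Λ 1 ≤ 4 →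
  H Λ 0 + H Λ 1 + H Λ 2 + H Λ 3 + H Λ 4 + H Λ 5 + H Λ 6 + H Λ 7 + H Λ 8 ≤ 40 →
  H Λ 1 = 2 ∨ (H Λ 1 = 3 ∧ H Λ 2 = 5 ∧ H Λ 3 = 7 ∧ H Λ 4 = 8)

end Pool.Agent.NOD
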