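import Pool.Agent.NOD.Defs

/-!
# PROJECT NOD, section S3 (Lefschetz part, lead helper21): definitions and statements.
Statements only (NOT results). Every `S_XXX` is a piece, the docstring contains the proof. File for
the piece XXX: `Pool/Agent/NOD/L3/XXX.lean`, `theorem t_XXX : S_XXX` (pieces which use other pieces
take them as hypotheses, see the docstring), namespace `Pool.Agent.NOD.L3`.
-/

set_option autoImplicit false

namespace Pool.Agent.NOD.L3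

open MvPolynomial

/-- The fractions `p / s^n` with `p ∈ I`, as an `A`-submodule of the fraction field `K`. -/
def LI (I : Ideal A) (s : A) : Submodule A K where
  carrier := {x | ∃ (n : ℕ) (p : A), p ∈ I ∧ algebraMap A K s ^ n * x = algebraMap A K p}
  zero_mem' := ⟨0, 0, I.zero_mem, by simp⟩
  add_mem' := by
    rintro x y ⟨n, p, hp, hx⟩ ⟨m, q, hq, hy⟩
    refine ⟨n + m, s ^ m * p + s ^ n * q, I.add_mem (I.mul_mem_left _ hp) (I.mul_mem_left _ hq), ?_⟩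
    rw [map_add, map_mul, map_mul, ← hx, ← hy, map_pow, map_pow]
    ring
  smul_mem' := by
    rintro c x ⟨n, p, hp, hx⟩
    refine ⟨n, c * p, I.mul_mem_left _ hp, ?_⟩
    rw [map_mul, ← hx, Algebra.smul_def]
    ring

/-- The homogeneous elements of degree `t` of `K`, as a complex vector space. -/
def HS (t : ℤ) : Submodule ℂ K where
  carrier := {x | HomK t x}
  zero_mem' := by
    rcases le_total 0 t with h | h
    · exact ⟨t.toNat, 0, 0, 1, isHomogeneous_zero _ _ _, isHomogeneous_one _ _, one_ne_zero,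
        by simp [h], by simp⟩
    · refine ⟨0, (-t).toNat, 0, X 0 ^ (-t).toNat, isHomogeneous_zero _ _ _, ?_, ?_,
        by simp [h], by simp⟩
      · exact isHomogeneous_X_pow _ _
      · exact pow_ne_zero _ (X_ne_zero 0)
  add_mem' := by
    rintro x y ⟨n, m, p, q, hp, hq, hq0, h1, h2⟩ ⟨n', m', p', q', hp', hq', hq0', h1', h2'⟩
    refine ⟨n + m', m + m', p * q' + p' * q, q * q', ?_, hq.mul hq', mul_ne_zero hq0 hq0', ?_, ?_⟩
    · refine (hp.mul hq').add ?_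
      have e : n + m' = n' + m := by omega
      rw [e]
      exact hp'.mul hq
    · push_cast
      omega
    · rw [map_add, map_mul, map_mul, map_mul, ← h2, ← h2']
      ring
  smul_mem' := by
    rintro c x ⟨n, m, p, q, hp, hq, hq0, h1, h2⟩
    refine ⟨n, m, C c * p, q, ?_, hq, hq0, h1, ?_⟩
    · have := (isHomogeneous_C (Fin 5) c).mul hp
      rwa [zero_add] at this
    · rw [map_mul, ← h2, Algebra.smul_def, IsScalarTower.algebraMap_apply ℂ A K c,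
        ← MvPolynomial.algebraMap_eq]
      ring

/-- Everything we know (chart and transition functions). -/
structure Dat (d : ℕ) (F : A) (P : Ideal A) (u g : Fin 3 → A) (del gam : Fin 3 → ℕ)
    (a : ℕ → Fin 3 → Fin 3 → K) : Prop where
  hd : 3 ≤ d
  F_hom : F.IsHomogeneous d
  F_prime : Prime F
  P_prime : P.IsPrime
  P_hom : HomId P
  F_mem : F ∈ P
  P_ht : P.height = 2
  del_pos : ∀ i, 0 < del i
  u_hom : ∀ i, (u i).IsHomogeneous (del i)
  g_hom : ∀ i, (g i).IsHomogeneous (gam i)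
  g_mem : ∀ i, g i ∈ P
  u_not : ∀ i, u i ∉ P
  loc : ∀ i, ∀ p ∈ P, u i * p ∈ Ideal.span {F, g i}
  reg : PReg ![F, u 0, u 1, u 2]
  reg2 : PReg ![F, g 0, u 1, u 2]
  mem : ∀ k, 1 ≤ k → ∀ i j, a k i j ∈ LI ⊤ (u i * u j)
  hom : ∀ k, 1 ≤ k → ∀ i j, a k i j ∈ HS ((gam j : ℤ) - gam i)
  diag : ∀ k, 1 ≤ k → ∀ i, a k i i = 1
  gen : ∀ k, 1 ≤ k → ∀ i j, algebraMap A K (g i) * a k i j - algebraMap A K (g j) ∈
    LI (Ideal.span {F}) (u i * u j)
  coc : ∀ k, 1 ≤ k → ∀ i j l, a k i j * a k j l - a k i l ∈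
    LI (Ideal.span {F ^ k}) (u i * u j * u l)
  comp : ∀ k, 1 ≤ k → ∀ i j, a (k + 1) i j - a k i j ∈ LI (Ideal.span {F ^ k}) (u i * u j)

/-- Sections of level `k` and degree `t`. -/
def Sec (F : A) (u : Fin 3 → A) (gam : Fin 3 → ℕ) (a : ℕ → Fin 3 → Fin 3 → K) (k : ℕ) (t : ℤ) :
    Submodule ℂ (Fin 3 → K) where
  carrier := {s | (∀ i, s i ∈ LI ⊤ (u i) ∧ s i ∈ HS (t - gam i)) ∧
    ∀ i j, s i - a k i j * s j ∈ LI (Ideal.span {F ^ k}) (u i * u j)}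
  zero_mem' := ⟨fun i => ⟨Submodule.zero_mem _, Submodule.zero_mem _⟩, fun i j => by simp⟩
  add_mem' := by
    rintro s r ⟨h1, h2⟩ ⟨h3, h4⟩
    refine ⟨fun i => ⟨Submodule.add_mem _ (h1 i).1 (h3 i).1, Submodule.add_mem _ (h1 i).2 (h3 i).2⟩,
      fun i j => ?_⟩
    have e : (s + r) i - a k i j * (s + r) j = (s i - a k i j * s j) + (r i - a k i j * r j) := by
      simp only [Pi.add_apply]
      ring
    rw [e]
    exact Submodule.add_mem _ (h2 i j) (h4 i j)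
  smul_mem' := by
    rintro c s ⟨h1, h2⟩
    have e0 : ∀ (I : Ideal A) (v : A) (x : K), x ∈ LI I v → c • x ∈ LI I v := by
      intro I v x hx
      rw [← IsScalarTower.algebraMap_smul A c x]
      exact Submodule.smul_mem _ _ hx
    refine ⟨fun i => ⟨e0 _ _ _ (h1 i).1, Submodule.smul_mem _ _ (h1 i).2⟩, fun i j => ?_⟩
    have e : (c • s) i - a k i j * (c • s) j = c • (s i - a k i j * s j) := by
      simp only [Pi.smul_apply, smul_sub, mul_smul_comm]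
    rw [e]
    exact e0 _ _ _ (h2 i j)

/-- Families which are zero modulo `I`. -/
def Nul (I : Ideal A) (u : Fin 3 → A) : Submodule ℂ (Fin 3 → K) where
  carrier := {s | ∀ i, s i ∈ LI I (u i)}
  zero_mem' := fun i => Submodule.zero_mem _
  add_mem' := fun h1 h2 i => Submodule.add_mem _ (h1 i) (h2 i)
  smul_mem' := by
    intro c s h i
    change c • s i ∈ LI I (u i)
    rw [← IsScalarTower.algebraMap_smul A c (s i)]
    exact Submodule.smul_mem _ _ (h i)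

/-- The finite dimensional space of sections of level `k` modulo `F^k`. -/
noncomputable def VV (F : A) (u : Fin 3 → A) (gam : Fin 3 → ℕ) (a : ℕ → Fin 3 → Fin 3 → K) (k : ℕ)
    (t : ℤ) : Submodule ℂ ((Fin 3 → K) ⧸ Nul (Ideal.span {F ^ k}) u) :=
  (Sec F u gam a k t).map (Nul (Ideal.span {F ^ k}) u).mkQ

/-- The sections of `A / P` over the three open sets. -/
def BP (P : Ideal A) (u : Fin 3 → A) (t : ℤ) : Submodule ℂ (Fin 3 → K) where
  carrier := {s | (∀ i, s i ∈ LI ⊤ (u i) ∧ s i ∈ HS t) ∧ ∀ i j, s i - s j ∈ LI P (u i * u j)}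
  zero_mem' := ⟨fun i => ⟨Submodule.zero_mem _, Submodule.zero_mem _⟩, fun i j => by simp⟩
  add_mem' := by
    rintro s r ⟨h1, h2⟩ ⟨h3, h4⟩
    refine ⟨fun i => ⟨Submodule.add_mem _ (h1 i).1 (h3 i).1, Submodule.add_mem _ (h1 i).2 (h3 i).2⟩,
      fun i j => ?_⟩
    have e : (s + r) i - (s + r) j = (s i - s j) + (r i - r j) := by
      simp only [Pi.add_apply]
      ring
    rw [e]
    exact Submodule.add_mem _ (h2 i j) (h4 i j)
  smul_mem' := by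
    rintro c s ⟨h1, h2⟩
    have e0 : ∀ (I : Ideal A) (v : A) (x : K), x ∈ LI I v → c • x ∈ LI I v := by
      intro I v x hx
      rw [← IsScalarTower.algebraMap_smul A c x]
      exact Submodule.smul_mem _ _ hx
    refine ⟨fun i => ⟨e0 _ _ _ (h1 i).1, Submodule.smul_mem _ _ (h1 i).2⟩, fun i j => ?_⟩
    have e : (c • s) i - (c • s) j = c • (s i - s j) := by
      simp only [Pi.smul_apply, smul_sub]
    rw [e]
    exact e0 _ _ _ (h2 i j)

/-- The space of sections of `A / P`. -/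
noncomputable def VB (P : Ideal A) (u : Fin 3 → A) (t : ℤ) :
    Submodule ℂ ((Fin 3 → K) ⧸ Nul P u) :=
  (BP P u t).map (Nul P u).mkQ

/-- The Hilbert function of the ideal `I` (zero for negative `t`). -/
noncomputable def hI (I : Ideal A) (t : ℤ) : ℕ :=
  if 0 ≤ t then Module.finrank ℂ
    ((I.restrictScalars ℂ ⊓ homogeneousSubmodule (Fin 5) ℂ t.toNat : Submodule ℂ A)) else 0

/-! ## First pieces (commutative algebra) -/

/-- HNUM (70 lines): homogeneous numerators. Proof: `s^n x = p` with `p ∈ I` and `x = p'/q'`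
homogeneous of degree `t`; then `p q' = s^n p'`. If `x = 0` take `p = 0` for `n` large. Otherwise
`p ≠ 0` is a factor of the homogeneous polynomial `s^n p'`, `q'` is homogeneous, so `p` is
homogeneous (compare components: if `p q'` is homogeneous, `q' ≠ 0` homogeneous, then `p` is
homogeneous: the components `p_j q'` have different degrees; no need of unique factorization) of
degree `m` with `m + deg q' = n δ + deg p'`, so `m = t + n δ`. For bigger `n` multiply by powers of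
`s`. -/
def S_HNUM : Prop := ∀ (I : Ideal A) (s : A) (δ : ℕ) (t : ℤ) (x : K), 0 < δ →
  s.IsHomogeneous δ → s ≠ 0 → x ∈ LI I s → x ∈ HS t →
  ∃ N : ℕ, ∀ n ≥ N, ∃ (m : ℕ) (p : A), (m : ℤ) = t + n * δ ∧ p.IsHomogeneous m ∧ p ∈ I ∧
    algebraMap A K s ^ n * x = algebraMap A K p

/-- CHG (100 lines; `theorem t_CHG (h1 : S_HNUM) : S_CHG`): gluing on two open sets modulo a
homogeneous ideal `I`. Proof. By HNUM (for `⊤`) `x = p / v^n`, `y = q / w^n` with a common `n`, `p`,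
`q` homogeneous. `x - y ∈ LI I (v w)` gives `(v w)^N (w^n p - v^n q) ∈ I`, hence
`w^n p - v^n q ∈ I` (`v`, `w` are nonzerodivisors modulo `I`), so `w^n p ∈ I + (v^n)`, so
`p ∈ I + (v^n)` by the third hypothesis, `p = f + v^n c`, `f ∈ I`; take the homogeneous components
of degree `t + n δ`: `c` is homogeneous of degree `t` (`c = 0` if `t < 0`). So
`x - c = f / v^n ∈ LI I v`. And `v^n (w^n c - q) = w^n (p - f) - v^n q ∈ I`, so `w^n c - q ∈ I`,
`y - c ∈ LI I w`. -/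
def S_CHG : Prop := ∀ (I : Ideal A) (v w : A) (δ ε : ℕ) (t : ℤ) (x y : K), HomId I → 0 < δ →
  0 < ε → v.IsHomogeneous δ → w.IsHomogeneous ε → v ≠ 0 → w ≠ 0 → NZD I v → NZD I w →
  (∀ n, NZD (I ⊔ Ideal.span {v ^ n}) w) → x ∈ LI ⊤ v → y ∈ LI ⊤ w → x ∈ HS t → y ∈ HS t →
  x - y ∈ LI I (v * w) →
  ∃ c : A, (0 ≤ t → c.IsHomogeneous t.toNat) ∧ (t < 0 → c = 0) ∧
    x - algebraMap A K c ∈ LI I v ∧ y - algebraMap A K c ∈ LI I w

/-- CH0 (80 lines; `theorem t_CH0 (h1 : S_CHG) (h2 : S_POW) : S_CH0`): sections of `A / F`.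
Proof. CHG for `I = (F)`, `v = u_0`, `w = u_1` (the hypotheses follow from PReg, with S_POW for the
powers `u_0^n`: `NZD (span {F, u_0^n}) u_1`). For `i = 2`: `s_2 - c = (s_2 - s_0) + (s_0 - c) ∈
LI (F) (u_2 u_0)` and it is in `LI ⊤ u_2`; as `F` is prime and does not divide `u_0`, it is in
`LI (F) u_2`. -/
def S_CH0 : Prop := ∀ (d : ℕ) (F : A) (P : Ideal A) (u g : Fin 3 → A) (del gam : Fin 3 → ℕ)
  (a : ℕ → Fin 3 → Fin 3 → K), Dat d F P u g del gam a → ∀ (t : ℤ) (s : Fin 3 → K),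
  (∀ i, s i ∈ LI ⊤ (u i) ∧ s i ∈ HS t) →
  (∀ i j, s i - s j ∈ LI (Ideal.span {F}) (u i * u j)) →
  ∃ c : A, (0 ≤ t → c.IsHomogeneous t.toNat) ∧ (t < 0 → c = 0) ∧
    ∀ i, s i - algebraMap A K c ∈ LI (Ideal.span {F}) (u i)

/-- CH1 (150 lines; `theorem t_CH1 (h1 : S_HNUM) (h2 : S_POW) : S_CH1`): the cocycles of `A / F`
split. Proof. It is enough to find `z` with the property for `(0,1)`, `(1,2)`, `(0,2)`: from the
cocycle condition with `i = j = l`: `y_ii ∈ F Loc(u_i u_i u_i)`, and `y_ij + y_ji ∈ F Loc`, where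
an element of `Loc(u_i u_j)` in `F Loc(u_0 u_1 u_2)` is in `F Loc(u_i u_j)` (`F` is prime and does
not divide the `u`). By HNUM `y_ij = p_ij / (u_i u_j)^n`, `p_ij` homogeneous, for the three pairs.
`y_01 + y_12 - y_02 ∈ F Loc(u_0 u_1 u_2)` multiplied out: `u_2^n p_01 + u_0^n p_12 - u_1^n p_02 ∈
(F)`, so `u_2^n p_01 ∈ (F, u_0^n, u_1^n)`, and by PReg of powers `p_01 = F f + u_1^n b - u_0^n c`,
i.e. `y_01 = b/u_0^n - c/u_1^n` mod `F`. Insert: `u_0^n (p_12 - u_2^n c) - u_1^n (p_02 - u_2^n b) ∈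
(F)`, so `p_12 - u_2^n c ∈ (F, u_1^n)`: `p_12 = u_2^n c - u_1^n e` mod `F`, and then
`u_1^n (p_02 - u_2^n b + u_0^n e) ∈ (F)`, so `p_02 = u_2^n b - u_0^n e` mod `F`. Take
`z_0 = b/u_0^n`, `z_1 = c/u_1^n`, `z_2 = e/u_2^n` (homogeneous components of `b, c, e` of degrees
`t + n δ_i`, `0` if this is negative). -/
def S_CH1 : Prop := ∀ (d : ℕ) (F : A) (P : Ideal A) (u g : Fin 3 → A) (del gam : Fin 3 → ℕ)
  (a : ℕ → Fin 3 → Fin 3 → K), Dat d F P u g del gam a → ∀ (t : ℤ) (y : Fin 3 → Fin 3 → K),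
  (∀ i j, y i j ∈ LI ⊤ (u i * u j) ∧ y i j ∈ HS t) →
  (∀ i j l, y i j + y j l - y i l ∈ LI (Ideal.span {F}) (u i * u j * u l)) →
  ∃ z : Fin 3 → K, (∀ i, z i ∈ LI ⊤ (u i) ∧ z i ∈ HS t) ∧
    ∀ i j, y i j - (z i - z j) ∈ LI (Ideal.span {F}) (u i * u j)

/-- DIMA (50 lines): the number of monomials. -/
def S_DIMA : Prop := ∀ n : ℕ,
  Module.finrank ℂ (homogeneousSubmodule (Fin 5) ℂ n) = (n + 4).choose 4

/-- HCI (80 lines; `theorem t_HCI : S_HCI`): Hilbert function of an ideal generated by two forms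
without common factor (upper and lower bound by the Koszul relation). Proof:
`(F, G)_t = F A_(t-d) + G A_(t-e)`, and `F A_(t-d) ∩ G A_(t-e) = F G A_(t-d-e)` (if `F a = G b` then
`F ∣ b` as `G` is a nonzerodivisor modulo `F`). Dimension formula
`Submodule.finrank_sup_add_finrank_inf_eq`; multiplication by `F` is injective. -/
def S_HCI : Prop := ∀ (d e : ℕ) (F G : A) (t : ℕ), F.IsHomogeneous d → G.IsHomogeneous e →
  F ≠ 0 → NZD (Ideal.span {F}) G →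
  hI (Ideal.span {F, G}) t + hI ⊤ ((t : ℤ) - d - e) = hI ⊤ ((t : ℤ) - d) + hI ⊤ ((t : ℤ) - e)

/-- LB (120 lines): lower bound of the Hilbert function of a principal submodule. Proof by
induction on `r` of: `I` homogeneous, `y_0, .., y_(r-1)` linear, `y_j` a nonzerodivisor modulo
`I + (y_0, .., y_(j-1))`, `p ∉ I` homogeneous of degree `n₀`, `J ⊇ I + (p)` homogeneous: then
`dim J_t ≥ dim I_t + C(t - n₀ + r - 1, r - 1)` for `t ≥ n₀` (`r ≥ 1`; for `r = 0`: only `t = n₀`).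
One may assume that `p` is not in `I + (y_0)`: otherwise `p = y_0^k p'` modulo `I`, with
`p' ∉ I + (y_0)` homogeneous of degree `n₀ - k`, and multiplication by `y_0^k` is injective modulo
`I`, `(A p')_(t-k) → (A p)_t`. Then with `N = (I + (p))/I`: `dim N_t - dim N_(t-1) =
dim (N/y_0 N)_t ≥ dim ((I + (y_0) + (p))/(I + (y_0)))_t ≥ C(t - n₀ + r - 2, r - 2)`; sum up. -/
def S_LB : Prop := ∀ (F G p : A) (y : Fin 3 → A) (d e n₀ : ℕ) (P : Ideal A), F.IsHomogeneous d →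
  G.IsHomogeneous e → p.IsHomogeneous n₀ → (∀ i, (y i).IsHomogeneous 1) →
  PReg ![F, G, y 0, y 1, y 2] → HomId P → F ∈ P → G ∈ P → p ∈ P → p ∉ Ideal.span {F, G} →
  ∀ t : ℕ, n₀ ≤ t → hI (Ideal.span {F, G}) t + (t - n₀ + 2).choose 2 ≤ hI P t

/-- LINREL (40 lines, linear algebra): a linear relation `Γ` between `X` and `Y`. Proof: the maps
`Γ → X/X₀` (surjective) and `Γ → Y/Y₀`; the kernel of the second is contained in the kernel of the
first. -/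
def S_LINREL : Prop := ∀ (X Y : Type) [AddCommGroup X] [Module ℂ X] [AddCommGroup Y] [Module ℂ Y]
  (Γ : Submodule ℂ (X × Y)) (X₀ : Submodule ℂ X) (Y₀ : Submodule ℂ Y),
  (∀ x, ∃ y, (x, y) ∈ Γ) → (∀ x y, (x, y) ∈ Γ → y ∈ Y₀ → x ∈ X₀) → Module.Finite ℂ (Y ⧸ Y₀) →
  Module.Finite ℂ (X ⧸ X₀) ∧ Module.finrank ℂ (X ⧸ X₀) ≤ Module.finrank ℂ (Y ⧸ Y₀)

/-! ## Sections: levels -/

/-- V1 (100 lines; `theorem t_V1 (h1 : S_CH0) (h2 : S_LINREL) (h3 : S_HNUM) : S_V1`): level one.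
Proof. Relation `Γ` between `X = Sec 1 t` and `Y = P ∩ A_t`: `(s, p) ∈ Γ` iff
`g_i s_i - p ∈ LI (F) (u_i)` for all `i`. For `s ∈ X`: `n_i = g_i s_i` is homogeneous of degree `t`,
`n_i - n_j = g_i (s_i - a_ij s_j) + (g_i a_ij - g_j) s_j ∈ LI (F) (u_i u_j)`, so CH0 gives `p`, and
`p ∈ P`: `u_0^n p ∈ (F, g_0)`. For `p ∈ Y`: `u_i p = F b + g_i c` (homogeneous components), take
`s_i = c / u_i`; then `g_i (s_i - a_ij s_j) ∈ LI (F)` and `g_i` is not divisible by `F` (else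
`u_i P ⊆ (F)`, `P = (F)`, height `1`), so `s ∈ X`. If `(s, p) ∈ Γ`: `s ∈ Nul` iff `p ∈ (F)`. So
LINREL twice gives equal dimensions of `X / (X ∩ Nul)` and `P_t / (F)_t`. `t < 0`: both are `0`. -/
def S_V1 : Prop := ∀ (d : ℕ) (F : A) (P : Ideal A) (u g : Fin 3 → A) (del gam : Fin 3 → ℕ)
  (a : ℕ → Fin 3 → Fin 3 → K), Dat d F P u g del gam a → ∀ t : ℤ,
  Module.Finite ℂ (VV F u gam a 1 t) ∧
    Module.finrank ℂ (VV F u gam a 1 t) + hI ⊤ (t - d) = hI P t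

/-- BPD (120 lines; `theorem t_BPD (h1 : S_CHG) (h2 : S_POW) (h3 : S_LINREL) : S_BPD`): the sections
of `A / P`. Proof. `β ∈ BP t`. For `i = 1, 2`: `u_0 β_1 - u_0 β_2 ∈ u_0 LI P (u_1 u_2) ⊆
LI (F, g_0) (u_1 u_2)` by `loc`. CHG for the ideal `I = (F, g_0)`, `v = u_1`, `w = u_2` (hypotheses
from `reg2` and S_POW) gives `c` of degree `t + δ_0` with `u_0 β_i - c ∈ LI I (u_i)`, `i = 1, 2`, so in
`LI P (u_i)`; for `i = 0`: `u_0 β_0 - c = u_0 (β_0 - β_1) + (u_0 β_1 - c) ∈ LI P (u_0 u_1)`, and it is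
in `LI ⊤ (u_0)`, so in `LI P (u_0)` (`P` prime, `u_1 ∉ P`). If `c ∈ P` then `u_0 β_i ∈ LI P (u_i)`, so
`β_i ∈ LI P (u_i)`. So (LINREL) `dim VB t ≤ dim A_(t+δ_0) / P_(t+δ_0)`. For `t < 0`: `β^n ∈ BP (n t)`
(`β_i^n - β_j^n` is divisible by `β_i - β_j`), for `n t + δ_0 < 0` the element `c` is `0`, so
`β_i^n ∈ LI P (u_i)` and so `β_i ∈ LI P (u_i)`. -/
def S_BPD : Prop := ∀ (d : ℕ) (F : A) (P : Ideal A) (u g : Fin 3 → A) (del gam : Fin 3 → ℕ)
  (a : ℕ → Fin 3 → Fin 3 → K), Dat d F P u g del gam a →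
  (∀ t : ℤ, Module.Finite ℂ (VB P u t) ∧
    Module.finrank ℂ (VB P u t) + hI P (t + del 0) ≤ hI ⊤ (t + del 0)) ∧
  ∀ t : ℤ, t < 0 → ∀ β ∈ BP P u t, ∀ i, β i ∈ LI P (u i)

/-- OBS (120 lines; `theorem t_OBS (h1 : S_CH1) : S_OBS`): the obstruction. Proof. `a = a k`,
`a' = a (k+1)`. `s_i - a'_ij s_j = (s_i - a_ij s_j) - (a'_ij - a_ij) s_j ∈ F^k Loc(u_i u_j)`
(`= F^k τ_ij`; `τ_ij ∈ LI ⊤ (u_i u_j)` is homogeneous of degree `t - γ_i - k d`). From
`s_i - a'_il s_l = (s_i - a'_ij s_j) + a'_ij (s_j - a'_jl s_l) + (a'_ij a'_jl - a'_il) s_l`: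
`τ_il = τ_ij + a'_ij τ_jl` modulo `F Loc(u_i u_j u_l)`. Put `y_ij = g_i τ_ij` (degree `t - k d`); as
`g_i a'_ij = g_j` modulo `F Loc(u_i u_j)`, `y_il = y_ij + y_jl` modulo `F Loc(u_i u_j u_l)`. CH1 gives
`β` with `y_ij = β_i - β_j` modulo `F Loc(u_i u_j)`; `β_i - β_j ∈ LI P (u_i u_j)` as `g_i, F ∈ P`. -/
def S_OBS : Prop := ∀ (d : ℕ) (F : A) (P : Ideal A) (u g : Fin 3 → A) (del gam : Fin 3 → ℕ)
  (a : ℕ → Fin 3 → Fin 3 → K), Dat d F P u g del gam a → ∀ (k : ℕ) (t : ℤ), 1 ≤ k →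
  ∀ s ∈ Sec F u gam a k t, ∃ β ∈ BP P u (t - k * d), ∀ i j,
    algebraMap A K (g i) * (s i - a (k + 1) i j * s j) -
      algebraMap A K (F ^ k) * (β i - β j) ∈ LI (Ideal.span {F ^ (k + 1)}) (u i * u j)

/-- LIFT (120 lines; `theorem t_LIFT (h1 : S_HNUM) : S_LIFT`). Proof. `β_i - b ∈ LI P (u_i)` is
homogeneous of degree `t - k d`, so by HNUM `u_i^n (β_i - b) = p ∈ P` homogeneous and
`u_i p = F f + g_i c` with `c` homogeneous; `σ_i = c / u_i^(n+1)` (homogeneous of degree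
`t - k d - γ_i`), `β_i - b - g_i σ_i ∈ LI (F) (u_i)`. Put `s'_i = s_i - F^k σ_i`. Then
`g_i (s'_i - a'_ij s'_j) = g_i (s_i - a'_ij s_j) - F^k (g_i σ_i - g_i a'_ij σ_j) =
F^k (β_i - β_j - g_i σ_i + g_j σ_j) = 0` modulo `F^(k+1) Loc(u_i u_j)`, and `g_i` is a
nonzerodivisor modulo `F^(k+1)` in `Loc(u_i u_j)` (`F` is prime and does not divide `g_i`, else
`u_i P ⊆ (F)`). -/
def S_LIFT : Prop := ∀ (d : ℕ) (F : A) (P : Ideal A) (u g : Fin 3 → A) (del gam : Fin 3 → ℕ)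
  (a : ℕ → Fin 3 → Fin 3 → K), Dat d F P u g del gam a → ∀ (k : ℕ) (t : ℤ), 1 ≤ k →
  ∀ s ∈ Sec F u gam a k t, ∀ β ∈ BP P u (t - k * d),
  (∀ i j, algebraMap A K (g i) * (s i - a (k + 1) i j * s j) -
    algebraMap A K (F ^ k) * (β i - β j) ∈ LI (Ideal.span {F ^ (k + 1)}) (u i * u j)) →
  ∀ b : A, algebraMap A K b ∈ HS (t - k * d) →
  (∀ i, β i - algebraMap A K b ∈ LI P (u i)) →
  ∃ s' ∈ Sec F u gam a (k + 1) t, ∀ i, s' i - s i ∈ LI (Ideal.span {F ^ k}) (u i)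

/-- KER (70 lines). Proof. `s_i = F^k r_i` with `r_i ∈ LI ⊤ (u_i)`, homogeneous of degree
`t - k d - γ_i`; `F^k (r_i - a'_ij r_j) ∈ F^(k+1) Loc(u_i u_j)`, so `r_i - a'_ij r_j ∈ LI (F)`, and
`a' = a (k+1)` is `a 1` modulo `F` (by `comp`). The converse is the same computation. -/
def S_KER : Prop := ∀ (d : ℕ) (F : A) (P : Ideal A) (u g : Fin 3 → A) (del gam : Fin 3 → ℕ)
  (a : ℕ → Fin 3 → Fin 3 → K), Dat d F P u g del gam a → ∀ (k : ℕ) (t : ℤ), 1 ≤ k →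
  (∀ s ∈ Sec F u gam a (k + 1) t, (∀ i, s i ∈ LI (Ideal.span {F ^ k}) (u i)) →
    ∃ r ∈ Sec F u gam a 1 (t - k * d), ∀ i, s i = algebraMap A K (F ^ k) * r i) ∧
  ∀ r ∈ Sec F u gam a 1 (t - k * d),
    (fun i => algebraMap A K (F ^ k) * r i) ∈ Sec F u gam a (k + 1) t

/-- STEP (200 lines; `theorem t_STEP (h1 : S_V1) (h2 : S_BPD) (h3 : S_OBS) (h4 : S_LIFT) (h5 : S_KER)
(h6 : S_LINREL) : S_STEP`): dimensions. Put `τ = t - k d`. The restriction
`ρ : VV (k+1) t → VV k t` (a section of level `k + 1` is one of level `k`). Its kernel is isomorphic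
to `VV 1 τ` by KER (`F^k r ∈ Nul (F^(k+1))` iff `r ∈ Nul (F)`), of dimension `hI P τ - hI ⊤ (τ - d)`.
This gives finiteness and the first inequality. The cokernel: LINREL with `X = Sec k t`,
`X₀ = {s | ∃ s' ∈ Sec (k+1) t, s' - s ∈ Nul (F^k)}`, `Y = BP τ`, `Y₀ = {β | ∃ b ∈ A, b homogeneous of
degree τ (0 if τ < 0), β_i - b ∈ LI P (u_i)}`, `Γ` the relation of OBS: `dim X/X₀ ≤ dim Y/Y₀`, where
`dim X/X₀ = dim VV k t - dim (image of ρ)` and `dim Y/Y₀ = dim VB τ - (hI ⊤ τ - hI P τ)` (`Y₀` modulo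
`Nul P` is `A_τ / P_τ`: `b ∈ LI P (u_i)` iff `b ∈ P`). -/
def S_STEP : Prop := ∀ (d : ℕ) (F : A) (P : Ideal A) (u g : Fin 3 → A) (del gam : Fin 3 → ℕ)
  (a : ℕ → Fin 3 → Fin 3 → K), Dat d F P u g del gam a → ∀ (k : ℕ) (t : ℤ), 1 ≤ k →
  Module.Finite ℂ (VV F u gam a k t) →
  Module.Finite ℂ (VV F u gam a (k + 1) t) ∧
  Module.finrank ℂ (VV F u gam a (k + 1) t) + hI ⊤ (t - (k + 1) * d) ≤
    Module.finrank ℂ (VV F u gam a k t) + hI P (t - k * d) ∧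
  Module.finrank ℂ (VV F u gam a k t) + hI ⊤ (t - k * d) ≤
    Module.finrank ℂ (VV F u gam a (k + 1) t) + Module.finrank ℂ (VB P u (t - k * d)) +
      hI ⊤ (t - (k + 1) * d)

/-- UPLOW (60 lines; `theorem t_UPLOW (h1 : S_V1) (h2 : S_STEP) : S_UPLOW`). Proof: induction on `k`
from STEP and V1 (`hI P ≤ hI ⊤`). -/
def S_UPLOW : Prop := ∀ (d : ℕ) (F : A) (P : Ideal A) (u g : Fin 3 → A) (del gam : Fin 3 → ℕ)
  (a : ℕ → Fin 3 → Fin 3 → K), Dat d F P u g del gam a → ∀ (k : ℕ) (t : ℤ), 1 ≤ k →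
  Module.Finite ℂ (VV F u gam a k t) ∧
  Module.finrank ℂ (VV F u gam a k t) + hI ⊤ (t - k * d) ≤ hI ⊤ t ∧
  hI P t ≤ Module.finrank ℂ (VV F u gam a k t) + hI ⊤ (t - k * d) +
    ∑ j ∈ Finset.Ico 1 k, Module.finrank ℂ (VB P u (t - j * d))

/-! ## The limit module -/

/-- Elements of degree `t` of the limit module. -/
structure InM (F : A) (u : Fin 3 → A) (gam : Fin 3 → ℕ) (a : ℕ → Fin 3 → Fin 3 → K) (t : ℤ)
    (s : ℕ → Fin 3 → K) : Prop where
  sec : ∀ k, 1 ≤ k → s k ∈ Sec F u gam a k t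
  comp : ∀ k, 1 ≤ k → ∀ i, s (k + 1) i - s k i ∈ LI (Ideal.span {F ^ k}) (u i)

/-- Zero in the limit module. -/
def IsZ (F : A) (u : Fin 3 → A) (s : ℕ → Fin 3 → K) : Prop :=
  ∀ k, 1 ≤ k → ∀ i, s k i ∈ LI (Ideal.span {F ^ k}) (u i)

/-- LIM (120 lines; `theorem t_LIM (h1 : S_V1) (h2 : S_BPD) (h3 : S_OBS) (h4 : S_LIFT)
(h5 : S_KER) : S_LIM`). Proof. (1) Above level `k` lift step by step: the obstruction `β` of OBS is
of degree `t - j d < 0`, so zero by BPD, and LIFT with `b = 0` applies; below level `k` take `s₀`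
itself (it is in `Sec j t` for `1 ≤ j ≤ k`, by `comp`). (2) `s (k+1) i ∈ LI (F^k)`, so by KER it is
`F^k r` with `r ∈ Sec 1 (t - k d)` of negative degree; by V1 `VV 1 (t - k d)` has dimension
`hI P (..) = 0`, so `r ∈ Nul (F)`, and `s (k+1) i ∈ LI (F^(k+1))`; induct; below level `k` use `comp`.
(3) `s 1 ∈ Nul (F)` by V1 as `hI P t = 0`, then (2) with `k = 1`. -/
def S_LIM : Prop := ∀ (d : ℕ) (F : A) (P : Ideal A) (u g : Fin 3 → A) (del gam : Fin 3 → ℕ)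
  (a : ℕ → Fin 3 → Fin 3 → K), Dat d F P u g del gam a →
  (∀ (k : ℕ) (t : ℤ), 1 ≤ k → t < k * d → ∀ s₀ ∈ Sec F u gam a k t,
    ∃ s, InM F u gam a t s ∧ ∀ i, s k i - s₀ i ∈ LI (Ideal.span {F ^ k}) (u i)) ∧
  (∀ (k : ℕ) (t : ℤ), 1 ≤ k → t < k * d → ∀ s, InM F u gam a t s →
    (∀ i, s k i ∈ LI (Ideal.span {F ^ k}) (u i)) → IsZ F u s) ∧
  ∀ t : ℤ, t < 0 → ∀ s, InM F u gam a t s → IsZ F u s

/-- TF (60 lines): no torsion. Proof. `c = F^r c'`, `F` does not divide `c'`. For `k > r`: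
`c' F^r s^k_i ∈ F^k Loc(u_i)`, so `c' s^k_i ∈ F^(k-r) Loc(u_i)`, so `s^k_i ∈ F^(k-r) Loc(u_i)` (`F`
prime, not dividing `c'`, `u_i`). So `s^(k+r)_i ∈ F^k Loc(u_i)` and `s^k_i = s^(k+r)_i` modulo
`F^k`. -/
def S_TF : Prop := ∀ (d : ℕ) (F : A) (P : Ideal A) (u g : Fin 3 → A) (del gam : Fin 3 → ℕ)
  (a : ℕ → Fin 3 → Fin 3 → K), Dat d F P u g del gam a → ∀ (t : ℤ) (s : ℕ → Fin 3 → K) (c : A),
  InM F u gam a t s → c ≠ 0 → IsZ F u (fun k i => algebraMap A K c * s k i) → IsZ F u s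

/-- ARK (40 lines, pure algebra). Proof: Artin-Rees for the ideal `(f)` and the submodule `c D`
(`Ideal.exists_pow_inf_eq_pow_smul`): there is `r` with `f^k D ∩ c D = f^(k-r) (f^r D ∩ c D) ⊆
f^(k-r) c D` for `k ≥ r`; cancel `c`. -/
def S_ARK : Prop := ∀ (D : Type) [CommRing D] [IsDomain D] [IsNoetherianRing D] (f c : D),
  c ≠ 0 → ∃ r : ℕ, ∀ k ≥ r, ∀ x : D, c * x ∈ Ideal.span {f ^ k} → x ∈ Ideal.span {f ^ (k - r)}

/-- DIV1 (120 lines; `theorem t_DIV1 (h1 : S_ARK) : S_DIV1`): division in one chart. Proof. If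
`q ∣ u` then every element of `LI ⊤ u` is in `LI (q) u` (multiply numerator and denominator by `u`).
Otherwise let `D = Localization.Away` of the image of `u` in `A ⧸ (q)`, a Noetherian domain (or
avoid localizations: apply ARK to `D = A ⧸ (q)` and numerators: `u^n z_k = p_k`,
`c p_k ∈ (q, F^k)` after multiplication with a power of `u`; the power of `u` can be removed from
`u^N x̄ ∈ (F̄^k)` only in the localization, so the localization is better). The image of `c` is not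
`0`. ARK with `f = F`: `r` with: `c z̄_k ∈ F^k D` implies `z̄_k ∈ F^(k-r) D`. For every `k`:
`z̄_(k+r) ∈ F^k D` and `z_(k+r) - z_k ∈ LI (F^k) u`, so `z̄_k ∈ F^k D`, which means
`u^n p_k ∈ (q, F^k)` for some `n`, i.e. `z_k ∈ LI (q, F^k) u`. -/
def S_DIV1 : Prop := ∀ (F q c u : A) (z : ℕ → K), Prime q → ¬ q ∣ c → u ≠ 0 →
  (∀ k, 1 ≤ k → z k ∈ LI ⊤ u) →
  (∀ k, 1 ≤ k → z (k + 1) - z k ∈ LI (Ideal.span {F ^ k}) u) →
  (∀ k, 1 ≤ k → algebraMap A K c * z k ∈ LI (Ideal.span {q, F ^ k}) u) →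
  ∀ k, 1 ≤ k → z k ∈ LI (Ideal.span {q, F ^ k}) u

/-- DIVQ (150 lines; `theorem t_DIVQ (h1 : S_DIV1) (h2 : S_HNUM) : S_DIVQ`): division by a prime form
`q`. Proof. Case `q ∣ F` (so `F ∣ q`, both prime): `c s^1_i ∈ F Loc(u_i)`, so
`s^1_i ∈ F Loc(u_i)`, so all `s^k_i ∈ F Loc(u_i)`; take `s'^k_i = s^(k+1)_i / q`. Otherwise `q` and
`F` are coprime primes. DIV1 for `z_k = s^k_i` and `u = u_i`: `u_i^n s^k_i = q x + F^k y`, take
homogeneous components of the right degree and put `s'^k_i = x / u_i^n`, so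
`s^k_i - q s'^k_i ∈ LI (F^k) (u_i)`. Then `s'` is in the limit module:
`q (s'^(k+1)_i - s'^k_i) ∈ LI (F^k) (u_i)` and `q (s'^k_i - a_ij s'^k_j) ∈ LI (F^k) (u_i u_j)`, and
`q` can be cancelled as it is coprime to `F` (`F^k ∣ q x u^n` implies `F^k ∣ x`: `F` is prime and
does not divide `q`, `u_i`). -/
def S_DIVQ : Prop := ∀ (d : ℕ) (F : A) (P : Ideal A) (u g : Fin 3 → A) (del gam : Fin 3 → ℕ)
  (a : ℕ → Fin 3 → Fin 3 → K), Dat d F P u g del gam a → ∀ (t t' : ℤ) (s r : ℕ → Fin 3 → K)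
  (c b q : A) (δ : ℕ), InM F u gam a t s → InM F u gam a t' r → Prime q → q.IsHomogeneous δ →
  ¬ q ∣ c → IsZ F u (fun k i => algebraMap A K c * s k i - algebraMap A K (q * b) * r k i) →
  ∃ s', InM F u gam a (t - δ) s' ∧ IsZ F u (fun k i => s k i - algebraMap A K q * s' k i)

/-- RANK1 (120 lines; `theorem t_RANK1 (h1 : S_UPLOW) (h2 : S_LIM) (h3 : S_DIMA) : S_RANK1`): the
limit module has rank one. Proof. For a big integer `D` consider `A_(D-t) × A_(D-t') → VV k D`,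
`(c, b) ↦ c s^k - b r^k`, `k d > D`. Dimensions: `dim VV k D ≤ hI ⊤ D = C(D+4, 4) <
C(D-t+4, 4) + C(D-t'+4, 4)` for `D` large (the quotient of the right side by the left tends to `2`),
so there is `(c, b) ≠ 0` in the kernel; by LIM (2) `c s - b r` is zero. If `c = 0` then `b r` is zero
and `r` is zero by TF (take `h4 : S_TF`), same for `b`. -/
def S_RANK1 : Prop := ∀ (d : ℕ) (F : A) (P : Ideal A) (u g : Fin 3 → A) (del gam : Fin 3 → ℕ)
  (a : ℕ → Fin 3 → Fin 3 → K), Dat d F P u g del gam a → ∀ (t t' : ℤ) (s r : ℕ → Fin 3 → K),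
  InM F u gam a t s → InM F u gam a t' r → ¬ IsZ F u s → ¬ IsZ F u r →
  ∃ (c b : A) (m m' : ℕ), c ≠ 0 ∧ b ≠ 0 ∧ c.IsHomogeneous m ∧ b.IsHomogeneous m' ∧
    (m : ℤ) + t = m' + t' ∧
    IsZ F u (fun k i => algebraMap A K c * s k i - algebraMap A K b * r k i)

/-- GEN (120 lines; `theorem t_GEN (h1 : S_LIM) (h2 : S_TF) (h3 : S_DIVQ) (h4 : S_RANK1) : S_GEN`):
the limit module is free of rank one. Proof. Let `e` be the smallest degree of a nonzero element `s`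
(`e ≥ 0` by LIM (3)). Let `r` be nonzero of degree `t`; by RANK1 `c s = b r`; take `b` of smallest
degree `m'`. If `m' > 0` then `b` has a prime factor `q`, it is homogeneous of positive degree
(factors of homogeneous polynomials are homogeneous), `b = q b'`. If `q ∣ c` cancel `q` (TF): smaller
degree, contradiction. If not, DIVQ gives `s = q s'` with `s'` of degree `e - deg q`, not zero: a
contradiction to the choice of `e`. So `b` is a constant `≠ 0` and `r = b⁻¹ c s`. -/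
def S_GEN : Prop := ∀ (d : ℕ) (F : A) (P : Ideal A) (u g : Fin 3 → A) (del gam : Fin 3 → ℕ)
  (a : ℕ → Fin 3 → Fin 3 → K), Dat d F P u g del gam a →
  (∃ (t : ℤ) (s : ℕ → Fin 3 → K), InM F u gam a t s ∧ ¬ IsZ F u s) →
  ∃ (e : ℕ) (s : ℕ → Fin 3 → K), InM F u gam a e s ∧ ¬ IsZ F u s ∧
    ∀ (t : ℤ) (r : ℕ → Fin 3 → K), InM F u gam a t r →
      ∃ b : A, (0 ≤ t - e → b.IsHomogeneous (t - e).toNat) ∧ (t - e < 0 → b = 0) ∧
        IsZ F u (fun k i => r k i - algebraMap A K b * s k i)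

/-! ## Numbers -/

/-- HBQ (100 lines; `theorem t_HBQ (h1 : S_HCI) (h2 : S_DIMA) : S_HBQ`): the Hilbert function of
`A / P` is at most quadratic. Proof. `(F, g_0) ⊆ P`, so `hI ⊤ t - hI P t ≤ hI ⊤ t - hI (F, g_0) t =
a(t) - a(t-d) - a(t-γ) + a(t-d-γ)` by HCI (`F` prime does not divide `g_0`, else `u_0 P ⊆ (F)`,
`P = (F)` of height `1`), `a(n) = C(n+4, 4)`, `0` for `n < 0`. By Pascal's rule
`a(n) - a(n-1) = C(n+3, 3)` and the second difference is a sum of `d γ` terms `C(n+2, 2) ≤ (t+2)^2`. -/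
def S_HBQ : Prop := ∀ (d : ℕ) (F : A) (P : Ideal A) (u g : Fin 3 → A) (del gam : Fin 3 → ℕ)
  (a : ℕ → Fin 3 → Fin 3 → K), Dat d F P u g del gam a →
  ∃ M : ℕ, ∀ t : ℕ, hI ⊤ t ≤ hI P t + M * (t + 1) ^ 2

/-- MONO (60 lines): `dim (A/P)_t` is nondecreasing. Proof. Some variable `x_l` is not in `P`
(`u_0 ∉ P` is homogeneous of positive degree); multiplication by it
`A_t / P_t → A_(t+1) / P_(t+1)` is injective. For `t + 1 < 0` everything is `0`, for `t = -1` the left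
side is `hI P 0 ≤ hI ⊤ 0`. -/
def S_MONO : Prop := ∀ (d : ℕ) (F : A) (P : Ideal A) (u g : Fin 3 → A) (del gam : Fin 3 → ℕ)
  (a : ℕ → Fin 3 → Fin 3 → K), Dat d F P u g del gam a → ∀ t : ℤ,
  hI ⊤ t + hI P (t + 1) ≤ hI ⊤ (t + 1) + hI P t

/-- NUMEX (60 lines, numbers). Proof: at most `t + δ + 1` terms are not zero, every one is at most
`M (t + δ + 1)^2`; a cubic polynomial is smaller than `C(t+4, 4) ≥ t^4/24` for large `t`. -/
def S_NUMEX : Prop := ∀ (f : ℤ → ℕ) (M d δ : ℕ), 1 ≤ d → (∀ t : ℤ, t < 0 → f t = 0) →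
  (∀ t : ℕ, f t ≤ M * (t + 1) ^ 2) →
  ∃ t : ℕ, f t + ∑ j ∈ Finset.range (t + 1), f ((t : ℤ) - j * d + δ) < (t + 4).choose 4

/-- NUMEND (100 lines, numbers). Proof: the right side is at most
`∑_{τ ≤ t} (f(τ + δ) - f τ) ≤ δ f(t + δ) ≤ δ M (t + δ + 1)^2` (`f` is nondecreasing, telescoping; the
`t - j d` are different); the left side contains for `j ≤ (t - n₀)/(2 d)` terms
`≥ C((t - n₀)/2 + 2, 2)`, so it is at least a positive constant times `t^3`. -/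
def S_NUMEND : Prop := ∀ (f h : ℤ → ℕ) (M d δ n₀ : ℕ), 1 ≤ d → (∀ t : ℤ, t < 0 → f t = 0) →
  (∀ t, f t ≤ f (t + 1)) → (∀ t : ℕ, f t ≤ M * (t + 1) ^ 2) →
  (∀ t : ℕ, n₀ ≤ t → (t - n₀ + 2).choose 2 ≤ h t) →
  ∃ t : ℕ, ∑ j ∈ Finset.range (t + 1), (f ((t : ℤ) - j * d + δ) : ℤ) -
    ∑ j ∈ Finset.range (t + 1), (f ((t : ℤ) - j * d) : ℤ) <
      ∑ j ∈ Finset.range (t + 1), (h ((t : ℤ) - j * d) : ℤ)

end Pool.Agent.NOD.L3
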